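import Pool.Agent.W868.Eo
import Pool.Agent.W868.GM.Dfs

/-!
# Chain conditions and finite support iterations in transitive models of ZF: the definitions

A set `N` of sets (an element of `Set ZFSet.{0}`) is viewed as the structure `(N, ∈)`. `IsZF N`
(`N` is a transitive model of ZF) and `IsInj` are from `Pool.Agent.W868.Defs`; `IsForcing`
(notions of forcing in `N`, `pair q p ∈ L` means `q ≤ p`), `IsGeneric` (`N`-generic filters),
`ev G x` (the value of the name `x`) and `ext N G` (the generic extension `N[G]`) are from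
`Pool.Agent.W868.GM.Dfs`. `fs u` (the first component of the ordered pair `u`) is from
`Pool.Agent.W868.Im`, and `ap f x` (the value of the function `f` at `x`) from
`Pool.Agent.W868.Eo`.
-/

set_option autoImplicit false

namespace Pool.Agent.H158_IT

open Pool.Agent.W868 (IsZF IsInj fs ap)
open Pool.Agent.W868.GM (IsForcing IsGeneric ev ext)
open ZFSet (pair)

/-! ### Chain conditions -/

/-- `p` and `q` are compatible in the preorder `(P, L)`. -/
def Cmp (P L p q : ZFSet.{0}) : Prop := ∃ r ∈ P, pair r p ∈ L ∧ pair r q ∈ L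

/-- `A` is an antichain of `(P, L)`. -/
def IsAntichain (P L A : ZFSet.{0}) : Prop :=
  A ⊆ P ∧ ∀ p ∈ A, ∀ q ∈ A, p ≠ q → ¬ Cmp P L p q

/-- `D` is a predense subset of `(P, L)`. -/
def IsPredense (P L D : ZFSet.{0}) : Prop := D ⊆ P ∧ ∀ p ∈ P, ∃ d ∈ D, Cmp P L p d

/-- In `N`, the set `x` is countable: it has an injection into the set of the natural numbers. -/
def IsCtble (N : Set ZFSet.{0}) (x : ZFSet.{0}) : Prop := ∃ f ∈ N, IsInj x ZFSet.omega f

/-- In `N`, every maximal antichain of `(P, L)` is countable. (An antichain is maximal if and only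
if it is predense.) -/
def CCC1 (N : Set ZFSet.{0}) (P L : ZFSet.{0}) : Prop :=
  ∀ A ∈ N, IsAntichain P L A → IsPredense P L A → IsCtble N A

/-- In `N`, every antichain of `(P, L)` is countable. -/
def CCC2 (N : Set ZFSet.{0}) (P L : ZFSet.{0}) : Prop :=
  ∀ A ∈ N, IsAntichain P L A → IsCtble N A

/-- In `N`, every predense subset of `(P, L)` contains a countable predense subset. -/
def CCC3 (N : Set ZFSet.{0}) (P L : ZFSet.{0}) : Prop :=
  ∀ D ∈ N, IsPredense P L D → ∃ C ∈ N, C ⊆ D ∧ IsPredense P L C ∧ IsCtble N C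

/-- The axiom of dependent choice holds in `N`. -/
def DC (N : Set ZFSet.{0}) : Prop :=
  ∀ X ∈ N, ∀ R ∈ N, (∃ x, x ∈ X) → (∀ x ∈ X, ∃ y ∈ X, pair x y ∈ R) →
    ∃ f ∈ N, ZFSet.IsFunc ZFSet.omega X f ∧
      ∀ n x y, pair n x ∈ f → pair (insert n n) y ∈ f → pair x y ∈ R

/-! ### Finite support iterations -/

/-- `f` is a function with domain `d`. -/
def IsFn (d f : ZFSet.{0}) : Prop :=
  (∀ u ∈ f, ∃ x ∈ d, ∃ y, u = pair x y) ∧ ∀ x ∈ d, ∃! y, pair x y ∈ f

/-- The restriction of the function `f` to `d`. -/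
noncomputable def rst (f d : ZFSet.{0}) : ZFSet.{0} := ZFSet.sep (fun u => fs u ∈ d) f

/-- `R` is a preorder on `X` with maximum `t`. -/
structure IsPre (X R t : ZFSet.{0}) : Prop where
  refl : ∀ x ∈ X, pair x x ∈ R
  trans : ∀ x ∈ X, ∀ y ∈ X, ∀ z ∈ X, pair x y ∈ R → pair y z ∈ R → pair x z ∈ R
  top_mem : t ∈ X
  le_top : ∀ x ∈ X, pair x t ∈ R

/-- For the notion of forcing `(P, L)` in `N` and the name `Q`, the set `T` consists of names for
elements of `Q`, and every name for an element of `Q` (below some condition) is forced (by this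
condition) to be equal to a name in `T`. So `T` stands for the class of all names for elements of
`Q`. -/
structure IsNames (N : Set ZFSet.{0}) (P L Q T : ZFSet.{0}) : Prop where
  name : ∀ σ ∈ T, ∀ G, IsGeneric N P L G → ev G σ ∈ ev G Q
  full : ∀ τ ∈ N, ∀ p ∈ P, (∀ G, IsGeneric N P L G → p ∈ G → ev G τ ∈ ev G Q) →
    ∃ σ ∈ T, ∀ G, IsGeneric N P L G → p ∈ G → ev G σ = ev G τ

/-- A finite support iteration of length `δ` in `N`. For `α ≤ δ` (that is, `α ∈ δ ∪ {δ}`) the
notion of forcing `P α` has the order `L α`; for `β < δ` the names `Q β`, `R β`, `O β` are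
`P β`-names for a preordered set, its order and its maximum, and `T β` is the set of the
`P β`-names for elements of `Q β` that are used. -/
structure IsIteration (N : Set ZFSet.{0}) (δ P L Q R O T : ZFSet.{0}) : Prop where
  ord : δ.IsOrdinal
  mem : δ ∈ N ∧ P ∈ N ∧ L ∈ N ∧ Q ∈ N ∧ R ∈ N ∧ O ∈ N ∧ T ∈ N
  dom : IsFn (insert δ δ) P ∧ IsFn (insert δ δ) L ∧ IsFn δ Q ∧ IsFn δ R ∧ IsFn δ O ∧ IsFn δ T
  pre : ∀ β ∈ δ, ∀ G, IsGeneric N (ap P β) (ap L β) G →
    IsPre (ev G (ap Q β)) (ev G (ap R β)) (ev G (ap O β))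
  names : ∀ β ∈ δ, IsNames N (ap P β) (ap L β) (ap Q β) (ap T β)
  top : ∀ β ∈ δ, ap O β ∈ ap T β
  cond : ∀ α ∈ (insert δ δ : ZFSet.{0}), ∀ p, p ∈ ap P α ↔ p ∈ N ∧ IsFn α p ∧
    (∀ β ∈ α, ap p β ∈ ap T β) ∧ {β | β ∈ α ∧ ap p β ≠ ap O β}.Finite
  order : ∀ α ∈ (insert δ δ : ZFSet.{0}), ∀ p q, pair q p ∈ ap L α ↔
    q ∈ ap P α ∧ p ∈ ap P α ∧ ∀ β ∈ α, ∀ G, IsGeneric N (ap P β) (ap L β) G → rst q β ∈ G →
      pair (ev G (ap q β)) (ev G (ap p β)) ∈ ev G (ap R β)

/-- The iteration theorem for the chain condition `C` holds in `N`: if in a finite support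
iteration it is forced for all `β < δ` that `Q β` satisfies `C`, then `P δ` satisfies `C`. -/
def IT (C : Set ZFSet.{0} → ZFSet.{0} → ZFSet.{0} → Prop) (N : Set ZFSet.{0}) : Prop :=
  ∀ δ P L Q R O T, IsIteration N δ P L Q R O T →
    (∀ β ∈ δ, ∀ G, IsGeneric N (ap P β) (ap L β) G → C (ext N G) (ev G (ap Q β)) (ev G (ap R β))) →
      C N (ap P δ) (ap L δ)

end Pool.Agent.H158_IT
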