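import Pool.Agent.H158_IT.Str
import Pool.Agent.H158_IT.Defs
import Pool.Agent.H158_CC.Bri

/-!
# Transitive models of ZF as structures for the language of set theory: the bridge
-/

set_option maxHeartbeats 1000000
set_option linter.all false
set_option synthInstance.maxSize 2000

namespace Pool.Agent.Helper672.ZFA.H158IT

open FirstOrder FirstOrder.Language
open H635 (IWO)
open Pool.Agent.H310
open Pool.Agent.H310Cards (App IsOmega IsNat IsInductive)
open Pool.Agent.Helper672.ZFA.V246
open Pool.Agent.Helper672.ZFA.H158CC (ctb_of_inj ctb_comap ctb_prod)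
open Pool.Agent.Helper672.Plain (LSet)
open Pool.Agent.H635Amen (ZF)
open Pool.Agent.H158_IT (Tm tm mem_tm zf_tm IsCtble DC)
open Pool.Agent.W868 (IsZF nat mem_omega_iff)
open ZFSet (pair)

section

attribute [local instance] Helper672.Plain.toL

variable {N : Set ZFSet.{0}} [hN : Fact (IsZF N)]

instance zfT : ZF (Tm N) := zf_tm hN.out

local instance instModelT : IsModel (Tm N) := Helper672.Plain.isModel_toL

theorem pair_tm {x y : Tm N} {z : ZFSet.{0}} (hz : z ∈ N) (h : z = {x.1, y.1}) :
    Helper672.Plain.IsPair (tm z hz) x y := by
  subst h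
  intro w
  rw [mem_tm]
  exact ZFSet.mem_pair.trans (or_congr ⟨fun h => Subtype.ext h, fun h => congrArg Subtype.val h⟩
    ⟨fun h => Subtype.ext h, fun h => congrArg Subtype.val h⟩)

theorem op_val (a b : Tm N) : (op a b).1 = pair a.1 b.1 := by
  have h0 : ∀ x : Tm N, ∀ y : Tm N, ({x.1, y.1} : ZFSet.{0}) ∈ N := fun x y =>
    hN.out.pairing _ x.2 _ y.2
  have h1 : ({a.1} : ZFSet.{0}) = {a.1, a.1} := by
    ext z
    rw [ZFSet.mem_pair, ZFSet.mem_singleton, or_self]
  have hs : ({a.1} : ZFSet.{0}) ∈ N := h1 ▸ h0 a a
  have h2 : Helper672.Plain.IsOrdPair (tm (pair a.1 b.1) (h0 (tm {a.1} hs)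
      (tm {a.1, b.1} (h0 a b)))) a b :=
    ⟨tm {a.1} hs, tm {a.1, b.1} (h0 a b), pair_tm _ h1, pair_tm _ rfl, pair_tm _ rfl⟩
  rw [ordPair_iff] at h2
  exact (congrArg Subtype.val h2).symm

theorem ordPair_tm {q x y : Tm N} : Helper672.Plain.IsOrdPair q x y ↔ q.1 = pair x.1 y.1 := by
  rw [ordPair_iff, ← op_val]
  exact ⟨fun h => congrArg Subtype.val h, fun h => Subtype.ext h⟩

theorem app_tm {f x y : Tm N} : App f x y ↔ pair x.1 y.1 ∈ f.1 := by
  rw [app_iff, ← op_val]
  exact Iff.rfl

/-- The set of the natural numbers. -/
def om (N : Set ZFSet.{0}) [hN : Fact (IsZF N)] : Tm N := ⟨ZFSet.omega, hN.out.infinity⟩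

theorem isOmega_tm : IsOmega (om N) := by
  intro n
  rw [mem_tm]
  constructor
  · intro h i hi
    have h1 : ∀ k : ℕ, nat k ∈ i.1 := by
      intro k
      induction k with
      | zero =>
        obtain ⟨⟨e, he, h1⟩, -⟩ := hi
        have h2 : e.1 = ∅ := by
          rw [ZFSet.eq_empty]
          intro z hz
          exact h1 ⟨z, hN.out.trans _ e.2 _ hz⟩ hz
        rw [nat, ← h2]
        exact he
      | succ k ih =>
        obtain ⟨s, hs, h1⟩ := hi.2 ⟨nat k, hN.out.trans _ i.2 _ ih⟩ ih
        have h2 : s.1 = insert (nat k) (nat k) := by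
          ext z
          rw [ZFSet.mem_insert_iff, or_comm]
          constructor
          · intro hz
            rcases (h1 ⟨z, hN.out.trans _ s.2 _ hz⟩).1 hz with h | h
            · exact Or.inl h
            · exact Or.inr (congrArg Subtype.val h)
          · intro hz
            rcases hz with hz | hz
            · exact (h1 ⟨z, hN.out.trans _ (hN.out.trans _ i.2 _ ih) _ hz⟩).2 (Or.inl hz)
            · subst hz
              exact (h1 ⟨nat k, hN.out.trans _ i.2 _ ih⟩).2 (Or.inr rfl)
        rw [nat, ← h2]
        exact hs
    obtain ⟨k, hk⟩ := mem_omega_iff.1 (show n.1 ∈ ZFSet.omega from h)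
    show n.1 ∈ i.1
    rw [hk]
    exact h1 k
  · intro h
    refine h (om N) ⟨⟨⟨∅, hN.out.trans _ hN.out.infinity _ ZFSet.omega_zero⟩, ZFSet.omega_zero,
      fun z hz => ZFSet.notMem_empty _ hz⟩, fun n hn => ?_⟩
    have h1 : insert n.1 n.1 ∈ ZFSet.omega := ZFSet.omega_succ hn
    refine ⟨⟨insert n.1 n.1, hN.out.trans _ hN.out.infinity _ h1⟩, h1, fun z => ?_⟩
    rw [mem_tm, mem_tm, ZFSet.mem_insert_iff, or_comm]
    exact or_congr Iff.rfl ⟨fun h => Subtype.ext h, fun h => congrArg Subtype.val h⟩

theorem code_nat_mem (n : INat (Tm N)) : (code (M := Tm N) n).1 ∈ ZFSet.omega :=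
  (mem_omega isOmega_tm).2 ⟨n, rfl⟩

theorem exists_code {z : ZFSet.{0}} (hz : z ∈ ZFSet.omega) :
    ∃ n : INat (Tm N), (code (M := Tm N) n).1 = z := by
  obtain ⟨n, hn⟩ := (mem_omega (w := om N) (z := ⟨z, hN.out.trans _ hN.out.infinity _ hz⟩)
    isOmega_tm).1 hz
  exact ⟨n, congrArg Subtype.val hn⟩

theorem code_succ (n : INat (Tm N)) :
    (code (M := Tm N) n.succ).1 = insert (code (M := Tm N) n).1 (code (M := Tm N) n).1 := by
  ext z
  rw [ZFSet.mem_insert_iff, or_comm]
  constructor
  · intro hz
    rcases INat.mem_succ.1 (show Mem (tm z (hN.out.trans _ (code (M := Tm N) n.succ).2 _ hz))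
      n.succ.val from hz) with h | h
    · exact Or.inl h
    · exact Or.inr (congrArg Subtype.val h)
  · rintro (hz | hz)
    · exact (INat.mem_succ (n := n) (z := tm z (hN.out.trans _ (code (M := Tm N) n).2 _
        hz))).2 (Or.inl hz)
    · subst hz
      exact (INat.mem_succ (n := n) (z := n.val)).2 (Or.inr rfl)

/-- Relations that are given by a set of pairs. -/
theorem int_rel {A B : Tm N} {s : ZFSet.{0}} (hs : s ∈ N) {R : El A → El B → Prop}
    (h : ∀ a b, pair a.1.1 b.1.1 ∈ s ↔ R a b) : Int (Tm N) fun q : El A × El B => R q.1 q.2 :=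
  ⟨⟨s, hs⟩, fun q => by
    show (op q.1.1 q.2.1).1 ∈ s ↔ _
    rw [op_val]
    exact h _ _⟩

theorem int_rel3 {A B C : Tm N} {s : ZFSet.{0}} (hs : s ∈ N) {R : El A → El B → El C → Prop}
    (h : ∀ a b c, pair (pair a.1.1 b.1.1) c.1.1 ∈ s ↔ R a b c) :
    Int (Tm N) fun q : (El A × El B) × El C => R q.1.1 q.1.2 q.2 :=
  ⟨⟨s, hs⟩, fun q => by
    show (op (op q.1.1.1 q.1.2.1) q.2.1).1 ∈ s ↔ _
    rw [op_val, op_val]
    exact h _ _ _⟩

theorem int_set {A : Tm N} {s : ZFSet.{0}} (hs : s ∈ N) :
    Int (Tm N) fun q : El A => q.1.1 ∈ s := ⟨⟨s, hs⟩, fun q => Iff.rfl⟩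

/-- The set that is given by an internal predicate. -/
theorem exists_set {α : Type 1} [ITy (Tm N) α] {p : α → Prop} (hp : Int (Tm N) p) :
    ∃ s ∈ N, ∀ z, z ∈ s ↔ ∃ a, p a ∧ (code (M := Tm N) a).1 = z := by
  refine ⟨(code (M := Tm N) (sep (Tm N) p)).1, (code (M := Tm N) (sep (Tm N) p)).2, fun z => ?_⟩
  constructor
  · intro hz
    obtain ⟨a, h1, h2⟩ := mem_codeS.1 (show Mem
      (tm z (hN.out.trans _ (code (M := Tm N) (sep (Tm N) p)).2 _ hz)) _ from hz)
    exact ⟨a, (mem_sep hp).1 h1, congrArg Subtype.val h2⟩
  · rintro ⟨a, h1, rfl⟩
    exact mem_codeS.2 ⟨a, (mem_sep hp).2 h1, rfl⟩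

theorem isInj_tm {C f : Tm N} (h : Pool.Agent.W868.IsInj C.1 ZFSet.omega f.1) :
    Pool.Agent.H310Cards.IsInj f C (om N) := by
  obtain ⟨⟨h1, h2⟩, h3⟩ := h
  refine ⟨⟨fun q hq => ?_, fun x hx => ?_⟩, fun x x' y hx hx' => ?_⟩
  · obtain ⟨a, ha, b, hb, h4⟩ := ZFSet.mem_prod.1 (h1 hq)
    exact ⟨⟨a, hN.out.trans _ C.2 _ ha⟩, ⟨b, hN.out.trans _ hN.out.infinity _ hb⟩, ha, hb,
      ordPair_tm.2 h4⟩
  · obtain ⟨y, hy, hu⟩ := h2 x.1 hx
    have h4 := h1 hy
    rw [ZFSet.pair_mem_prod] at h4
    refine ⟨⟨y, hN.out.trans _ hN.out.infinity _ h4.2⟩, app_tm.2 hy, fun y' hy' => ?_⟩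
    exact Subtype.ext (hu _ (app_tm.1 hy'))
  · exact Subtype.ext (h3 _ _ _ (app_tm.1 hx) (app_tm.1 hx'))

/-- Countable sets give countable predicates. -/
theorem ctb_of_isCtble {A : Tm N} {C : ZFSet.{0}} (hC : C ⊆ A.1) (hCN : C ∈ N)
    (h : IsCtble N C) : Ctb (Tm N) fun x : El A => x.1.1 ∈ C := by
  obtain ⟨f, hf, h1⟩ := h
  exact ctb_of_inj (a := tm C hCN) (f := tm f hf) isOmega_tm
    (fun x hx => hC hx) (isInj_tm h1)

/-- Countable predicates give countable sets. -/
theorem isCtble_of_ctb {α : Type 1} [ITy (Tm N) α] {p : α → Prop} (hp : Int (Tm N) p)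
    (h : Ctb (Tm N) p) {C : ZFSet.{0}}
    (hC : ∀ z, z ∈ C ↔ ∃ a, p a ∧ (code (M := Tm N) a).1 = z) : IsCtble N C := by
  obtain ⟨e, he, h1⟩ := h
  have hI : Int (Tm N) fun q : α × INat (Tm N) => p q.1 ∧ e q.1 = q.2 := by (repeat' (first | with_reducible exact IntF.id | with_reducible exact IntF.fst' | with_reducible exact IntF.snd' | with_reducible exact IntF.const _ | with_reducible exact Int.const _ | assumption | with_reducible apply Int.and | with_reducible apply Int.or | with_reducible apply Int.not | with_reducible apply Int.imp | with_reducible apply Int.iff | with_reducible apply Int.ne | with_reducible apply Int.eq | with_reducible apply Int.mem | with_reducible apply Int.subset | with_reducible apply Int.ltN | with_reducible apply Int.leN | with_reducible_and_instances apply Int.le | with_reducible_and_instances apply Int.lt | with_reducible apply Int.all | with_reducible apply Int.ex | with_reducible apply IntF.fst | with_reducible apply IntF.snd | with_reducible apply IntF.app | with_reducible apply IntF.inl | with_reducible apply IntF.inr | with_reducible_and_instances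 apply IntF.mul | with_reducible_and_instances apply IntF.inv | with_reducible_and_instances apply IntF.add | with_reducible_and_instances apply IntF.sub | with_reducible_and_instances apply IntF.neg | with_reducible_and_instances apply IntF.smul | with_reducible apply Int.fin | with_reducible apply IntF.sep | with_reducible apply IntF.lam | with_reducible apply IntF.insert | with_reducible apply IntF.singleton | with_reducible apply IntF.union | with_reducible apply IntF.iimage | with_reducible apply IntF.ite | with_reducible apply IntF.the | with_reducible apply IntF.irec | with_reducible apply IntF.succ | with_reducible apply IntF.val | with_reducible apply IntF.mk | (with_reducible refine Int.comp ?_ ?_; assumption) | (with_reducible refine Int.comp₂ ?_ ?_ ?_; assumption) | (with_reducible refine Int.comp₃ ?_ ?_ ?_ ?_; assumption) | (with_reducible refine Int.comp₄ ?_ ?_ ?_ ?_ ?_; assumption) | (with_reducible refine IntF.comp ?_ ?_; assumption) | (with_reducible refine IntF.comp₂ ?_ ?_ ?_; assumption) | (with_reducible refine IntF.comp₃ ?_ ?_ ?_ ?_; assumption) | with_reducible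 apply IntF.pair))
  obtain ⟨s, hs, h2⟩ := exists_set hI
  have h3 : ∀ x y, pair x y ∈ s ↔ ∃ a, p a ∧ (code (M := Tm N) a).1 = x ∧
      (code (M := Tm N) (e a)).1 = y := by
    intro x y
    rw [h2]
    constructor
    · rintro ⟨⟨a, n⟩, ⟨h4, h40⟩, h5⟩
      dsimp only at h4 h40
      subst h40
      have h6 : pair (code (M := Tm N) a).1 (code (M := Tm N) (e a)).1 = pair x y := by
        rw [← op_val]
        exact h5
      obtain ⟨rfl, rfl⟩ := ZFSet.pair_inj.1 h6
      exact ⟨a, h4, rfl, rfl⟩
    · rintro ⟨a, h4, rfl, rfl⟩
      refine ⟨(a, e a), ⟨h4, rfl⟩, ?_⟩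
      rw [← op_val]
      rfl
  refine ⟨s, hs, ⟨fun u hu => ?_, fun x hx => ?_⟩, fun x x' y hx hx' => ?_⟩
  · obtain ⟨⟨a, n⟩, ⟨h4, h5⟩, h6⟩ := (h2 u).1 hu
    have h7 : u = pair (code (M := Tm N) a).1 (code (M := Tm N) n).1 := by
      rw [← op_val]
      exact h6.symm
    rw [h7, ZFSet.pair_mem_prod]
    exact ⟨(hC _).2 ⟨a, h4, rfl⟩, code_nat_mem _⟩
  · obtain ⟨a, h4, rfl⟩ := (hC _).1 hx
    refine ⟨_, (h3 _ _).2 ⟨a, h4, rfl, rfl⟩, fun y hy => ?_⟩
    obtain ⟨a', h4', h5, rfl⟩ := (h3 _ _).1 hy
    rw [ITy.inj (M := Tm N) (Subtype.ext h5)]
  · obtain ⟨a, h4, rfl, h5⟩ := (h3 _ _).1 hx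
    obtain ⟨a', h4', rfl, h5'⟩ := (h3 _ _).1 hx'
    rw [h1 a a' h4 h4' (ITy.inj (M := Tm N) (Subtype.ext (h5.trans h5'.symm)))]

/-! ### Dependent choice -/

variable {α : Type 1} [ITy (Tm N) α]

theorem dcI (h : DC N) {R : α → α → Prop} (hR : Int (Tm N) fun q : α × α => R q.1 q.2) (a₀ : α)
    (ht : ∀ a, ∃ b, R a b) : ∃ f : INat (Tm N) → α, IntF (Tm N) f ∧ ∀ n, R (f n) (f n.succ) := by
  obtain ⟨s, hs⟩ := hR
  have hs' : ∀ a b, pair (code (M := Tm N) a).1 (code (M := Tm N) b).1 ∈ s.1 ↔ R a b := by
    intro a b
    rw [← op_val]
    exact hs (a, b)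
  have hd : ∀ z, z ∈ (dom (Tm N) α).1 ↔ ∃ a : α, (code (M := Tm N) a).1 = z := by
    intro z
    constructor
    · intro hz
      obtain ⟨a, ha⟩ := mem_dom.1 (show Mem (tm z (hN.out.trans _ (dom (Tm N) α).2 _ hz))
        (dom (Tm N) α) from hz)
      exact ⟨a, congrArg Subtype.val ha⟩
    · rintro ⟨a, rfl⟩
      exact code_mem_dom (M := Tm N) a
  obtain ⟨f, hf, h1, h2⟩ := h _ (dom (Tm N) α).2 _ s.2 ⟨_, (hd _).2 ⟨a₀, rfl⟩⟩ (by
    intro x hx
    obtain ⟨a, rfl⟩ := (hd x).1 hx
    obtain ⟨b, hb⟩ := ht a
    exact ⟨_, (hd _).2 ⟨b, rfl⟩, (hs' a b).2 hb⟩)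
  have hfun : Pool.Agent.H310Cards.IsFun (tm f hf) (om N) (dom (Tm N) α) := by
    refine ⟨fun q hq => ?_, fun x hx => ?_⟩
    · obtain ⟨a, ha, b, hb, h4⟩ := ZFSet.mem_prod.1 (h1.1 hq)
      exact ⟨tm a (hN.out.trans _ hN.out.infinity _ ha),
        tm b (hN.out.trans _ (dom (Tm N) α).2 _ hb), ha, hb, ordPair_tm.2 h4⟩
    · obtain ⟨y, hy, hu⟩ := h1.2 x.1 hx
      have h4 := h1.1 hy
      rw [ZFSet.pair_mem_prod] at h4
      refine ⟨tm y (hN.out.trans _ (dom (Tm N) α).2 _ h4.2), app_tm.2 hy, fun y' hy' => ?_⟩
      exact Subtype.ext (hu _ (app_tm.1 hy'))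
  obtain ⟨φ, h3, h4⟩ := exists_fun (α := INat (Tm N)) (β := α) hfun (fun n => code_nat_mem n)
    fun z hz => mem_dom.1 hz
  refine ⟨φ, h3, fun n => (hs' _ _).1 (h2 (code (M := Tm N) n).1 _ _ ?_ ?_)⟩
  · exact app_tm.1 ((h4 n (φ n)).1 rfl)
  · rw [← code_succ]
    exact app_tm.1 ((h4 n.succ (φ n.succ)).1 rfl)

open Classical in
theorem ccI (h : DC N) {R : INat (Tm N) → α → Prop}
    (hR : Int (Tm N) fun q : INat (Tm N) × α => R q.1 q.2) (ht : ∀ n, ∃ b, R n b) :
    ∃ f : INat (Tm N) → α, IntF (Tm N) f ∧ ∀ n, R n (f n) := by
  obtain ⟨y₀, -⟩ := ht 0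
  obtain ⟨good, hgood⟩ : ∃ good : INat (Tm N) × IFun (Tm N) (INat (Tm N)) α → Prop,
      ∀ c, good c ↔ ∀ m, m < c.1 → R m (c.2 m) := ⟨_, fun _ => Iff.rfl⟩
  have hF : Int (Tm N) good := by
    refine Int.congr (p := fun c : INat (Tm N) × IFun (Tm N) (INat (Tm N)) α =>
      ∀ m, m < c.1 → R m (c.2 m)) ?_ fun c => (hgood c).symm
    (repeat' (first | with_reducible exact IntF.id | with_reducible exact IntF.fst' | with_reducible exact IntF.snd' | with_reducible exact IntF.const _ | with_reducible exact Int.const _ | assumption | with_reducible apply Int.and | with_reducible apply Int.or | with_reducible apply Int.not | with_reducible apply Int.imp | with_reducible apply Int.iff | with_reducible apply Int.ne | with_reducible apply Int.eq | with_reducible apply Int.mem | with_reducible apply Int.subset | with_reducible apply Int.ltN | with_reducible apply Int.leN | with_reducible_and_instances apply Int.le | with_reducible_and_instances apply Int.lt | with_reducible apply Int.all | with_reducible apply Int.ex | with_reducible apply IntF.fst | with_reducible apply IntF.snd | with_reducible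 apply IntF.app | with_reducible apply IntF.inl | with_reducible apply IntF.inr | with_reducible_and_instances apply IntF.mul | with_reducible_and_instances apply IntF.inv | with_reducible_and_instances apply IntF.add | with_reducible_and_instances apply IntF.sub | with_reducible_and_instances apply IntF.neg | with_reducible_and_instances apply IntF.smul | with_reducible apply Int.fin | with_reducible apply IntF.sep | with_reducible apply IntF.lam | with_reducible apply IntF.insert | with_reducible apply IntF.singleton | with_reducible apply IntF.union | with_reducible apply IntF.iimage | with_reducible apply IntF.ite | with_reducible apply IntF.the | with_reducible apply IntF.irec | with_reducible apply IntF.succ | with_reducible apply IntF.val | with_reducible apply IntF.mk | (with_reducible refine Int.comp ?_ ?_; assumption) | (with_reducible refine Int.comp₂ ?_ ?_ ?_; assumption) | (with_reducible refine Int.comp₃ ?_ ?_ ?_ ?_; assumption) | (with_reducible refine Int.comp₄ ?_ ?_ ?_ ?_ ?_; assumption) | (with_reducible refine IntF.comp ?_ ?_; assumption) | (with_reducible refine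 IntF.comp₂ ?_ ?_ ?_; assumption) | (with_reducible refine IntF.comp₃ ?_ ?_ ?_ ?_; assumption) | with_reducible apply IntF.pair))
  have hR' : Int (Tm N) fun q : (INat (Tm N) × IFun (Tm N) (INat (Tm N)) α) ×
      (INat (Tm N) × IFun (Tm N) (INat (Tm N)) α) =>
      good q.2 ∧ (good q.1 → q.2.1 = q.1.1.succ) := by (repeat' (first | with_reducible exact IntF.id | with_reducible exact IntF.fst' | with_reducible exact IntF.snd' | with_reducible exact IntF.const _ | with_reducible exact Int.const _ | assumption | with_reducible apply Int.and | with_reducible apply Int.or | with_reducible apply Int.not | with_reducible apply Int.imp | with_reducible apply Int.iff | with_reducible apply Int.ne | with_reducible apply Int.eq | with_reducible apply Int.mem | with_reducible apply Int.subset | with_reducible apply Int.ltN | with_reducible apply Int.leN | with_reducible_and_instances apply Int.le | with_reducible_and_instances apply Int.lt | with_reducible apply Int.all | with_reducible apply Int.ex | with_reducible apply IntF.fst | with_reducible apply IntF.snd | with_reducible apply IntF.app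 | with_reducible apply IntF.inl | with_reducible apply IntF.inr | with_reducible_and_instances apply IntF.mul | with_reducible_and_instances apply IntF.inv | with_reducible_and_instances apply IntF.add | with_reducible_and_instances apply IntF.sub | with_reducible_and_instances apply IntF.neg | with_reducible_and_instances apply IntF.smul | with_reducible apply Int.fin | with_reducible apply IntF.sep | with_reducible apply IntF.lam | with_reducible apply IntF.insert | with_reducible apply IntF.singleton | with_reducible apply IntF.union | with_reducible apply IntF.iimage | with_reducible apply IntF.ite | with_reducible apply IntF.the | with_reducible apply IntF.irec | with_reducible apply IntF.succ | with_reducible apply IntF.val | with_reducible apply IntF.mk | (with_reducible refine Int.comp ?_ ?_; assumption) | (with_reducible refine Int.comp₂ ?_ ?_ ?_; assumption) | (with_reducible refine Int.comp₃ ?_ ?_ ?_ ?_; assumption) | (with_reducible refine Int.comp₄ ?_ ?_ ?_ ?_ ?_; assumption) | (with_reducible refine IntF.comp ?_ ?_; assumption) | (with_reducible refine IntF.comp₂ ?_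 ?_ ?_; assumption) | (with_reducible refine IntF.comp₃ ?_ ?_ ?_ ?_; assumption) | with_reducible apply IntF.pair))
  obtain ⟨f, hf, h1⟩ := dcI h (α := INat (Tm N) × IFun (Tm N) (INat (Tm N)) α)
    (R := fun c c' => good c' ∧ (good c → c'.1 = c.1.succ)) hR'
    (0, ⟨fun _ => y₀, IntF.const _⟩) (by
    rintro ⟨n, g⟩
    by_cases hg : good (n, g)
    · obtain ⟨b, hb⟩ := ht n
      have hI : IntF (Tm N) fun m : INat (Tm N) => if m = n then b else g m := by (repeat' (first | with_reducible exact IntF.id | with_reducible exact IntF.fst' | with_reducible exact IntF.snd' | with_reducible exact IntF.const _ | with_reducible exact Int.const _ | assumption | with_reducible apply Int.and | with_reducible apply Int.or | with_reducible apply Int.not | with_reducible apply Int.imp | with_reducible apply Int.iff | with_reducible apply Int.ne | with_reducible apply Int.eq | with_reducible apply Int.mem | with_reducible apply Int.subset | with_reducible apply Int.ltN | with_reducible apply Int.leN | with_reducible_and_instances apply Int.le | with_reducible_and_instances apply Int.lt | with_reducible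 apply Int.all | with_reducible apply Int.ex | with_reducible apply IntF.fst | with_reducible apply IntF.snd | with_reducible apply IntF.app | with_reducible apply IntF.inl | with_reducible apply IntF.inr | with_reducible_and_instances apply IntF.mul | with_reducible_and_instances apply IntF.inv | with_reducible_and_instances apply IntF.add | with_reducible_and_instances apply IntF.sub | with_reducible_and_instances apply IntF.neg | with_reducible_and_instances apply IntF.smul | with_reducible apply Int.fin | with_reducible apply IntF.sep | with_reducible apply IntF.lam | with_reducible apply IntF.insert | with_reducible apply IntF.singleton | with_reducible apply IntF.union | with_reducible apply IntF.iimage | with_reducible apply IntF.ite | with_reducible apply IntF.the | with_reducible apply IntF.irec | with_reducible apply IntF.succ | with_reducible apply IntF.val | with_reducible apply IntF.mk | (with_reducible refine Int.comp ?_ ?_; assumption) | (with_reducible refine Int.comp₂ ?_ ?_ ?_; assumption) | (with_reducible refine Int.comp₃ ?_ ?_ ?_ ?_; assumption) | (with_reducible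 refine Int.comp₄ ?_ ?_ ?_ ?_ ?_; assumption) | (with_reducible refine IntF.comp ?_ ?_; assumption) | (with_reducible refine IntF.comp₂ ?_ ?_ ?_; assumption) | (with_reducible refine IntF.comp₃ ?_ ?_ ?_ ?_; assumption) | with_reducible apply IntF.pair))
      refine ⟨(n.succ, ⟨_, hI⟩), (hgood _).2 fun m hm => ?_, fun _ => rfl⟩
      show R m (if m = n then b else g m)
      rcases INat.lt_succ_iff'.1 hm with h2 | h2
      · rw [if_neg h2.ne]
        exact (hgood _).1 hg m h2
      · rw [if_pos h2, h2]
        exact hb
    · exact ⟨(0, ⟨fun _ => y₀, IntF.const _⟩), (hgood _).2 fun m hm =>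
        absurd hm INat.not_lt_zero, fun h => absurd h hg⟩)
  have hk : Int (Tm N) fun q : INat (Tm N) × INat (Tm N) => q.1 < (f q.2.succ).1 := by (repeat' (first | with_reducible exact IntF.id | with_reducible exact IntF.fst' | with_reducible exact IntF.snd' | with_reducible exact IntF.const _ | with_reducible exact Int.const _ | assumption | with_reducible apply Int.and | with_reducible apply Int.or | with_reducible apply Int.not | with_reducible apply Int.imp | with_reducible apply Int.iff | with_reducible apply Int.ne | with_reducible apply Int.eq | with_reducible apply Int.mem | with_reducible apply Int.subset | with_reducible apply Int.ltN | with_reducible apply Int.leN | with_reducible_and_instances apply Int.le | with_reducible_and_instances apply Int.lt | with_reducible apply Int.all | with_reducible apply Int.ex | with_reducible apply IntF.fst | with_reducible apply IntF.snd | with_reducible apply IntF.app | with_reducible apply IntF.inl | with_reducible apply IntF.inr | with_reducible_and_instances apply IntF.mul | with_reducible_and_instances apply IntF.inv | with_reducible_and_instances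 apply IntF.add | with_reducible_and_instances apply IntF.sub | with_reducible_and_instances apply IntF.neg | with_reducible_and_instances apply IntF.smul | with_reducible apply Int.fin | with_reducible apply IntF.sep | with_reducible apply IntF.lam | with_reducible apply IntF.insert | with_reducible apply IntF.singleton | with_reducible apply IntF.union | with_reducible apply IntF.iimage | with_reducible apply IntF.ite | with_reducible apply IntF.the | with_reducible apply IntF.irec | with_reducible apply IntF.succ | with_reducible apply IntF.val | with_reducible apply IntF.mk | (with_reducible refine Int.comp ?_ ?_; assumption) | (with_reducible refine Int.comp₂ ?_ ?_ ?_; assumption) | (with_reducible refine Int.comp₃ ?_ ?_ ?_ ?_; assumption) | (with_reducible refine Int.comp₄ ?_ ?_ ?_ ?_ ?_; assumption) | (with_reducible refine IntF.comp ?_ ?_; assumption) | (with_reducible refine IntF.comp₂ ?_ ?_ ?_; assumption) | (with_reducible refine IntF.comp₃ ?_ ?_ ?_ ?_; assumption) | with_reducible apply IntF.pair))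
  have hkI : Int (Tm N) fun m : INat (Tm N) => ∃ k : INat (Tm N), m < (f k.succ).1 := by (repeat' (first | with_reducible exact IntF.id | with_reducible exact IntF.fst' | with_reducible exact IntF.snd' | with_reducible exact IntF.const _ | with_reducible exact Int.const _ | assumption | with_reducible apply Int.and | with_reducible apply Int.or | with_reducible apply Int.not | with_reducible apply Int.imp | with_reducible apply Int.iff | with_reducible apply Int.ne | with_reducible apply Int.eq | with_reducible apply Int.mem | with_reducible apply Int.subset | with_reducible apply Int.ltN | with_reducible apply Int.leN | with_reducible_and_instances apply Int.le | with_reducible_and_instances apply Int.lt | with_reducible apply Int.all | with_reducible apply Int.ex | with_reducible apply IntF.fst | with_reducible apply IntF.snd | with_reducible apply IntF.app | with_reducible apply IntF.inl | with_reducible apply IntF.inr | with_reducible_and_instances apply IntF.mul | with_reducible_and_instances apply IntF.inv | with_reducible_and_instances apply IntF.add | with_reducible_and_instances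 apply IntF.sub | with_reducible_and_instances apply IntF.neg | with_reducible_and_instances apply IntF.smul | with_reducible apply Int.fin | with_reducible apply IntF.sep | with_reducible apply IntF.lam | with_reducible apply IntF.insert | with_reducible apply IntF.singleton | with_reducible apply IntF.union | with_reducible apply IntF.iimage | with_reducible apply IntF.ite | with_reducible apply IntF.the | with_reducible apply IntF.irec | with_reducible apply IntF.succ | with_reducible apply IntF.val | with_reducible apply IntF.mk | (with_reducible refine Int.comp ?_ ?_; assumption) | (with_reducible refine Int.comp₂ ?_ ?_ ?_; assumption) | (with_reducible refine Int.comp₃ ?_ ?_ ?_ ?_; assumption) | (with_reducible refine Int.comp₄ ?_ ?_ ?_ ?_ ?_; assumption) | (with_reducible refine IntF.comp ?_ ?_; assumption) | (with_reducible refine IntF.comp₂ ?_ ?_ ?_; assumption) | (with_reducible refine IntF.comp₃ ?_ ?_ ?_ ?_; assumption) | with_reducible apply IntF.pair))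
  have hk' : ∀ m, ∃ k : INat (Tm N), m < (f k.succ).1 := by
    refine INat.ind (p := fun m : INat (Tm N) => ∃ k : INat (Tm N), m < (f k.succ).1) hkI ?_ ?_
    · refine ⟨(0 : INat (Tm N)).succ, ?_⟩
      rw [(h1 (0 : INat (Tm N)).succ).2 (h1 0).1]
      exact (INat.zero_le _).trans_lt (INat.lt_succ_self _)
    · rintro m ⟨k, hk⟩
      refine ⟨k.succ, ?_⟩
      rw [(h1 k.succ).2 (h1 k).1]
      exact (INat.succ_le_iff.2 hk).trans_lt (INat.lt_succ_self _)
  obtain ⟨κ, hκ, h2⟩ := exists_lf (N := Tm N) iwoNn (γ := INat (Tm N))
    (r := fun m k => m < (f k.succ).1) hk 0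
  have hI : IntF (Tm N) fun m : INat (Tm N) => (f (κ m).succ).2 m := by (repeat' (first | with_reducible exact IntF.id | with_reducible exact IntF.fst' | with_reducible exact IntF.snd' | with_reducible exact IntF.const _ | with_reducible exact Int.const _ | assumption | with_reducible apply Int.and | with_reducible apply Int.or | with_reducible apply Int.not | with_reducible apply Int.imp | with_reducible apply Int.iff | with_reducible apply Int.ne | with_reducible apply Int.eq | with_reducible apply Int.mem | with_reducible apply Int.subset | with_reducible apply Int.ltN | with_reducible apply Int.leN | with_reducible_and_instances apply Int.le | with_reducible_and_instances apply Int.lt | with_reducible apply Int.all | with_reducible apply Int.ex | with_reducible apply IntF.fst | with_reducible apply IntF.snd | with_reducible apply IntF.app | with_reducible apply IntF.inl | with_reducible apply IntF.inr | with_reducible_and_instances apply IntF.mul | with_reducible_and_instances apply IntF.inv | with_reducible_and_instances apply IntF.add | with_reducible_and_instances apply IntF.sub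 | with_reducible_and_instances apply IntF.neg | with_reducible_and_instances apply IntF.smul | with_reducible apply Int.fin | with_reducible apply IntF.sep | with_reducible apply IntF.lam | with_reducible apply IntF.insert | with_reducible apply IntF.singleton | with_reducible apply IntF.union | with_reducible apply IntF.iimage | with_reducible apply IntF.ite | with_reducible apply IntF.the | with_reducible apply IntF.irec | with_reducible apply IntF.succ | with_reducible apply IntF.val | with_reducible apply IntF.mk | (with_reducible refine Int.comp ?_ ?_; assumption) | (with_reducible refine Int.comp₂ ?_ ?_ ?_; assumption) | (with_reducible refine Int.comp₃ ?_ ?_ ?_ ?_; assumption) | (with_reducible refine Int.comp₄ ?_ ?_ ?_ ?_ ?_; assumption) | (with_reducible refine IntF.comp ?_ ?_; assumption) | (with_reducible refine IntF.comp₂ ?_ ?_ ?_; assumption) | (with_reducible refine IntF.comp₃ ?_ ?_ ?_ ?_; assumption) | with_reducible apply IntF.pair))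
  exact ⟨_, hI, fun m => (hgood _).1 (h1 (κ m)).1 m (h2 m (hk' m)).1⟩

end

end Pool.Agent.Helper672.ZFA.H158IT
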