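import Pool.Agent.H158_IT.SucN

/-!
# Sets with an injection into the pairs of natural numbers are countable
-/

set_option maxHeartbeats 2000000
set_option linter.all false
set_option synthInstance.maxSize 2000

namespace Pool.Agent.Helper672.ZFA.H158IT

open FirstOrder FirstOrder.Language
open H635 (IWO)
open Pool.Agent.H310
open Pool.Agent.Helper672.ZFA.V246
open Pool.Agent.Helper672.ZFA.H158CC (ctb_of_inj ctb_comap ctb_prod)
open Pool.Agent.Helper672.Plain (LSet)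
open Pool.Agent.H635Amen (ZF)
open Pool.Agent.H158_IT (Tm tm mem_tm zf_tm IsCtble)
open Pool.Agent.W868 (IsZF nat mem_omega_iff Dfn DfnF fs sn fs_pair sn_pair ap)
open ZFSet (pair)

section

attribute [local instance] Helper672.Plain.toL

variable {N : Set ZFSet.{0}} [hN : Fact (IsZF N)]

local instance instModelT7 : IsModel (Tm N) := Helper672.Plain.isModel_toL

theorem isCtble_omega : IsCtble N ZFSet.omega := by
  have hZ := hN.out
  have hm : ∀ a b, pair a b ∈ ZFSet.sep (fun u => fs u = sn u)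
      (ZFSet.prod ZFSet.omega ZFSet.omega) ↔ a ∈ ZFSet.omega ∧ a = b := by
    intro a b
    rw [ZFSet.mem_sep, ZFSet.pair_mem_prod, fs_pair, sn_pair]
    exact ⟨fun h => ⟨h.1.1, h.2⟩, fun h => ⟨⟨h.1, h.2 ▸ h.1⟩, h.2⟩⟩
  refine ⟨ZFSet.sep (fun u => fs u = sn u) (ZFSet.prod ZFSet.omega ZFSet.omega),
    hZ.sep_mem (Q := fun u => fs u = sn u) (Dfn.eq (hZ.fs' (DfnF.proj 0)) (hZ.sn' (DfnF.proj 0)))
      (hZ.prod_mem hZ.infinity hZ.infinity), ⟨fun u hu => (ZFSet.mem_sep.1 hu).1,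
    fun z hz => ⟨z, (hm _ _).2 ⟨hz, rfl⟩, fun y hy => ((hm _ _).1 hy).2.symm⟩⟩,
    fun a b c ha hb => ((hm _ _).1 ha).2.trans ((hm _ _).1 hb).2.symm⟩

theorem isCtble_of_pair {A : ZFSet.{0}} (hA : A ∈ N) {F1 F2 : ZFSet.{0} → ZFSet.{0}}
    (h1 : DfnF N N fun w : Fin 1 → ZFSet.{0} => F1 (w 0))
    (h2 : DfnF N N fun w : Fin 1 → ZFSet.{0} => F2 (w 0))
    (m1 : ∀ x ∈ A, F1 x ∈ ZFSet.omega) (m2 : ∀ x ∈ A, F2 x ∈ ZFSet.omega)
    (hinj : ∀ x ∈ A, ∀ y ∈ A, F1 x = F1 y → F2 x = F2 y → x = y) : IsCtble N A := by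
  have hZ := hN.out
  obtain ⟨AT, hAT⟩ : ∃ AT : Tm N, AT.1 = A := ⟨tm A hA, rfl⟩
  have hAm : ∀ x : El AT, x.1.1 ∈ A := fun x => hAT ▸ x.2
  have c : Ctb (Tm N) fun x : El (om N) => x.1.1 ∈ ZFSet.omega :=
    ctb_of_isCtble (A := om N) (fun _ h => h) hZ.infinity isCtble_omega
  obtain ⟨f1, hf1⟩ : ∃ f1 : El AT → El (om N), ∀ x, (f1 x).1.1 = F1 x.1.1 :=
    ⟨fun x => mk (F1 x.1.1) (m1 _ (hAm x)), fun _ => rfl⟩
  obtain ⟨f2, hf2⟩ : ∃ f2 : El AT → El (om N), ∀ x, (f2 x).1.1 = F2 x.1.1 :=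
    ⟨fun x => mk (F2 x.1.1) (m2 _ (hAm x)), fun _ => rfl⟩
  have hI1 : IntF (Tm N) f1 := intF_of_dfn (F := F1) h1 f1 hf1
  have hI2 : IntF (Tm N) f2 := intF_of_dfn (F := F2) h2 f2 hf2
  have hc := ctb_comap (Q := fun _ : El AT => True) (ctb_prod c c) (f := fun x => (f1 x, f2 x))
    (IntF.pair hI1 hI2) (fun a b _ _ hab => by
      have h3 := congrArg (fun q : El (om N) × El (om N) => q.1.1.1) hab
      have h4 := congrArg (fun q : El (om N) × El (om N) => q.2.1.1) hab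
      dsimp only at h3 h4
      rw [hf1, hf1] at h3
      rw [hf2, hf2] at h4
      exact Subtype.ext (Subtype.ext (hinj _ (hAm a) _ (hAm b) h3 h4)))
    (fun b _ => ⟨(f1 b).2, (f2 b).2⟩)
  refine isCtble_of_ctb (p := fun _ : El AT => True) (Int.const _) hc fun z => ?_
  constructor
  · intro hz
    exact ⟨mk z (by rw [hAT]; exact hz), trivial, rfl⟩
  · rintro ⟨a, -, rfl⟩
    exact hAm a

end

end Pool.Agent.Helper672.ZFA.H158IT
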