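import Pool.Agent.H158_IT.Gx

/-!
# Functions as sets
-/

set_option autoImplicit false
set_option linter.unreachableTactic false
set_option linter.unusedTactic false
set_option linter.unusedSectionVars false

namespace Pool.Agent.H158_IT

open Pool.Agent.W868 Pool.Agent.W868.GM Pool.Agent.Y588
open ZFSet (pair)

theorem IsFn.ap_eq {d f x y : ZFSet.{0}} (h : IsFn d f) (hy : pair x y ∈ f) : ap f x = y := by
  obtain ⟨x', hx', y', h1⟩ := h.1 _ hy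
  obtain ⟨rfl, rfl⟩ := ZFSet.pair_inj.1 h1
  obtain ⟨z, -, hu⟩ := h.2 x hx'
  have h2 : im sn (ZFSet.sep (fun q => fs q = x) f) = {y} := by
    ext z
    rw [mem_im, ZFSet.mem_singleton]
    constructor
    · rintro ⟨p, hp, rfl⟩
      obtain ⟨hp1, hp2⟩ := ZFSet.mem_sep.1 hp
      obtain ⟨a, -, b, rfl⟩ := h.1 p hp1
      rw [fs_pair] at hp2
      subst hp2
      rw [sn_pair, hu _ hp1, hu _ hy]
    · rintro rfl
      exact ⟨_, ZFSet.mem_sep.2 ⟨hy, fs_pair _ _⟩, (sn_pair _ _).symm⟩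
  rw [ap, h2, ZFSet.sUnion_singleton]

theorem IsFn.mem {d f x : ZFSet.{0}} (h : IsFn d f) (hx : x ∈ d) : pair x (ap f x) ∈ f := by
  obtain ⟨y, hy, -⟩ := h.2 x hx
  rw [h.ap_eq hy]
  exact hy

theorem IsFn.pair_iff {d f x y : ZFSet.{0}} (h : IsFn d f) :
    pair x y ∈ f ↔ x ∈ d ∧ y = ap f x := by
  constructor
  · intro h1
    obtain ⟨x', hx', y', h2⟩ := h.1 _ h1
    obtain ⟨rfl, rfl⟩ := ZFSet.pair_inj.1 h2
    exact ⟨hx', (h.ap_eq h1).symm⟩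
  · rintro ⟨h1, rfl⟩
    exact h.mem h1

theorem IsFn.mem_iff {d f u : ZFSet.{0}} (h : IsFn d f) :
    u ∈ f ↔ ∃ x ∈ d, u = pair x (ap f x) := by
  constructor
  · intro h1
    obtain ⟨x, hx, y, rfl⟩ := h.1 _ h1
    exact ⟨x, hx, by rw [h.ap_eq h1]⟩
  · rintro ⟨x, hx, rfl⟩
    exact h.mem hx

theorem IsFn.ext {d f g : ZFSet.{0}} (hf : IsFn d f) (hg : IsFn d g)
    (h : ∀ x ∈ d, ap f x = ap g x) : f = g := by
  ext u
  rw [hf.mem_iff, hg.mem_iff]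
  constructor
  · rintro ⟨x, hx, rfl⟩
    exact ⟨x, hx, by rw [h x hx]⟩
  · rintro ⟨x, hx, rfl⟩
    exact ⟨x, hx, by rw [h x hx]⟩

theorem mem_rst {f d u : ZFSet.{0}} : u ∈ rst f d ↔ u ∈ f ∧ fs u ∈ d := ZFSet.mem_sep

theorem IsFn.rst {e f d : ZFSet.{0}} (h : IsFn e f) (hd : d ⊆ e) : IsFn d (rst f d) := by
  refine ⟨fun u hu => ?_, fun x hx => ⟨ap f x, ?_, fun y hy => ?_⟩⟩
  · obtain ⟨h1, h2⟩ := mem_rst.1 hu
    obtain ⟨x, hx, y, rfl⟩ := h.1 u h1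
    rw [fs_pair] at h2
    exact ⟨x, h2, y, rfl⟩
  · exact mem_rst.2 ⟨h.mem (hd hx), by rwa [fs_pair]⟩
  · exact (h.ap_eq (mem_rst.1 hy).1).symm

theorem IsFn.ap_rst {e f d x : ZFSet.{0}} (h : IsFn e f) (hd : d ⊆ e) (hx : x ∈ d) :
    ap (H158_IT.rst f d) x = ap f x :=
  (h.rst hd).ap_eq (mem_rst.2 ⟨h.mem (hd hx), by rwa [fs_pair]⟩)

theorem rst_rst {f d e : ZFSet.{0}} (h : e ⊆ d) : rst (rst f d) e = rst f e := by
  ext u
  rw [mem_rst, mem_rst, mem_rst]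
  exact ⟨fun h1 => ⟨h1.1.1, h1.2⟩, fun h1 => ⟨⟨h1.1, h h1.2⟩, h1.2⟩⟩

theorem IsFn.rst_self {d f : ZFSet.{0}} (h : IsFn d f) : H158_IT.rst f d = f := by
  ext u
  rw [mem_rst]
  refine ⟨fun h1 => h1.1, fun h1 => ⟨h1, ?_⟩⟩
  obtain ⟨x, hx, y, rfl⟩ := h.1 u h1
  rwa [fs_pair]

/-- The function that is `r` on `b` and `p` outside of `b`. -/
noncomputable def glu (r p b : ZFSet.{0}) : ZFSet.{0} := r ∪ ZFSet.sep (fun u => fs u ∉ b) p

theorem mem_glu {r p b u : ZFSet.{0}} : u ∈ glu r p b ↔ u ∈ r ∨ u ∈ p ∧ fs u ∉ b := by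
  rw [glu, ZFSet.mem_union, ZFSet.mem_sep]

section

variable {a b r p : ZFSet.{0}} (hr : IsFn b r) (hp : IsFn a p) (hba : b ⊆ a)

include hr hp hba

theorem isFn_glu : IsFn a (glu r p b) := by
  refine ⟨fun u hu => ?_, fun x hx => ?_⟩
  · rcases mem_glu.1 hu with h | ⟨h, -⟩
    · obtain ⟨x, hx, y, rfl⟩ := hr.1 u h
      exact ⟨x, hba hx, y, rfl⟩
    · exact hp.1 u h
  · by_cases hb : x ∈ b
    · refine ⟨ap r x, mem_glu.2 (Or.inl (hr.mem hb)), fun y hy => ?_⟩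
      rcases mem_glu.1 hy with h | ⟨-, h⟩
      · exact (hr.ap_eq h).symm
      · rw [fs_pair] at h
        exact absurd hb h
    · refine ⟨ap p x, mem_glu.2 (Or.inr ⟨hp.mem hx, by rwa [fs_pair]⟩), fun y hy => ?_⟩
      rcases mem_glu.1 hy with h | ⟨h, -⟩
      · exact absurd (hr.pair_iff.1 h).1 hb
      · exact (hp.ap_eq h).symm

theorem ap_glu_left {x : ZFSet.{0}} (hx : x ∈ b) : ap (glu r p b) x = ap r x :=
  (isFn_glu hr hp hba).ap_eq (mem_glu.2 (Or.inl (hr.mem hx)))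

theorem ap_glu_right {x : ZFSet.{0}} (hx : x ∈ a) (hxb : x ∉ b) : ap (glu r p b) x = ap p x :=
  (isFn_glu hr hp hba).ap_eq (mem_glu.2 (Or.inr ⟨hp.mem hx, by rwa [fs_pair]⟩))

theorem rst_glu : rst (glu r p b) b = r := by
  refine ((isFn_glu hr hp hba).rst hba).ext hr fun x hx => ?_
  rw [(isFn_glu hr hp hba).ap_rst hba hx, ap_glu_left hr hp hba hx]

end

end Pool.Agent.H158_IT
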