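import Pool.Agent.H158_HM.Mod

/-!
# Symmetric models with a generic copy of a labelled set: sets of finite subsets
-/

set_option autoImplicit false
set_option linter.all false

namespace Pool.Agent.H158_HM

open Pool.Agent.W868 Pool.Agent.W868.GM Pool.Agent.Y588
open Pool.Agent.H158_AM (SymSys Sy HS act mem_act Sn Nm truthS frc_fix frc_mono qmem_act qeq_act
  frc_act supp_fml supp_vec mk_sn chk_sn hs_iff sn_act isZF_nm sepS coverS sub_nm nm_trans mem_dm'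
  dfn_frcS1 exists_nmS sat_nmS)
open ZFSet (pair)

section mdl

variable {X : Ix} {M : Set ZFSet.{0}} (hM : IsZF M) (hX : X.In M) {G : ZFSet.{0}}
  (hG : IsGeneric M (PP X M) (Lf (PP X M)) G)

/-- The name of a finite set of generic elements. -/
noncomputable def fsn (X : Ix) (M : Set ZFSet.{0}) (u : Finset X.ι) : ZFSet.{0} :=
  ZFSet.range fun a : {a : X.ι // a ∈ u} => pair (an X M (X.c a.1)) ∅

theorem mem_fsn {u : Finset X.ι} {z : ZFSet.{0}} : z ∈ fsn X M u ↔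
    ∃ a ∈ u, z = pair (an X M (X.c a)) ∅ := by
  rw [fsn, ZFSet.mem_range]
  constructor
  · rintro ⟨⟨a, ha⟩, rfl⟩
    exact ⟨a, ha, rfl⟩
  · rintro ⟨a, ha, rfl⟩
    exact ⟨⟨a, ha⟩, rfl⟩

/-- A finite set of generic elements. -/
noncomputable def FS (X : Ix) (M : Set ZFSet.{0}) (G : ZFSet.{0}) (u : Finset X.ι) : ZFSet.{0} :=
  ZFSet.range fun a : {a : X.ι // a ∈ u} => AA X M G a.1

theorem mem_FS {u : Finset X.ι} {z : ZFSet.{0}} : z ∈ FS X M G u ↔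
    ∃ a ∈ u, z = AA X M G a := by
  rw [FS, ZFSet.mem_range]
  constructor
  · rintro ⟨⟨a, ha⟩, rfl⟩
    exact ⟨a, ha, rfl⟩
  · rintro ⟨a, ha, rfl⟩
    exact ⟨⟨a, ha⟩, rfl⟩

include hM hX

theorem fsn_sn (u : Finset X.ι) : fsn X M u ∈ Sn M (PP X M) ac (Fl X M) := by
  classical
  have hS := symSys hM hX
  refine mk_sn hS ?_ ?_ ⟨_, (mem_Fl hM hX).2 ⟨u.image fun a => (a, 0), rfl⟩, ?_⟩
  · refine fin_mem hM ?_ ?_
    · refine ((u.finite_toSet).image fun a => pair (an X M (X.c a)) ∅).subset ?_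
      intro z hz
      obtain ⟨a, ha, rfl⟩ := mem_fsn.1 hz
      exact ⟨a, ha, rfl⟩
    · intro z hz
      obtain ⟨a, ha, rfl⟩ := mem_fsn.1 hz
      exact hM.pair_mem (an_mem hM hX a) hM.empty_mem
  · intro z hz
    obtain ⟨a, ha, rfl⟩ := mem_fsn.1 hz
    exact ⟨_, _, rfl, empty_PP hM, (an_sn hM hX a).2⟩
  · intro g hg y c hyc hc
    obtain ⟨a, ha, h1⟩ := mem_fsn.1 hyc
    obtain ⟨rfl, rfl⟩ := ZFSet.pair_inj.1 h1
    have h2 : g ∈ fx X M (Es {(a, 0)}) := by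
      obtain ⟨σ, h3, h4, h5, rfl⟩ := mem_fx.1 hg
      refine mem_fx.2 ⟨σ, h3, h4, fun j hj => h5 j ?_, rfl⟩
      rw [Finset.mem_singleton] at hj
      rw [hj]
      exact Finset.mem_image_of_mem _ ha
    rw [an_fix hM hX h2, ac_empty]
    exact hyc

theorem act_fsn {σ : Equiv.Perm (J X)} (hg : gJ σ ∈ Gr X M) (hσ : gJ σ ∈ M)
    {φ : Equiv.Perm X.ι} (hφ : ∀ j, (σ j).1 = φ j.1) (u : Finset X.ι) [DecidableEq X.ι] :
    act (PP X M) ac (gJ σ) (fsn X M u) = fsn X M (u.image φ) := by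
  ext z
  rw [mem_act, mem_fsn]
  constructor
  · rintro ⟨y, c, h1, h2, rfl⟩
    obtain ⟨a, ha, h4⟩ := mem_fsn.1 h1
    obtain ⟨rfl, rfl⟩ := ZFSet.pair_inj.1 h4
    rw [act_an hM hX hg hσ hφ, ac_empty]
    exact ⟨φ a, Finset.mem_image_of_mem _ ha, rfl⟩
  · rintro ⟨b, hb, rfl⟩
    obtain ⟨a, ha, rfl⟩ := Finset.mem_image.1 hb
    refine ⟨_, ∅, mem_fsn.2 ⟨a, ha, rfl⟩, empty_PP hM, ?_⟩
    rw [act_an hM hX hg hσ hφ, ac_empty]

include hG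

theorem ev_fsn (u : Finset X.ι) : ev G (fsn X M u) = FS X M G u := by
  ext z
  rw [mem_ev, mem_FS]
  constructor
  · rintro ⟨y, p, h1, -, rfl⟩
    obtain ⟨a, ha, h2⟩ := mem_fsn.1 h1
    obtain ⟨rfl, rfl⟩ := ZFSet.pair_inj.1 h2
    exact ⟨a, ha, rfl⟩
  · rintro ⟨a, ha, rfl⟩
    exact ⟨_, ∅, mem_fsn.2 ⟨a, ha, rfl⟩, empty_G hM hX hG, rfl⟩

theorem FS_mem (u : Finset X.ι) : FS X M G u ∈ NN X M G :=
  ⟨_, fsn_sn hM hX u, ev_fsn hM hX hG u⟩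

/-- Homogeneity for sets of finite sets. -/
theorem hom_fin [DecidableEq X.ι] {D : ZFSet.{0}} (hD : D ∈ NN X M G) :
    ∃ e : Finset X.ι, ∀ φ : Equiv.Perm X.ι, gp φ ∈ M → (∀ a, X.lb (φ a) = X.lb a) →
      (∀ a ∈ e, φ a = a) → ∀ u : Finset X.ι,
        FS X M G u ∈ D → FS X M G (u.image φ) ∈ D := by
  have hP := forcing_PP hM hX
  have hS := symSys hM hX
  obtain ⟨d, hd, rfl⟩ := hD
  obtain ⟨H, hH, h1⟩ := (hs_iff.1 hd.2).1
  obtain ⟨s, rfl⟩ := (mem_Fl hM hX).1 hH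
  refine ⟨s.image Prod.fst, fun φ hφ hl hfix u h => ?_⟩
  obtain ⟨ψ, hψ⟩ : ∃ ψ : Fml ZFSet.{0} 2, ψ = .mem (Sum.inl 0) (Sum.inl 1) := ⟨_, rfl⟩
  have hψo : ∀ S : Set ZFSet.{0}, ψ.Over S := by
    intro S
    rw [hψ]
    exact ⟨TOver.inl _, TOver.inl _⟩
  have hv : ∀ u : Finset X.ι, ∀ i, (![fsn X M u, d] : Fin 2 → ZFSet.{0}) i ∈
      Sn M (PP X M) ac (Fl X M) := by
    intro u i
    fin_cases i
    · exact fsn_sn hM hX u
    · exact hd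
  have hsat : ∀ u : Finset X.ι, (FS X M G u ∈ ev G d ↔
      ∃ p ∈ G, Frc (PP X M) (Lf (PP X M)) (Sn M (PP X M) ac (Fl X M)) ψ
        (![fsn X M u, d] : Fin 2 → ZFSet.{0}) p) := by
    intro u
    rw [← truthS hM hP hS hG ψ (hψo _) _ (hv u), hψ, ← ev_fsn hM hX hG u]
    rfl
  obtain ⟨p, hp, h2⟩ := (hsat u).1 h
  rw [hsat]
  obtain ⟨r, hr, -, h3⟩ := gen_below hM hP hG (Q := fun r =>
      Frc (PP X M) (Lf (PP X M)) (Sn M (PP X M) ac (Fl X M)) ψ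
        (![fsn X M (u.image φ), d] : Fin 2 → ZFSet.{0}) r)
    (dfn_frcS1 hM hP hS ψ (hψo _) fun i => (hv (u.image φ) i).1) hp (by
    intro q hq hqp
    have h4 := frc_mono hP (hG.sub hp) h2 hq hqp
    obtain ⟨σ, hσφ, hfx, hσM, r, hr, hrq, hrσ⟩ := exists_lift hM hX hφ hl
      (fun j hj => hfix _ (Finset.mem_image_of_mem _ hj)) hq
    have hgG : gJ σ ∈ Gr X M := (ZFSet.mem_sep.1 hfx).1
    have h5 := frc_fix hM hP hS ψ (hψo _) (hv u) hq hgG (hψo _) h4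
    have h6 : (act (PP X M) ac (gJ σ) ∘ (![fsn X M u, d] : Fin 2 → ZFSet.{0})) =
        ![fsn X M (u.image φ), d] := by
      funext i
      fin_cases i
      · exact act_fsn hM hX hgG hσM hσφ u
      · exact h1 _ hfx
    rw [h6] at h5
    exact ⟨r, hr, hrq, frc_mono hP (ac_PP hM hX hσM hq) h5 hr hrσ⟩)
  exact ⟨r, hr, h3⟩

end mdl

end Pool.Agent.H158_HM
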