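import Pool.Agent.Y588.Hom
import Pool.Agent.H158_IT.Defs

/-!
# The forcing theorem for bounded relations
-/

set_option autoImplicit false
set_option linter.unreachableTactic false
set_option linter.unusedTactic false
set_option linter.unusedSectionVars false

namespace Pool.Agent.H158_IT

open Pool.Agent.W868 Pool.Agent.W868.GM Pool.Agent.Y588
open ZFSet (pair)

section

variable {N : Set ZFSet.{0}} (hN : IsZF N) {P L : ZFSet.{0}} (hP : IsForcing N P L)

include hN hP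

/-- Bounded relations between the values of names are forced. -/
theorem ft {n : ℕ} {R : (Fin n → ZFSet.{0}) → Prop} (h : D0 R) {v : Fin n → ZFSet.{0}}
    (hv : ∀ i, v i ∈ N) {G : ZFSet.{0}} (hG : IsGeneric N P L G) (hr : R (ev G ∘ v)) :
    ∃ p ∈ G, ∀ G', IsGeneric N P L G' → p ∈ G' → R (ev G' ∘ v) := by
  obtain ⟨φ, h1⟩ := h
  have key : ∀ G', IsGeneric N P L G' → (R (ev G' ∘ v) ↔
      ∃ p ∈ G', Frc P L N (φ.map Empty.elim) v p) := by
    intro G' hG'
    rw [← h1 (ext N G') (ext_trans hN) (ev G' ∘ v) fun i => ⟨v i, hv i, rfl⟩,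
      ← sat_empty (ext N G') (ev G') φ (ev G' ∘ v),
      truth hN hP hG' _ (over_empty φ) v hv]
  obtain ⟨p, hp, h2⟩ := (key G hG).1 hr
  exact ⟨p, hp, fun G' hG' hp' => (key G' hG').2 ⟨p, hp', h2⟩⟩

/-- The forcing relation is definable, for bounded relations between values of names. -/
theorem fd (hc : N.Countable) {n m : ℕ} {R : (Fin n → ZFSet.{0}) → Prop} (h : D0 R)
    {F : Fin n → (Fin m → ZFSet.{0}) → ZFSet.{0}} (hF : ∀ i, DfnF N N (F i))
    {H : (Fin m → ZFSet.{0}) → ZFSet.{0}} (hH : DfnF N N H) :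
    Dfn N N fun w => H w ∈ P ∧ ∀ G, IsGeneric N P L G → H w ∈ G → R (ev G ∘ fun i => F i w) := by
  have hB := hN.base
  obtain ⟨φ, h1⟩ := h
  have key : ∀ w, (∀ i, w i ∈ N) → ∀ G', IsGeneric N P L G' → (R (ev G' ∘ fun i => F i w) ↔
      ∃ p ∈ G', Frc P L N (φ.map Empty.elim) (fun i => F i w) p) := by
    intro w hw G' hG'
    have hv : ∀ i, (fun i => F i w) i ∈ N := fun i => (hF i).1 w hw
    rw [← h1 (ext N G') (ext_trans hN) (ev G' ∘ fun i => F i w) fun i => ⟨F i w, hv i, rfl⟩,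
      ← sat_empty (ext N G') (ev G') φ (ev G' ∘ fun i => F i w),
      truth hN hP hG' _ (over_empty φ) (fun i => F i w) hv]
  have hd : Dfn N N fun w : Fin m → ZFSet.{0} => H w ∈ P ∧ ∀ q ∈ P, pair q (H w) ∈ L →
      ∃ r ∈ P, pair r q ∈ L ∧ Frc P L N (φ.map Empty.elim) (fun i => F i w) r := by
    refine (Dfn.mem hH (DfnF.const hP.mem)).and ?_
    refine hB.ball (Q := fun q w => pair q (H w) ∈ L →
      ∃ r ∈ P, pair r q ∈ L ∧ Frc P L N (φ.map Empty.elim) (fun i => F i w) r)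
      (DfnF.const hP.mem) ?_
    refine (Dfn.mem (hB.pair' (DfnF.proj 0) hH.tail) (DfnF.const hP.le_mem)).imp ?_
    refine hB.bex (Q := fun r w => pair r (w 0) ∈ L ∧
      Frc P L N (φ.map Empty.elim) (fun i => F i (Fin.tail w)) r) (DfnF.const hP.mem) ?_
    refine (Dfn.mem (hB.pair' (DfnF.proj 0) (DfnF.proj 1)) (DfnF.const hP.le_mem)).and ?_
    exact dfn_frc hN hP.mem hP.le_mem (φ.map Empty.elim) (over_empty φ)
      (fun i w => F i (Fin.tail (Fin.tail w))) (fun i => (hF i).tail.tail) (DfnF.proj 0)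
  refine hd.congr fun w hw => and_congr_right fun hHP => ⟨fun h2 G hG hHG => ?_, fun h2 q hq hqp => ?_⟩
  · rw [key w hw G hG]
    obtain ⟨r, hr, -, h3⟩ := gen_below hN hP hG
      (Q := fun r => Frc P L N (φ.map Empty.elim) (fun i => F i w) r)
      (dfn_frc1 hN hP.mem hP.le_mem _ (over_empty φ) fun i => (hF i).1 w hw) hHG h2
    exact ⟨r, hr, h3⟩
  · obtain ⟨G, hG, hqG⟩ := exists_gen hc hP hq
    obtain ⟨p, hp, h3⟩ := (key w hw G hG).1 (h2 G hG (hG.up _ hqG _ hHP hqp))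
    obtain ⟨r, hr, hrq, hrp⟩ := hG.dir q hqG p hp
    exact ⟨r, hG.sub hr, hrq, Frc.mono hP (hG.sub hp) h3 (hG.sub hr) hrp⟩

end

end Pool.Agent.H158_IT
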