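import Pool.Agent.H158_IT.Fn

/-!
# Finite support iterations: basic facts
-/

set_option autoImplicit false
set_option linter.unreachableTactic false
set_option linter.unusedTactic false
set_option linter.unusedSectionVars false

namespace Pool.Agent.H158_IT

open Pool.Agent.W868 Pool.Agent.W868.GM Pool.Agent.Y588
open ZFSet (pair)

section

variable {N : Set ZFSet.{0}} (hN : IsZF N) {δ P L Q R O T : ZFSet.{0}}
  (hI : IsIteration N δ P L Q R O T)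

theorem rst_mem_N (hN : IsZF N) {p β : ZFSet.{0}} (hp : p ∈ N) (hβ : β ∈ N) : rst p β ∈ N :=
  hN.sep_mem (Q := fun u => fs u ∈ β) (Dfn.mem (hN.fs' (DfnF.proj 0)) (DfnF.const hβ)) hp

include hI

theorem IsIteration.sub {α : ZFSet.{0}} (hα : α ∈ (insert δ δ : ZFSet.{0})) : α ⊆ δ := by
  rcases ZFSet.mem_insert_iff.1 hα with rfl | h
  · exact fun _ h => h
  · exact hI.ord.subset_of_mem h

theorem IsIteration.ordα {α : ZFSet.{0}} (hα : α ∈ (insert δ δ : ZFSet.{0})) : α.IsOrdinal := by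
  rcases ZFSet.mem_insert_iff.1 hα with rfl | h
  · exact hI.ord
  · exact hI.ord.mem h

theorem IsIteration.lt {α β : ZFSet.{0}} (hα : α ∈ (insert δ δ : ZFSet.{0})) (hβ : β ∈ α) :
    β ∈ δ := hI.sub hα hβ

theorem IsIteration.le {α β : ZFSet.{0}} (hα : α ∈ (insert δ δ : ZFSet.{0})) (hβ : β ∈ α) :
    β ∈ (insert δ δ : ZFSet.{0}) := ZFSet.mem_insert_iff.2 (Or.inr (hI.lt hα hβ))

theorem IsIteration.fn {α p : ZFSet.{0}} (hα : α ∈ (insert δ δ : ZFSet.{0})) (hp : p ∈ ap P α) :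
    IsFn α p := ((hI.cond α hα p).1 hp).2.1

theorem IsIteration.tm {α β p : ZFSet.{0}} (hα : α ∈ (insert δ δ : ZFSet.{0})) (hp : p ∈ ap P α)
    (hβ : β ∈ α) : ap p β ∈ ap T β := ((hI.cond α hα p).1 hp).2.2.1 β hβ

theorem IsIteration.evm {α β p G : ZFSet.{0}} (hα : α ∈ (insert δ δ : ZFSet.{0}))
    (hp : p ∈ ap P α) (hβ : β ∈ α) (hG : IsGeneric N (ap P β) (ap L β) G) :
    ev G (ap p β) ∈ ev G (ap Q β) :=
  (hI.names β (hI.lt hα hβ)).name _ (hI.tm hα hp hβ) G hG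

include hN

theorem IsIteration.memN {α : ZFSet.{0}} (hα : α ∈ (insert δ δ : ZFSet.{0})) : α ∈ N := by
  rcases ZFSet.mem_insert_iff.1 hα with rfl | h
  · exact hI.mem.1
  · exact hN.trans _ hI.mem.1 _ h

theorem IsIteration.PN {α : ZFSet.{0}} (hα : α ∈ (insert δ δ : ZFSet.{0})) : ap P α ∈ N :=
  (hN.of_pair_mem (hN.trans _ hI.mem.2.1 _ (hI.dom.1.mem hα))).2

theorem IsIteration.LN {α : ZFSet.{0}} (hα : α ∈ (insert δ δ : ZFSet.{0})) : ap L α ∈ N :=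
  (hN.of_pair_mem (hN.trans _ hI.mem.2.2.1 _ (hI.dom.2.1.mem hα))).2

theorem IsIteration.QN {α : ZFSet.{0}} (hα : α ∈ δ) : ap Q α ∈ N :=
  (hN.of_pair_mem (hN.trans _ hI.mem.2.2.2.1 _ (hI.dom.2.2.1.mem hα))).2

theorem IsIteration.RN {α : ZFSet.{0}} (hα : α ∈ δ) : ap R α ∈ N :=
  (hN.of_pair_mem (hN.trans _ hI.mem.2.2.2.2.1 _ (hI.dom.2.2.2.1.mem hα))).2

theorem IsIteration.TN {α : ZFSet.{0}} (hα : α ∈ δ) : ap T α ∈ N :=
  (hN.of_pair_mem (hN.trans _ hI.mem.2.2.2.2.2.2 _ (hI.dom.2.2.2.2.2.mem hα))).2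

theorem IsIteration.rst_mem {α β p : ZFSet.{0}} (hα : α ∈ (insert δ δ : ZFSet.{0}))
    (hβ : β ∈ (insert δ δ : ZFSet.{0})) (hβα : β ⊆ α) (hp : p ∈ ap P α) : rst p β ∈ ap P β := by
  obtain ⟨h1, h2, h3, h4⟩ := (hI.cond α hα p).1 hp
  refine (hI.cond β hβ _).2 ⟨rst_mem_N hN h1 (hI.memN hN hβ), h2.rst hβα, fun γ hγ => ?_,
    h4.subset fun γ hγ => ?_⟩
  · rw [h2.ap_rst hβα hγ]
    exact h3 γ (hβα hγ)
  · have h5 := hγ.2
    rw [h2.ap_rst hβα hγ.1] at h5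
    exact ⟨hβα hγ.1, h5⟩

theorem IsIteration.rst_le {α β p q : ZFSet.{0}} (hα : α ∈ (insert δ δ : ZFSet.{0}))
    (hβ : β ∈ (insert δ δ : ZFSet.{0})) (hβα : β ⊆ α) (h : pair q p ∈ ap L α) :
    pair (rst q β) (rst p β) ∈ ap L β := by
  obtain ⟨hq, hp, h1⟩ := (hI.order α hα p q).1 h
  refine (hI.order β hβ _ _).2 ⟨hI.rst_mem hN hα hβ hβα hq, hI.rst_mem hN hα hβ hβα hp,
    fun γ hγ G hG hG' => ?_⟩
  rw [(hI.fn hα hq).ap_rst hβα hγ, (hI.fn hα hp).ap_rst hβα hγ]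
  refine h1 γ (hβα hγ) G hG ?_
  rwa [rst_rst ((hI.ordα hβ).subset_of_mem hγ)] at hG'

theorem IsIteration.top_mem {α : ZFSet.{0}} (hα : α ∈ (insert δ δ : ZFSet.{0})) :
    rst O α ∈ ap P α := by
  have hO := hI.dom.2.2.2.2.1
  have hs := hI.sub hα
  refine (hI.cond α hα _).2 ⟨rst_mem_N hN hI.mem.2.2.2.2.2.1 (hI.memN hN hα), hO.rst hs,
    fun β hβ => ?_, ?_⟩
  · rw [hO.ap_rst hs hβ]
    exact hI.top β (hs hβ)
  · refine Set.Finite.subset Set.finite_empty fun β hβ => ?_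
    exact absurd (hO.ap_rst hs hβ.1) hβ.2

theorem IsIteration.forcing {α : ZFSet.{0}} (hα : α ∈ (insert δ δ : ZFSet.{0})) :
    IsForcing N (ap P α) (ap L α) where
  mem := hI.PN hN hα
  le_mem := hI.LN hN hα
  refl := fun p hp => (hI.order α hα p p).2 ⟨hp, hp, fun β hβ G hG _ =>
    (hI.pre β (hI.lt hα hβ) G hG).refl _ (hI.evm hα hp hβ hG)⟩
  trans := fun p hp q hq r hr hrq hqp => (hI.order α hα p r).2 ⟨hr, hp, fun β hβ G hG hrG => by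
    have h1 := ((hI.order α hα q r).1 hrq).2.2 β hβ G hG hrG
    have hβ' := hI.le hα hβ
    have hs := (hI.ordα hα).subset_of_mem hβ
    have h2 := ((hI.order α hα p q).1 hqp).2.2 β hβ G hG (hG.up _ hrG _
      (hI.rst_mem hN hα hβ' hs hq) (hI.rst_le hN hα hβ' hs hrq))
    exact (hI.pre β (hI.lt hα hβ) G hG).trans _ (hI.evm hα hr hβ hG) _ (hI.evm hα hq hβ hG) _
      (hI.evm hα hp hβ hG) h1 h2⟩
  top := ⟨rst O α, hI.top_mem hN hα, fun p hp => (hI.order α hα _ _).2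
    ⟨hp, hI.top_mem hN hα, fun β hβ G hG _ => by
      rw [hI.dom.2.2.2.2.1.ap_rst (hI.sub hα) hβ]
      exact (hI.pre β (hI.lt hα hβ) G hG).le_top _ (hI.evm hα hp hβ hG)⟩⟩

theorem IsIteration.glu_mem {α β r p : ZFSet.{0}} (hα : α ∈ (insert δ δ : ZFSet.{0}))
    (hβ : β ∈ (insert δ δ : ZFSet.{0})) (hβα : β ⊆ α) (hr : r ∈ ap P β) (hp : p ∈ ap P α) :
    glu r p β ∈ ap P α := by
  obtain ⟨r1, r2, r3, r4⟩ := (hI.cond β hβ r).1 hr
  obtain ⟨p1, p2, p3, p4⟩ := (hI.cond α hα p).1 hp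
  have hβN := hI.memN hN hβ
  have hB := hN.base
  refine (hI.cond α hα _).2 ⟨?_, isFn_glu r2 p2 hβα, fun γ hγ => ?_,
    (r4.union p4).subset fun γ hγ => ?_⟩
  · exact hN.union_mem r1 (hN.sep_mem (Q := fun u => fs u ∉ β)
      (Dfn.mem (hN.fs' (DfnF.proj 0)) (DfnF.const hβN)).not p1)
  · by_cases h : γ ∈ β
    · rw [ap_glu_left r2 p2 hβα h]
      exact r3 γ h
    · rw [ap_glu_right r2 p2 hβα hγ h]
      exact p3 γ hγ
  · by_cases h : γ ∈ β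
    · have h5 := hγ.2
      rw [ap_glu_left r2 p2 hβα h] at h5
      exact Or.inl ⟨h, h5⟩
    · have h5 := hγ.2
      rw [ap_glu_right r2 p2 hβα hγ.1 h] at h5
      exact Or.inr ⟨hγ.1, h5⟩

/-- Comparison of conditions: below `β` by the restrictions, and above `β` by the values. -/
theorem IsIteration.le_of {α β p q : ZFSet.{0}} (hα : α ∈ (insert δ δ : ZFSet.{0}))
    (hβ : β ∈ (insert δ δ : ZFSet.{0})) (hβα : β ⊆ α) (hq : q ∈ ap P α) (hp : p ∈ ap P α)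
    (h : pair (rst q β) (rst p β) ∈ ap L β)
    (h' : ∀ γ ∈ α, γ ∉ β → ap q γ = ap p γ ∨ ap p γ = ap O γ) : pair q p ∈ ap L α := by
  refine (hI.order α hα _ _).2 ⟨hq, hp, fun γ hγ G hG hG' => ?_⟩
  by_cases hγβ : γ ∈ β
  · have h1 := ((hI.order β hβ _ _).1 h).2.2 γ hγβ G hG (by
      rwa [rst_rst ((hI.ordα hβ).subset_of_mem hγβ)])
    rwa [(hI.fn hα hq).ap_rst hβα hγβ, (hI.fn hα hp).ap_rst hβα hγβ] at h1
  · have h2 := hI.pre γ (hI.lt hα hγ) G hG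
    rcases h' γ hγ hγβ with h1 | h1
    · rw [h1]
      exact h2.refl _ (hI.evm hα hp hγ hG)
    · rw [h1]
      exact h2.le_top _ (hI.evm hα hq hγ hG)

end

end Pool.Agent.H158_IT
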