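import Pool.Agent.H158_IT.Suc

/-!
# The limit step of the iteration theorem, internally
-/

set_option maxHeartbeats 2000000
set_option linter.all false
set_option synthInstance.maxSize 2000

namespace Pool.Agent.Helper672.ZFA.H158IT

open FirstOrder FirstOrder.Language
open H635 (IWO)
open Pool.Agent.H310
open Pool.Agent.H310Cards (App IsOmega IsNat IsInductive)
open Pool.Agent.Helper672.ZFA.V246
open Pool.Agent.Helper672.ZFA.H158CC (ctb_of_inj ctb_comap ctb_prod)
open Pool.Agent.Helper672.Plain (LSet)
open Pool.Agent.H635Amen (ZF)
open Pool.Agent.H158_IT (Tm tm mem_tm zf_tm IsCtble DC)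
open Pool.Agent.W868 (IsZF nat mem_omega_iff)
open ZFSet (pair)

section

attribute [local instance] Helper672.Plain.toL

variable {N : Set ZFSet.{0}} [hN : Fact (IsZF N)]

local instance instModelT3 : IsModel (Tm N) := Helper672.Plain.isModel_toL

variable {P K : Type 1} [ITy (Tm N) P] [ITy (Tm N) K] {le : P → P → Prop}

theorem lim_ccc (h : DC N) (hle : Int (Tm N) fun q : P × P => le q.1 q.2)
    (hrefl : ∀ p, le p p) (htrans : ∀ p q r, le p q → le q r → le p r)
    {lt : K → K → Prop} (hK : IWO (Tm N) K lt) (hnm : ∀ a, ∃ b, lt a b) (k₁ : K) (p₁ : P)
    {ρ : K → P → P} (hρ : IntF (Tm N) fun q : K × P => ρ q.1 q.2)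
    (hρle : ∀ k p, le p (ρ k p)) (hmono : ∀ k p q, le p q → le (ρ k p) (ρ k q))
    (hρρ : ∀ k l p, lt k l ∨ k = l → ρ k (ρ l p) = ρ k p ∧ ρ l (ρ k p) = ρ k p)
    (ham : ∀ k r p, ρ k r = r → le r (ρ k p) → ∃ s, le s r ∧ le s p)
    (hsup : ∀ p, ∃ k, ρ k p = p)
    (hlim : ∀ p γ, (∃ x, lt x γ) → (∀ x, lt x γ → ∃ y, lt x y ∧ lt y γ) →
      ∃ l, lt l γ ∧ ρ γ p = ρ l p)
    (hc : ∀ k, ∀ D : P → Prop, Int (Tm N) D →
      (∀ p, ∃ d, D d ∧ ∃ r, le r (ρ k p) ∧ le r (ρ k d)) →
      ∃ C : P → Prop, Int (Tm N) C ∧ (∀ c, C c → ∃ d, D d ∧ ρ k d = c) ∧ Ctb (Tm N) C ∧
        ∀ p, ∃ c, C c ∧ ∃ r, le r (ρ k p) ∧ le r c)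
    {D : P → Prop} (hD : Int (Tm N) D) (hpd : ∀ p, ∃ d, D d ∧ ∃ r, le r p ∧ le r d) :
    ∃ C : P → Prop, Int (Tm N) C ∧ (∀ p, C p → D p) ∧ Ctb (Tm N) C ∧
      ∀ p, ∃ d, C d ∧ ∃ r, le r p ∧ le r d := by
  have hlt := hK.int
  obtain ⟨d₀, hd₀, -⟩ := hpd p₁
  -- the countable sets for the initial segments
  obtain ⟨Z, hZ⟩ : ∃ Z : K → IFun (Tm N) (INat (Tm N)) P → Prop, ∀ k g, Z k g ↔
      (∀ n, D (g n)) ∧ ∀ p, ∃ n r, le r (ρ k p) ∧ le r (ρ k (g n)) ∧ ρ k r = r :=
    ⟨_, fun _ _ => Iff.rfl⟩
  have hZI : Int (Tm N) fun c : K × IFun (Tm N) (INat (Tm N)) P => Z c.1 c.2 := by
    refine Int.congr (p := fun c : K × IFun (Tm N) (INat (Tm N)) P =>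
      (∀ n, D (c.2 n)) ∧ ∀ p, ∃ n r, le r (ρ c.1 p) ∧ le r (ρ c.1 (c.2 n)) ∧ ρ c.1 r = r) ?_
      fun c => (hZ _ _).symm
    (repeat' (first | with_reducible exact IntF.id | with_reducible exact IntF.fst' | with_reducible exact IntF.snd' | with_reducible exact IntF.const _ | with_reducible exact Int.const _ | assumption | with_reducible apply Int.and | with_reducible apply Int.or | with_reducible apply Int.not | with_reducible apply Int.imp | with_reducible apply Int.iff | with_reducible apply Int.ne | with_reducible apply Int.eq | with_reducible apply Int.mem | with_reducible apply Int.subset | with_reducible apply Int.ltN | with_reducible apply Int.leN | with_reducible_and_instances apply Int.le | with_reducible_and_instances apply Int.lt | with_reducible apply Int.all | with_reducible apply Int.ex | with_reducible apply IntF.fst | with_reducible apply IntF.snd | with_reducible apply IntF.app | with_reducible apply IntF.inl | with_reducible apply IntF.inr | with_reducible_and_instances apply IntF.mul | with_reducible_and_instances apply IntF.inv | with_reducible_and_instances apply IntF.add | with_reducible_and_instances apply IntF.sub | with_reducible_and_instances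 apply IntF.neg | with_reducible_and_instances apply IntF.smul | with_reducible apply Int.fin | with_reducible apply IntF.sep | with_reducible apply IntF.lam | with_reducible apply IntF.insert | with_reducible apply IntF.singleton | with_reducible apply IntF.union | with_reducible apply IntF.iimage | with_reducible apply IntF.ite | with_reducible apply IntF.the | with_reducible apply IntF.irec | with_reducible apply IntF.succ | with_reducible apply IntF.val | with_reducible apply IntF.mk | (with_reducible refine Int.comp ?_ ?_; assumption) | (with_reducible refine Int.comp₂ ?_ ?_ ?_; assumption) | (with_reducible refine Int.comp₃ ?_ ?_ ?_ ?_; assumption) | (with_reducible refine Int.comp₄ ?_ ?_ ?_ ?_ ?_; assumption) | (with_reducible refine IntF.comp ?_ ?_; assumption) | (with_reducible refine IntF.comp₂ ?_ ?_ ?_; assumption) | (with_reducible refine IntF.comp₃ ?_ ?_ ?_ ?_; assumption) | with_reducible apply IntF.pair))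
  have hZne : ∀ k, ∃ g, Z k g := by
    intro k
    obtain ⟨C, hC, h1, h2, h3⟩ := hc k D hD (by
      intro p
      obtain ⟨d, hd, r, h1, h2⟩ := hpd (ρ k p)
      exact ⟨d, hd, r, h1, htrans _ _ _ h2 (hρle _ _)⟩)
    obtain ⟨e, he, h4⟩ := h2
    have hR : Int (Tm N) fun q : INat (Tm N) × P =>
        D q.2 ∧ ∀ c, C c → e c = q.1 → ρ k q.2 = c := by (repeat' (first | with_reducible exact IntF.id | with_reducible exact IntF.fst' | with_reducible exact IntF.snd' | with_reducible exact IntF.const _ | with_reducible exact Int.const _ | assumption | with_reducible apply Int.and | with_reducible apply Int.or | with_reducible apply Int.not | with_reducible apply Int.imp | with_reducible apply Int.iff | with_reducible apply Int.ne | with_reducible apply Int.eq | with_reducible apply Int.mem | with_reducible apply Int.subset | with_reducible apply Int.ltN | with_reducible apply Int.leN | with_reducible_and_instances apply Int.le | with_reducible_and_instances apply Int.lt | with_reducible apply Int.all | with_reducible apply Int.ex | with_reducible apply IntF.fst | with_reducible apply IntF.snd | with_reducible apply IntF.app | with_reducible apply IntF.inl | with_reducible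 apply IntF.inr | with_reducible_and_instances apply IntF.mul | with_reducible_and_instances apply IntF.inv | with_reducible_and_instances apply IntF.add | with_reducible_and_instances apply IntF.sub | with_reducible_and_instances apply IntF.neg | with_reducible_and_instances apply IntF.smul | with_reducible apply Int.fin | with_reducible apply IntF.sep | with_reducible apply IntF.lam | with_reducible apply IntF.insert | with_reducible apply IntF.singleton | with_reducible apply IntF.union | with_reducible apply IntF.iimage | with_reducible apply IntF.ite | with_reducible apply IntF.the | with_reducible apply IntF.irec | with_reducible apply IntF.succ | with_reducible apply IntF.val | with_reducible apply IntF.mk | (with_reducible refine Int.comp ?_ ?_; assumption) | (with_reducible refine Int.comp₂ ?_ ?_ ?_; assumption) | (with_reducible refine Int.comp₃ ?_ ?_ ?_ ?_; assumption) | (with_reducible refine Int.comp₄ ?_ ?_ ?_ ?_ ?_; assumption) | (with_reducible refine IntF.comp ?_ ?_; assumption) | (with_reducible refine IntF.comp₂ ?_ ?_ ?_; assumption) | (with_reducible refine IntF.comp₃ ?_ ?_ ?_ ?_; assumption) | with_reducible apply IntF.pair))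
    obtain ⟨g, hg, h5⟩ := ccI h (R := fun n d => D d ∧ ∀ c, C c → e c = n → ρ k d = c) hR (by
      intro n
      by_cases h5 : ∃ c, C c ∧ e c = n
      · obtain ⟨c, hc, rfl⟩ := h5
        obtain ⟨d, hd, h6⟩ := h1 c hc
        exact ⟨d, hd, fun c' hc' h7 => by rw [h6, h4 c' c hc' hc h7]⟩
      · exact ⟨d₀, hd₀, fun c hc h6 => absurd ⟨c, hc, h6⟩ h5⟩)
    refine ⟨⟨g, hg⟩, (hZ _ _).2 ⟨fun n => (h5 n).1, fun p => ?_⟩⟩
    obtain ⟨c, hc, r, h6, h7⟩ := h3 p
    have h8 : ρ k (g (e c)) = c := (h5 (e c)).2 c hc rfl
    refine ⟨e c, ρ k r, ?_, ?_, (hρρ k k r (Or.inr rfl)).1⟩
    · have h9 := hmono k _ _ h6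
      rw [(hρρ k k p (Or.inr rfl)).1] at h9
      exact h9
    · have h9 := hmono k _ _ h7
      rw [← h8, (hρρ k k _ (Or.inr rfl)).1] at h9
      exact h9
  by_cases hcof : ∃ f : INat (Tm N) → K, IntF (Tm N) f ∧ ∀ k, ∃ n, lt k (f n) ∨ k = f n
  · -- countable cofinality
    obtain ⟨f, hf, hfc⟩ := hcof
    have hR : Int (Tm N) fun q : INat (Tm N) × IFun (Tm N) (INat (Tm N)) P => Z (f q.1) q.2 := by
      (repeat' (first | with_reducible exact IntF.id | with_reducible exact IntF.fst' | with_reducible exact IntF.snd' | with_reducible exact IntF.const _ | with_reducible exact Int.const _ | assumption | with_reducible apply Int.and | with_reducible apply Int.or | with_reducible apply Int.not | with_reducible apply Int.imp | with_reducible apply Int.iff | with_reducible apply Int.ne | with_reducible apply Int.eq | with_reducible apply Int.mem | with_reducible apply Int.subset | with_reducible apply Int.ltN | with_reducible apply Int.leN | with_reducible_and_instances apply Int.le | with_reducible_and_instances apply Int.lt | with_reducible apply Int.all | with_reducible apply Int.ex | with_reducible apply IntF.fst | with_reducible apply IntF.snd | with_reducible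 apply IntF.app | with_reducible apply IntF.inl | with_reducible apply IntF.inr | with_reducible_and_instances apply IntF.mul | with_reducible_and_instances apply IntF.inv | with_reducible_and_instances apply IntF.add | with_reducible_and_instances apply IntF.sub | with_reducible_and_instances apply IntF.neg | with_reducible_and_instances apply IntF.smul | with_reducible apply Int.fin | with_reducible apply IntF.sep | with_reducible apply IntF.lam | with_reducible apply IntF.insert | with_reducible apply IntF.singleton | with_reducible apply IntF.union | with_reducible apply IntF.iimage | with_reducible apply IntF.ite | with_reducible apply IntF.the | with_reducible apply IntF.irec | with_reducible apply IntF.succ | with_reducible apply IntF.val | with_reducible apply IntF.mk | (with_reducible refine Int.comp ?_ ?_; assumption) | (with_reducible refine Int.comp₂ ?_ ?_ ?_; assumption) | (with_reducible refine Int.comp₃ ?_ ?_ ?_ ?_; assumption) | (with_reducible refine Int.comp₄ ?_ ?_ ?_ ?_ ?_; assumption) | (with_reducible refine IntF.comp ?_ ?_; assumption) | (with_reducible refine IntF.comp₂ ?_ ?_ ?_; assumption) | (with_reducible refine IntF.comp₃ ?_ ?_ ?_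 ?_; assumption) | with_reducible apply IntF.pair))
    obtain ⟨G, hG, h1⟩ := ccI h (R := fun n g => Z (f n) g) hR fun n => hZne _
    have hI : IntF (Tm N) fun q : INat (Tm N) × INat (Tm N) => G q.1 q.2 := by (repeat' (first | with_reducible exact IntF.id | with_reducible exact IntF.fst' | with_reducible exact IntF.snd' | with_reducible exact IntF.const _ | with_reducible exact Int.const _ | assumption | with_reducible apply Int.and | with_reducible apply Int.or | with_reducible apply Int.not | with_reducible apply Int.imp | with_reducible apply Int.iff | with_reducible apply Int.ne | with_reducible apply Int.eq | with_reducible apply Int.mem | with_reducible apply Int.subset | with_reducible apply Int.ltN | with_reducible apply Int.leN | with_reducible_and_instances apply Int.le | with_reducible_and_instances apply Int.lt | with_reducible apply Int.all | with_reducible apply Int.ex | with_reducible apply IntF.fst | with_reducible apply IntF.snd | with_reducible apply IntF.app | with_reducible apply IntF.inl | with_reducible apply IntF.inr | with_reducible_and_instances apply IntF.mul | with_reducible_and_instances apply IntF.inv | with_reducible_and_instances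 apply IntF.add | with_reducible_and_instances apply IntF.sub | with_reducible_and_instances apply IntF.neg | with_reducible_and_instances apply IntF.smul | with_reducible apply Int.fin | with_reducible apply IntF.sep | with_reducible apply IntF.lam | with_reducible apply IntF.insert | with_reducible apply IntF.singleton | with_reducible apply IntF.union | with_reducible apply IntF.iimage | with_reducible apply IntF.ite | with_reducible apply IntF.the | with_reducible apply IntF.irec | with_reducible apply IntF.succ | with_reducible apply IntF.val | with_reducible apply IntF.mk | (with_reducible refine Int.comp ?_ ?_; assumption) | (with_reducible refine Int.comp₂ ?_ ?_ ?_; assumption) | (with_reducible refine Int.comp₃ ?_ ?_ ?_ ?_; assumption) | (with_reducible refine Int.comp₄ ?_ ?_ ?_ ?_ ?_; assumption) | (with_reducible refine IntF.comp ?_ ?_; assumption) | (with_reducible refine IntF.comp₂ ?_ ?_ ?_; assumption) | (with_reducible refine IntF.comp₃ ?_ ?_ ?_ ?_; assumption) | with_reducible apply IntF.pair))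
    have hCI : Int (Tm N) fun d : P => ∃ q : INat (Tm N) × INat (Tm N), (True ∧ True) ∧
      G q.1 q.2 = d := by (repeat' (first | with_reducible exact IntF.id | with_reducible exact IntF.fst' | with_reducible exact IntF.snd' | with_reducible exact IntF.const _ | with_reducible exact Int.const _ | assumption | with_reducible apply Int.and | with_reducible apply Int.or | with_reducible apply Int.not | with_reducible apply Int.imp | with_reducible apply Int.iff | with_reducible apply Int.ne | with_reducible apply Int.eq | with_reducible apply Int.mem | with_reducible apply Int.subset | with_reducible apply Int.ltN | with_reducible apply Int.leN | with_reducible_and_instances apply Int.le | with_reducible_and_instances apply Int.lt | with_reducible apply Int.all | with_reducible apply Int.ex | with_reducible apply IntF.fst | with_reducible apply IntF.snd | with_reducible apply IntF.app | with_reducible apply IntF.inl | with_reducible apply IntF.inr | with_reducible_and_instances apply IntF.mul | with_reducible_and_instances apply IntF.inv | with_reducible_and_instances apply IntF.add | with_reducible_and_instances apply IntF.sub | with_reducible_and_instances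 apply IntF.neg | with_reducible_and_instances apply IntF.smul | with_reducible apply Int.fin | with_reducible apply IntF.sep | with_reducible apply IntF.lam | with_reducible apply IntF.insert | with_reducible apply IntF.singleton | with_reducible apply IntF.union | with_reducible apply IntF.iimage | with_reducible apply IntF.ite | with_reducible apply IntF.the | with_reducible apply IntF.irec | with_reducible apply IntF.succ | with_reducible apply IntF.val | with_reducible apply IntF.mk | (with_reducible refine Int.comp ?_ ?_; assumption) | (with_reducible refine Int.comp₂ ?_ ?_ ?_; assumption) | (with_reducible refine Int.comp₃ ?_ ?_ ?_ ?_; assumption) | (with_reducible refine Int.comp₄ ?_ ?_ ?_ ?_ ?_; assumption) | (with_reducible refine IntF.comp ?_ ?_; assumption) | (with_reducible refine IntF.comp₂ ?_ ?_ ?_; assumption) | (with_reducible refine IntF.comp₃ ?_ ?_ ?_ ?_; assumption) | with_reducible apply IntF.pair))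
    refine ⟨_, hCI, ?_, (ctb_prod Ctb.nat Ctb.nat).image (Int.const _) hI, fun p => ?_⟩
    · rintro _ ⟨q, -, rfl⟩
      exact ((hZ _ _).1 (h1 q.1)).1 _
    · obtain ⟨k, hk⟩ := hsup p
      obtain ⟨n, hn⟩ := hfc k
      have h2 : ρ (f n) p = p := by
        have h3 := (hρρ k (f n) p hn).2
        rw [hk] at h3
        exact h3
      obtain ⟨m, r, h3, h4, h5⟩ := ((hZ _ _).1 (h1 n)).2 p
      rw [h2] at h3
      obtain ⟨s, hs, hs'⟩ := ham _ _ _ h5 h4
      exact ⟨_, ⟨(n, m), ⟨trivial, trivial⟩, rfl⟩, s, htrans _ _ _ hs h3, hs'⟩
  · -- uncountable cofinality
    have hbd : ∀ f : INat (Tm N) → K, IntF (Tm N) f → ∃ k, ∀ n, lt (f n) k := by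
      intro f hf
      by_contra hcon
      refine hcof ⟨f, hf, fun k => ?_⟩
      by_contra h1
      refine hcon ⟨k, fun n => ?_⟩
      rcases hK.tri (f n) k with h2 | h2 | h2
      · exact h2
      · exact absurd ⟨n, Or.inr h2.symm⟩ h1
      · exact absurd ⟨n, Or.inl h2⟩ h1
    have hR : Int (Tm N) fun q : (K × IFun (Tm N) (INat (Tm N)) P) ×
        (K × IFun (Tm N) (INat (Tm N)) P) => Z q.2.1 q.2.2 ∧ lt q.1.1 q.2.1 ∧
        ∀ n, ρ q.2.1 (q.1.2 n) = q.1.2 n := by (repeat' (first | with_reducible exact IntF.id | with_reducible exact IntF.fst' | with_reducible exact IntF.snd' | with_reducible exact IntF.const _ | with_reducible exact Int.const _ | assumption | with_reducible apply Int.and | with_reducible apply Int.or | with_reducible apply Int.not | with_reducible apply Int.imp | with_reducible apply Int.iff | with_reducible apply Int.ne | with_reducible apply Int.eq | with_reducible apply Int.mem | with_reducible apply Int.subset | with_reducible apply Int.ltN | with_reducible apply Int.leN | with_reducible_and_instances apply Int.le | with_reducible_and_instances apply Int.lt | with_reducible apply Int.all | with_reducible apply Int.ex | with_reducible apply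 IntF.fst | with_reducible apply IntF.snd | with_reducible apply IntF.app | with_reducible apply IntF.inl | with_reducible apply IntF.inr | with_reducible_and_instances apply IntF.mul | with_reducible_and_instances apply IntF.inv | with_reducible_and_instances apply IntF.add | with_reducible_and_instances apply IntF.sub | with_reducible_and_instances apply IntF.neg | with_reducible_and_instances apply IntF.smul | with_reducible apply Int.fin | with_reducible apply IntF.sep | with_reducible apply IntF.lam | with_reducible apply IntF.insert | with_reducible apply IntF.singleton | with_reducible apply IntF.union | with_reducible apply IntF.iimage | with_reducible apply IntF.ite | with_reducible apply IntF.the | with_reducible apply IntF.irec | with_reducible apply IntF.succ | with_reducible apply IntF.val | with_reducible apply IntF.mk | (with_reducible refine Int.comp ?_ ?_; assumption) | (with_reducible refine Int.comp₂ ?_ ?_ ?_; assumption) | (with_reducible refine Int.comp₃ ?_ ?_ ?_ ?_; assumption) | (with_reducible refine Int.comp₄ ?_ ?_ ?_ ?_ ?_; assumption) | (with_reducible refine IntF.comp ?_ ?_; assumption) | (with_reducible refine IntF.comp₂ ?_ ?_ ?_;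 assumption) | (with_reducible refine IntF.comp₃ ?_ ?_ ?_ ?_; assumption) | with_reducible apply IntF.pair))
    obtain ⟨f, hf, h1⟩ := dcI h (α := K × IFun (Tm N) (INat (Tm N)) P) (R := fun c c' =>
        Z c'.1 c'.2 ∧ lt c.1 c'.1 ∧ ∀ n, ρ c'.1 (c.2 n) = c.2 n) hR
        (k₁, ⟨fun _ => p₁, IntF.const _⟩) (by
      rintro ⟨k, g⟩
      have hI : Int (Tm N) fun q : INat (Tm N) × K => ρ q.2 (g q.1) = g q.1 := by (repeat' (first | with_reducible exact IntF.id | with_reducible exact IntF.fst' | with_reducible exact IntF.snd' | with_reducible exact IntF.const _ | with_reducible exact Int.const _ | assumption | with_reducible apply Int.and | with_reducible apply Int.or | with_reducible apply Int.not | with_reducible apply Int.imp | with_reducible apply Int.iff | with_reducible apply Int.ne | with_reducible apply Int.eq | with_reducible apply Int.mem | with_reducible apply Int.subset | with_reducible apply Int.ltN | with_reducible apply Int.leN | with_reducible_and_instances apply Int.le | with_reducible_and_instances apply Int.lt | with_reducible apply Int.all | with_reducible apply Int.ex | with_reducible apply IntF.fst | with_reducible apply IntF.snd | with_reducible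 apply IntF.app | with_reducible apply IntF.inl | with_reducible apply IntF.inr | with_reducible_and_instances apply IntF.mul | with_reducible_and_instances apply IntF.inv | with_reducible_and_instances apply IntF.add | with_reducible_and_instances apply IntF.sub | with_reducible_and_instances apply IntF.neg | with_reducible_and_instances apply IntF.smul | with_reducible apply Int.fin | with_reducible apply IntF.sep | with_reducible apply IntF.lam | with_reducible apply IntF.insert | with_reducible apply IntF.singleton | with_reducible apply IntF.union | with_reducible apply IntF.iimage | with_reducible apply IntF.ite | with_reducible apply IntF.the | with_reducible apply IntF.irec | with_reducible apply IntF.succ | with_reducible apply IntF.val | with_reducible apply IntF.mk | (with_reducible refine Int.comp ?_ ?_; assumption) | (with_reducible refine Int.comp₂ ?_ ?_ ?_; assumption) | (with_reducible refine Int.comp₃ ?_ ?_ ?_ ?_; assumption) | (with_reducible refine Int.comp₄ ?_ ?_ ?_ ?_ ?_; assumption) | (with_reducible refine IntF.comp ?_ ?_; assumption) | (with_reducible refine IntF.comp₂ ?_ ?_ ?_; assumption) | (with_reducible refine IntF.comp₃ ?_ ?_ ?_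 ?_; assumption) | with_reducible apply IntF.pair))
      obtain ⟨κ, hκ, h1⟩ := exists_lf hK (γ := INat (Tm N)) (r := fun n l => ρ l (g n) = g n)
        hI k₁
      obtain ⟨b, hb⟩ := hbd κ hκ
      obtain ⟨k', h2, h3⟩ : ∃ k', lt k k' ∧ lt b k' := by
        rcases hK.tri k b with h2 | h2 | h2
        · obtain ⟨k', hk'⟩ := hnm b
          exact ⟨k', iwo_trans hK h2 hk', hk'⟩
        · obtain ⟨k', hk'⟩ := hnm b
          exact ⟨k', h2 ▸ hk', hk'⟩
        · obtain ⟨k', hk'⟩ := hnm k
          exact ⟨k', hk', iwo_trans hK h2 hk'⟩
      obtain ⟨g', hg'⟩ := hZne k'
      refine ⟨(k', g'), hg', h2, fun n => ?_⟩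
      have h4 := (h1 n (hsup _)).1
      have h5 := (hρρ (κ n) k' (g n) (Or.inl (iwo_trans hK (hb n) h3))).2
      rw [h4] at h5
      exact h5)
    have hkI : IntF (Tm N) fun n : INat (Tm N) => (f n.succ).1 := by (repeat' (first | with_reducible exact IntF.id | with_reducible exact IntF.fst' | with_reducible exact IntF.snd' | with_reducible exact IntF.const _ | with_reducible exact Int.const _ | assumption | with_reducible apply Int.and | with_reducible apply Int.or | with_reducible apply Int.not | with_reducible apply Int.imp | with_reducible apply Int.iff | with_reducible apply Int.ne | with_reducible apply Int.eq | with_reducible apply Int.mem | with_reducible apply Int.subset | with_reducible apply Int.ltN | with_reducible apply Int.leN | with_reducible_and_instances apply Int.le | with_reducible_and_instances apply Int.lt | with_reducible apply Int.all | with_reducible apply Int.ex | with_reducible apply IntF.fst | with_reducible apply IntF.snd | with_reducible apply IntF.app | with_reducible apply IntF.inl | with_reducible apply IntF.inr | with_reducible_and_instances apply IntF.mul | with_reducible_and_instances apply IntF.inv | with_reducible_and_instances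 apply IntF.add | with_reducible_and_instances apply IntF.sub | with_reducible_and_instances apply IntF.neg | with_reducible_and_instances apply IntF.smul | with_reducible apply Int.fin | with_reducible apply IntF.sep | with_reducible apply IntF.lam | with_reducible apply IntF.insert | with_reducible apply IntF.singleton | with_reducible apply IntF.union | with_reducible apply IntF.iimage | with_reducible apply IntF.ite | with_reducible apply IntF.the | with_reducible apply IntF.irec | with_reducible apply IntF.succ | with_reducible apply IntF.val | with_reducible apply IntF.mk | (with_reducible refine Int.comp ?_ ?_; assumption) | (with_reducible refine Int.comp₂ ?_ ?_ ?_; assumption) | (with_reducible refine Int.comp₃ ?_ ?_ ?_ ?_; assumption) | (with_reducible refine Int.comp₄ ?_ ?_ ?_ ?_ ?_; assumption) | (with_reducible refine IntF.comp ?_ ?_; assumption) | (with_reducible refine IntF.comp₂ ?_ ?_ ?_; assumption) | (with_reducible refine IntF.comp₃ ?_ ?_ ?_ ?_; assumption) | with_reducible apply IntF.pair))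
    have hγI : Int (Tm N) fun γ : K => ∀ n : INat (Tm N), lt (f n.succ).1 γ := by (repeat' (first | with_reducible exact IntF.id | with_reducible exact IntF.fst' | with_reducible exact IntF.snd' | with_reducible exact IntF.const _ | with_reducible exact Int.const _ | assumption | with_reducible apply Int.and | with_reducible apply Int.or | with_reducible apply Int.not | with_reducible apply Int.imp | with_reducible apply Int.iff | with_reducible apply Int.ne | with_reducible apply Int.eq | with_reducible apply Int.mem | with_reducible apply Int.subset | with_reducible apply Int.ltN | with_reducible apply Int.leN | with_reducible_and_instances apply Int.le | with_reducible_and_instances apply Int.lt | with_reducible apply Int.all | with_reducible apply Int.ex | with_reducible apply IntF.fst | with_reducible apply IntF.snd | with_reducible apply IntF.app | with_reducible apply IntF.inl | with_reducible apply IntF.inr | with_reducible_and_instances apply IntF.mul | with_reducible_and_instances apply IntF.inv | with_reducible_and_instances apply IntF.add | with_reducible_and_instances apply IntF.sub | with_reducible_and_instances apply IntF.neg | with_reducible_and_instances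 apply IntF.smul | with_reducible apply Int.fin | with_reducible apply IntF.sep | with_reducible apply IntF.lam | with_reducible apply IntF.insert | with_reducible apply IntF.singleton | with_reducible apply IntF.union | with_reducible apply IntF.iimage | with_reducible apply IntF.ite | with_reducible apply IntF.the | with_reducible apply IntF.irec | with_reducible apply IntF.succ | with_reducible apply IntF.val | with_reducible apply IntF.mk | (with_reducible refine Int.comp ?_ ?_; assumption) | (with_reducible refine Int.comp₂ ?_ ?_ ?_; assumption) | (with_reducible refine Int.comp₃ ?_ ?_ ?_ ?_; assumption) | (with_reducible refine Int.comp₄ ?_ ?_ ?_ ?_ ?_; assumption) | (with_reducible refine IntF.comp ?_ ?_; assumption) | (with_reducible refine IntF.comp₂ ?_ ?_ ?_; assumption) | (with_reducible refine IntF.comp₃ ?_ ?_ ?_ ?_; assumption) | with_reducible apply IntF.pair))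
    obtain ⟨γ, hγ, hmin⟩ := iwo_least hK hγI (hbd _ hkI)
    have hex : ∀ x, lt x γ → ∃ n : INat (Tm N), lt x (f n.succ).1 ∨ x = (f n.succ).1 := by
      intro x hx
      by_contra hcon
      refine hmin x ?_ hx
      intro n
      rcases hK.tri (f n.succ).1 x with h2 | h2 | h2
      · exact h2
      · exact absurd ⟨n, Or.inr h2.symm⟩ hcon
      · exact absurd ⟨n, Or.inl h2⟩ hcon
    have hGI : IntF (Tm N) fun q : INat (Tm N) × INat (Tm N) => (f q.1.succ).2 q.2 := by (repeat' (first | with_reducible exact IntF.id | with_reducible exact IntF.fst' | with_reducible exact IntF.snd' | with_reducible exact IntF.const _ | with_reducible exact Int.const _ | assumption | with_reducible apply Int.and | with_reducible apply Int.or | with_reducible apply Int.not | with_reducible apply Int.imp | with_reducible apply Int.iff | with_reducible apply Int.ne | with_reducible apply Int.eq | with_reducible apply Int.mem | with_reducible apply Int.subset | with_reducible apply Int.ltN | with_reducible apply Int.leN | with_reducible_and_instances apply Int.le | with_reducible_and_instances apply Int.lt | with_reducible apply Int.all | with_reducible apply Int.ex | with_reducible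 apply IntF.fst | with_reducible apply IntF.snd | with_reducible apply IntF.app | with_reducible apply IntF.inl | with_reducible apply IntF.inr | with_reducible_and_instances apply IntF.mul | with_reducible_and_instances apply IntF.inv | with_reducible_and_instances apply IntF.add | with_reducible_and_instances apply IntF.sub | with_reducible_and_instances apply IntF.neg | with_reducible_and_instances apply IntF.smul | with_reducible apply Int.fin | with_reducible apply IntF.sep | with_reducible apply IntF.lam | with_reducible apply IntF.insert | with_reducible apply IntF.singleton | with_reducible apply IntF.union | with_reducible apply IntF.iimage | with_reducible apply IntF.ite | with_reducible apply IntF.the | with_reducible apply IntF.irec | with_reducible apply IntF.succ | with_reducible apply IntF.val | with_reducible apply IntF.mk | (with_reducible refine Int.comp ?_ ?_; assumption) | (with_reducible refine Int.comp₂ ?_ ?_ ?_; assumption) | (with_reducible refine Int.comp₃ ?_ ?_ ?_ ?_; assumption) | (with_reducible refine Int.comp₄ ?_ ?_ ?_ ?_ ?_; assumption) | (with_reducible refine IntF.comp ?_ ?_; assumption) | (with_reducible refine IntF.comp₂ ?_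 ?_ ?_; assumption) | (with_reducible refine IntF.comp₃ ?_ ?_ ?_ ?_; assumption) | with_reducible apply IntF.pair))
    have hCI : Int (Tm N) fun d : P => ∃ q : INat (Tm N) × INat (Tm N), (True ∧ True) ∧
      (f q.1.succ).2 q.2 = d := by (repeat' (first | with_reducible exact IntF.id | with_reducible exact IntF.fst' | with_reducible exact IntF.snd' | with_reducible exact IntF.const _ | with_reducible exact Int.const _ | assumption | with_reducible apply Int.and | with_reducible apply Int.or | with_reducible apply Int.not | with_reducible apply Int.imp | with_reducible apply Int.iff | with_reducible apply Int.ne | with_reducible apply Int.eq | with_reducible apply Int.mem | with_reducible apply Int.subset | with_reducible apply Int.ltN | with_reducible apply Int.leN | with_reducible_and_instances apply Int.le | with_reducible_and_instances apply Int.lt | with_reducible apply Int.all | with_reducible apply Int.ex | with_reducible apply IntF.fst | with_reducible apply IntF.snd | with_reducible apply IntF.app | with_reducible apply IntF.inl | with_reducible apply IntF.inr | with_reducible_and_instances apply IntF.mul | with_reducible_and_instances apply IntF.inv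 | with_reducible_and_instances apply IntF.add | with_reducible_and_instances apply IntF.sub | with_reducible_and_instances apply IntF.neg | with_reducible_and_instances apply IntF.smul | with_reducible apply Int.fin | with_reducible apply IntF.sep | with_reducible apply IntF.lam | with_reducible apply IntF.insert | with_reducible apply IntF.singleton | with_reducible apply IntF.union | with_reducible apply IntF.iimage | with_reducible apply IntF.ite | with_reducible apply IntF.the | with_reducible apply IntF.irec | with_reducible apply IntF.succ | with_reducible apply IntF.val | with_reducible apply IntF.mk | (with_reducible refine Int.comp ?_ ?_; assumption) | (with_reducible refine Int.comp₂ ?_ ?_ ?_; assumption) | (with_reducible refine Int.comp₃ ?_ ?_ ?_ ?_; assumption) | (with_reducible refine Int.comp₄ ?_ ?_ ?_ ?_ ?_; assumption) | (with_reducible refine IntF.comp ?_ ?_; assumption) | (with_reducible refine IntF.comp₂ ?_ ?_ ?_; assumption) | (with_reducible refine IntF.comp₃ ?_ ?_ ?_ ?_; assumption) | with_reducible apply IntF.pair))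
    refine ⟨_, hCI, ?_, (ctb_prod Ctb.nat Ctb.nat).image (Int.const _) hGI, fun p => ?_⟩
    · rintro _ ⟨q, -, rfl⟩
      exact ((hZ _ _).1 (h1 q.1).1).1 _
    · obtain ⟨l, hl, h2⟩ := hlim p γ ⟨_, hγ 0⟩ (by
        intro x hx
        obtain ⟨n, hn⟩ := hex x hx
        refine ⟨_, ?_, hγ n.succ⟩
        rcases hn with hn | hn
        · exact iwo_trans hK hn (h1 n.succ).2.1
        · rw [hn]
          exact (h1 n.succ).2.1)
      obtain ⟨n, hn⟩ := hex l hl
      have h3 : ρ (f n.succ).1 p = ρ γ p := by
        have e1 := (hρρ (f n.succ).1 γ p (Or.inl (hγ n))).1
        have e2 := (hρρ l (f n.succ).1 p hn).2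
        rw [← e1, h2, e2]
      obtain ⟨m, r, h4, h5, h6⟩ := ((hZ _ _).1 (h1 n).1).2 p
      obtain ⟨s, hs, hs'⟩ := ham _ _ _ h6 h5
      have h7 : ρ γ ((f n.succ).2 m) = (f n.succ).2 m := by
        have e1 := (h1 n.succ).2.2 m
        have e2 := (hρρ (f n.succ.succ).1 γ ((f n.succ).2 m) (Or.inl (hγ n.succ))).2
        rw [e1] at e2
        exact e2
      have h8 : le (ρ γ s) (ρ γ p) := by
        have e1 := hmono γ _ _ (htrans _ _ _ hs h4)
        rw [h3, (hρρ γ γ p (Or.inr rfl)).1] at e1
        exact e1
      have h9 : le (ρ γ s) ((f n.succ).2 m) := by
        have e1 := hmono γ _ _ hs'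
        rw [h7] at e1
        exact e1
      obtain ⟨s', h10, h11⟩ := ham γ (ρ γ s) p (hρρ γ γ s (Or.inr rfl)).1 h8
      exact ⟨_, ⟨(n, m), ⟨trivial, trivial⟩, rfl⟩, s', h11, htrans _ _ _ h10 h9⟩

end

end Pool.Agent.Helper672.ZFA.H158IT
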