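import Pool.Agent.H158_IT.SucM

/-!
# The limit step of the iteration theorem, and the iteration theorem
-/

set_option maxHeartbeats 2000000
set_option linter.all false
set_option synthInstance.maxSize 2000

namespace Pool.Agent.Helper672.ZFA.H158IT

open FirstOrder FirstOrder.Language
open H635 (IWO)
open Pool.Agent.H310
open Pool.Agent.Helper672.ZFA.V246
open Pool.Agent.Helper672.ZFA.H158CC (ctb_of_inj ctb_comap ctb_prod)
open Pool.Agent.Helper672.Plain (LSet)
open Pool.Agent.H635Amen (ZF)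
open Pool.Agent.H158_IT (Tm tm mem_tm zf_tm IsCtble DC ft fd IsIteration IsFn rst mem_rst glu
  CCC3 IsPredense Cmp isFn_glu ap_glu_left ap_glu_right rst_glu)
open Pool.Agent.W868 (IsZF nat mem_omega_iff Dfn DfnF fs sn fs_pair sn_pair ap D0 D0v im mem_im)
open Pool.Agent.W868.GM (IsForcing IsGeneric ev ext mem_ev)
open ZFSet (pair)

section

attribute [local instance] Helper672.Plain.toL

variable {N : Set ZFSet.{0}} [hN : Fact (IsZF N)]

local instance instModelT6 : IsModel (Tm N) := Helper672.Plain.isModel_toL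

theorem intF_of_dfn2 {A B C : Tm N} {F : ZFSet.{0} → ZFSet.{0} → ZFSet.{0}}
    (hF : DfnF N N fun w : Fin 2 → ZFSet.{0} => F (w 0) (w 1)) (f : El A × El B → El C)
    (h : ∀ a b, (f (a, b)).1.1 = F a.1.1 b.1.1) : IntF (Tm N) f := by
  have hZ := hN.out
  have hd : Dfn N N fun w : Fin 1 → ZFSet.{0} =>
      sn (w 0) = F (fs (fs (w 0))) (sn (fs (w 0))) :=
    Dfn.eq (hZ.sn' (DfnF.proj 0)) (DfnF.comp2 (f := F) hF (hZ.fs' (hZ.fs' (DfnF.proj 0)))
      (hZ.sn' (hZ.fs' (DfnF.proj 0))))
  have h1 : Int (Tm N) fun q : (El A × El B) × El C => f (q.1.1, q.1.2) = q.2 := by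
    refine int_rel3' (R := fun a b c => f (a, b) = c)
      (s := ZFSet.sep (fun u => sn u = F (fs (fs u)) (sn (fs u)))
      (ZFSet.prod (ZFSet.prod A.1 B.1) C.1))
      (hZ.sep_mem (Q := fun u => sn u = F (fs (fs u)) (sn (fs u))) hd
      (hZ.prod_mem (hZ.prod_mem A.2 B.2) C.2)) fun a b c => ?_
    show pair (pair a.1.1 b.1.1) c.1.1 ∈ _ ↔ _
    rw [ZFSet.mem_sep, ZFSet.pair_mem_prod, ZFSet.pair_mem_prod, fs_pair, sn_pair, fs_pair,
      sn_pair, ← h]
    exact ⟨fun h1 => Subtype.ext (Subtype.ext h1.2.symm), fun h1 =>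
      ⟨⟨⟨a.2, b.2⟩, c.2⟩, by rw [h1]⟩⟩
  exact h1

omit hN in
/-- Finite sets of elements of a limit ordinal are bounded. -/
theorem fin_bd {α : ZFSet.{0}} (hα : α.IsOrdinal) (hne : ∃ x, x ∈ α)
    (hlim : ∀ x ∈ α, ∃ y ∈ α, x ∈ y) {S : Set ZFSet.{0}} (hS : S.Finite) (hSα : ∀ x ∈ S, x ∈ α) :
    ∃ k ∈ α, ∀ x ∈ S, x ∈ k := by
  induction S, hS using Set.Finite.induction_on with
  | empty =>
    obtain ⟨x, hx⟩ := hne
    exact ⟨x, hx, fun y hy => hy.elim⟩
  | @insert a S _ _ ih =>
    obtain ⟨k, hk, h1⟩ := ih fun x hx => hSα x (Or.inr hx)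
    have ha := hSα a (Or.inl rfl)
    rcases (hα.mem hk).mem_trichotomous (hα.mem ha) with h2 | h2 | h2
    · obtain ⟨l, hl, h3⟩ := hlim a ha
      refine ⟨l, hl, fun x hx => ?_⟩
      rcases hx with rfl | hx
      · exact h3
      · exact (hα.mem hl).mem_trans ((hα.mem ha).mem_trans (h1 x hx) h2) h3
    · obtain ⟨l, hl, h3⟩ := hlim a ha
      refine ⟨l, hl, fun x hx => ?_⟩
      rcases hx with rfl | hx
      · exact h3
      · exact (hα.mem hl).mem_trans (h2 ▸ h1 x hx) h3
    · refine ⟨k, hk, fun x hx => ?_⟩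
      rcases hx with rfl | hx
      · exact h2
      · exact h1 x hx

variable {δ P L Q R O T : ZFSet.{0}} (hI : IsIteration N δ P L Q R O T)

/-- The extension of a condition by trivial values. -/
noncomputable def xt (O α k y : ZFSet.{0}) : ZFSet.{0} := glu y (rst O α) k

include hI

section

variable {α k y : ZFSet.{0}} (hα : α ∈ (insert δ δ : ZFSet.{0})) (hk : k ∈ α)

include hα hk

theorem xt_mem (hy : y ∈ ap P k) : xt O α k y ∈ ap P α :=
  hI.glu_mem hN.out hα (hI.le hα hk) ((hI.ordα hα).subset_of_mem hk) hy (hI.top_mem hN.out hα)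

theorem xt_rst (hy : y ∈ ap P k) : rst (xt O α k y) k = y :=
  rst_glu (hI.fn (hI.le hα hk) hy) (hI.fn hα (hI.top_mem hN.out hα))
    ((hI.ordα hα).subset_of_mem hk)

theorem xt_left (hy : y ∈ ap P k) {γ : ZFSet.{0}} (hγ : γ ∈ k) :
    ap (xt O α k y) γ = ap y γ :=
  ap_glu_left (hI.fn (hI.le hα hk) hy) (hI.fn hα (hI.top_mem hN.out hα))
    ((hI.ordα hα).subset_of_mem hk) hγ

theorem xt_right (hy : y ∈ ap P k) {γ : ZFSet.{0}} (hγ : γ ∈ α) (hγk : γ ∉ k) :
    ap (xt O α k y) γ = ap O γ := by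
  rw [xt, ap_glu_right (hI.fn (hI.le hα hk) hy) (hI.fn hα (hI.top_mem hN.out hα))
    ((hI.ordα hα).subset_of_mem hk) hγ hγk, hI.dom.2.2.2.2.1.ap_rst (hI.sub hα) hγ]

end

theorem lim_step (hct : N.Countable) (hDC : DC N) {α : ZFSet.{0}}
    (hα : α ∈ (insert δ δ : ZFSet.{0})) (hne : ∃ x, x ∈ α) (hlim : ∀ x ∈ α, insert x x ∈ α)
    (ih : ∀ k ∈ α, CCC3 N (ap P k) (ap L k)) : CCC3 N (ap P α) (ap L α) := by
  have hZ := hN.out
  have hB := hZ.base
  have hF := hI.forcing hZ hα
  have hαo := hI.ordα hα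
  have hsub : ∀ k ∈ α, k ⊆ α := fun k hk => hαo.subset_of_mem hk
  have hlim' : ∀ x ∈ α, ∃ y ∈ α, x ∈ y := fun x hx =>
    ⟨_, hlim x hx, ZFSet.mem_insert_iff.2 (Or.inl rfl)⟩
  obtain ⟨XA, hXA⟩ : ∃ XA : Tm N, XA.1 = ap P α := ⟨tm _ (hI.PN hZ hα), rfl⟩
  obtain ⟨KA, hKA⟩ : ∃ KA : Tm N, KA.1 = α := ⟨tm _ (hI.memN hZ hα), rfl⟩
  have hXm : ∀ p : El XA, p.1.1 ∈ ap P α := fun p => hXA ▸ p.2
  have hKm : ∀ p : El KA, p.1.1 ∈ α := fun p => hKA ▸ p.2
  have hrm : ∀ (k : El KA) (x : El XA), rst x.1.1 k.1.1 ∈ ap P k.1.1 := fun k x =>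
    hI.rst_mem hZ hα (hI.le hα (hKm k)) (hsub _ (hKm k)) (hXm x)
  obtain ⟨lx, hlx⟩ : ∃ lx : El XA → El XA → Prop, ∀ a b, lx a b ↔
      pair a.1.1 b.1.1 ∈ ap L α := ⟨_, fun _ _ => Iff.rfl⟩
  have hlxI : Int (Tm N) fun q : El XA × El XA => lx q.1 q.2 :=
    int_rel (hI.LN hZ hα) fun a b => (hlx a b).symm
  have hrefl : ∀ p, lx p p := fun p => (hlx _ _).2 (hF.refl _ (hXm p))
  have htrans : ∀ p q r, lx p q → lx q r → lx p r := fun p q r h1 h2 =>
    (hlx _ _).2 (hF.trans _ (hXm r) _ (hXm q) _ (hXm p) ((hlx _ _).1 h1) ((hlx _ _).1 h2))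
  -- comparison
  have hcmp : ∀ (k : El KA) (x y : El XA), pair (rst x.1.1 k.1.1) (rst y.1.1 k.1.1) ∈ ap L k.1.1 →
      (∀ γ ∈ α, γ ∉ k.1.1 → ap x.1.1 γ = ap y.1.1 γ ∨ ap y.1.1 γ = ap O γ) → lx x y :=
    fun k x y h1 h2 => (hlx _ _).2 (hI.le_of hZ hα (hI.le hα (hKm k)) (hsub _ (hKm k)) (hXm x)
      (hXm y) h1 h2)
  have hres : ∀ (k : El KA) (x y : El XA), lx x y →
      pair (rst x.1.1 k.1.1) (rst y.1.1 k.1.1) ∈ ap L k.1.1 := fun k x y h =>
    hI.rst_le hZ hα (hI.le hα (hKm k)) (hsub _ (hKm k)) ((hlx _ _).1 h)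
  have hFk : ∀ k : El KA, IsForcing N (ap P k.1.1) (ap L k.1.1) := fun k =>
    hI.forcing hZ (hI.le hα (hKm k))
  -- the projections
  obtain ⟨ρ, hρ⟩ : ∃ ρ : El KA → El XA → El XA, ∀ k x,
      (ρ k x).1.1 = xt O α k.1.1 (rst x.1.1 k.1.1) :=
    ⟨fun k x => mk (xt O α k.1.1 (rst x.1.1 k.1.1)) (by
      rw [hXA]
      exact xt_mem hI hα (hKm k) (hrm k x)), fun _ _ => rfl⟩
  have hρr : ∀ k x, rst (ρ k x).1.1 k.1.1 = rst x.1.1 k.1.1 := fun k x => by
    rw [hρ]
    exact xt_rst hI hα (hKm k) (hrm k x)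
  have hρl : ∀ k x, ∀ γ ∈ k.1.1, ap (ρ k x).1.1 γ = ap x.1.1 γ := fun k x γ hγ => by
    rw [hρ, xt_left hI hα (hKm k) (hrm k x) hγ, (hI.fn hα (hXm x)).ap_rst (hsub _ (hKm k)) hγ]
  have hρO : ∀ k x, ∀ γ ∈ α, γ ∉ k.1.1 → ap (ρ k x).1.1 γ = ap O γ := fun k x γ hγ hγk => by
    rw [hρ, xt_right hI hα (hKm k) (hrm k x) hγ hγk]
  have hext : ∀ x y : El XA, (∀ γ ∈ α, ap x.1.1 γ = ap y.1.1 γ) → x = y := fun x y h =>
    Subtype.ext (Subtype.ext ((hI.fn hα (hXm x)).ext (hI.fn hα (hXm y)) h))
  have hρI : IntF (Tm N) fun q : El KA × El XA => ρ q.1 q.2 := by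
    refine intF_of_dfn2 (F := fun k x => xt O α k (rst x k)) ?_ _ hρ
    unfold xt glu
    refine hB.union' ?_ ?_
    · exact hZ.sep' (Q := fun u w => fs u ∈ w 0) (DfnF.proj 1)
        (Dfn.mem (hZ.fs' (DfnF.proj 0)) (DfnF.proj 1))
    · exact hZ.sep' (Q := fun u w => fs u ∉ w 0)
        (DfnF.const (hZ.trans _ (hI.PN hZ hα) _ (hI.top_mem hZ hα)))
        (Dfn.mem (hZ.fs' (DfnF.proj 0)) (DfnF.proj 1)).not
  have hKo : ∀ x : Tm N, Mem x KA → Pool.Agent.V11246.IsOrdinal x := by
    intro x hx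
    have hx' : x.1 ∈ α := hKA ▸ hx
    have ho := hαo.mem hx'
    exact ⟨fun y hy z hz => ho.mem_trans hz hy, fun y hy z hz w hw =>
      (ho.mem hy).mem_trans hw hz⟩
  have htri : ∀ k l : El KA, Mem k.1 l.1 ∨ k = l → k.1.1 ⊆ l.1.1 := by
    rintro k l (h | rfl)
    · exact (hαo.mem (hKm l)).subset_of_mem h
    · exact fun _ h => h
  obtain ⟨x₀, hx₀⟩ := hne
  rw [← hXA]
  refine int_ccc3 hlx fun D hD hpd => lim_ccc hDC hlxI hrefl htrans (iwo_El hKo) ?_
    (mk x₀ (by rw [hKA]; exact hx₀)) (mk (rst O α) (by rw [hXA]; exact hI.top_mem hZ hα))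
    hρI ?_ ?_ ?_ ?_ ?_ ?_ ?_ hD hpd
  · intro a
    exact ⟨mk (insert a.1.1 a.1.1) (by rw [hKA]; exact hlim _ (hKm a)),
      show a.1.1 ∈ insert a.1.1 a.1.1 from ZFSet.mem_insert_iff.2 (Or.inl rfl)⟩
  · intro k p
    refine hcmp k _ _ ?_ fun γ hγ hγk => Or.inr (hρO k p γ hγ hγk)
    rw [hρr]
    exact (hFk k).refl _ (hrm k p)
  · intro k p q h
    refine hcmp k _ _ ?_ fun γ hγ hγk => Or.inr (hρO k q γ hγ hγk)
    rw [hρr, hρr]
    exact hres k p q h
  · intro k l p hkl
    have hs := htri k l hkl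
    constructor
    · refine hext _ _ fun γ hγ => ?_
      by_cases h1 : γ ∈ k.1.1
      · rw [hρl k _ γ h1, hρl l _ γ (hs h1), hρl k _ γ h1]
      · rw [hρO k _ γ hγ h1, hρO k _ γ hγ h1]
    · refine hext _ _ fun γ hγ => ?_
      by_cases h1 : γ ∈ l.1.1
      · rw [hρl l _ γ h1]
      · rw [hρO l _ γ hγ h1, hρO k _ γ hγ fun h2 => h1 (hs h2)]
  · intro k r p hr hrp
    have h1 := hres k r (ρ k p) hrp
    rw [hρr] at h1
    have hm := hI.glu_mem hZ hα (hI.le hα (hKm k)) (hsub _ (hKm k)) (hrm k r) (hXm p)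
    have f1 := hI.fn (hI.le hα (hKm k)) (hrm k r)
    have f2 := hI.fn hα (hXm p)
    obtain ⟨s, hs⟩ : ∃ s : El XA, s.1.1 = glu (rst r.1.1 k.1.1) p.1.1 k.1.1 :=
      ⟨mk _ (by rw [hXA]; exact hm), rfl⟩
    refine ⟨s, hcmp k _ _ ?_ fun γ hγ hγk => Or.inr ?_, hcmp k _ _ ?_ fun γ hγ hγk =>
      Or.inl ?_⟩
    · rw [hs, rst_glu f1 f2 (hsub _ (hKm k))]
      exact (hFk k).refl _ (hrm k r)
    · rw [← hr]
      exact hρO k r γ hγ hγk
    · rw [hs, rst_glu f1 f2 (hsub _ (hKm k))]
      exact h1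
    · rw [hs, ap_glu_right f1 f2 (hsub _ (hKm k)) hγ hγk]
  · intro p
    obtain ⟨k, hk, h1⟩ := fin_bd hαo ⟨x₀, hx₀⟩ hlim' ((hI.cond α hα _).1 (hXm p)).2.2.2
      fun x hx => hx.1
    refine ⟨mk k (by rw [hKA]; exact hk), hext _ _ fun γ hγ => ?_⟩
    by_cases h2 : γ ∈ k
    · exact hρl _ p γ h2
    · rw [hρO _ p γ hγ h2]
      by_contra h3
      exact h2 (h1 γ ⟨hγ, fun h4 => h3 h4.symm⟩)
  · intro p γ hex hli
    have hfin : ({β | (β ∈ α ∧ ap p.1.1 β ≠ ap O β) ∧ β ∈ γ.1.1} : Set ZFSet.{0}).Finite :=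
      (((hI.cond α hα _).1 (hXm p)).2.2.2).subset fun x hx => hx.1
    have hγo := hαo.mem (hKm γ)
    obtain ⟨l, hl, h1⟩ := fin_bd hγo (by
      obtain ⟨x, hx⟩ := hex
      exact ⟨x.1.1, hx⟩) (by
      intro x hx
      obtain ⟨y, hy1, hy2⟩ := hli (mk x (by rw [hKA]; exact hαo.mem_trans hx (hKm γ))) hx
      exact ⟨y.1.1, hy2, hy1⟩) hfin fun x hx => hx.2
    refine ⟨mk l (by rw [hKA]; exact hαo.mem_trans hl (hKm γ)), hl, hext _ _ fun ξ hξ => ?_⟩
    by_cases h2 : ξ ∈ l
    · rw [hρl γ p ξ (hγo.mem_trans h2 hl)]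
      exact (hρl _ p ξ h2).symm
    · rw [hρO _ p ξ hξ (show ξ ∉ (mk l _ : El KA).1.1 from h2)]
      by_cases h3 : ξ ∈ γ.1.1
      · rw [hρl γ p ξ h3]
        by_contra h4
        exact h2 (h1 ξ ⟨⟨hξ, h4⟩, h3⟩)
      · exact hρO γ p ξ hξ h3
  · intro k D' hD' hpd'
    obtain ⟨PK, hPK⟩ : ∃ PK : Tm N, PK.1 = ap P k.1.1 :=
      ⟨tm _ (hI.PN hZ (hI.le hα (hKm k))), rfl⟩
    have hPm : ∀ p : El PK, p.1.1 ∈ ap P k.1.1 := fun p => hPK ▸ p.2
    obtain ⟨lk, hlk⟩ : ∃ lk : El PK → El PK → Prop, ∀ a b, lk a b ↔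
      pair a.1.1 b.1.1 ∈ ap L k.1.1 := ⟨_, fun _ _ => Iff.rfl⟩
    obtain ⟨rk, hrk⟩ : ∃ rk : El XA → El PK, ∀ x, (rk x).1.1 = rst x.1.1 k.1.1 :=
      ⟨fun x => mk (rst x.1.1 k.1.1) (by rw [hPK]; exact hrm k x), fun _ => rfl⟩
    have hkN : k.1.1 ∈ N := k.1.2
    have hdr : DfnF N N fun w : Fin 1 → ZFSet.{0} => rst (w 0) k.1.1 :=
      hZ.sep' (Q := fun u w => fs u ∈ k.1.1) (DfnF.proj 0)
        (Dfn.mem (hZ.fs' (DfnF.proj 0)) (DfnF.const hkN))
    have hrI : IntF (Tm N) rk := intF_of_dfn (F := fun z => rst z k.1.1) hdr rk hrk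
    have hρk : IntF (Tm N) fun x : El XA => ρ k x := by (repeat' (first | with_reducible exact IntF.id | with_reducible exact IntF.fst' | with_reducible exact IntF.snd' | with_reducible exact IntF.const _ | with_reducible exact Int.const _ | assumption | with_reducible apply Int.and | with_reducible apply Int.or | with_reducible apply Int.not | with_reducible apply Int.imp | with_reducible apply Int.iff | with_reducible apply Int.ne | with_reducible apply Int.eq | with_reducible apply Int.mem | with_reducible apply Int.subset | with_reducible apply Int.ltN | with_reducible apply Int.leN | with_reducible_and_instances apply Int.le | with_reducible_and_instances apply Int.lt | with_reducible apply Int.all | with_reducible apply Int.ex | with_reducible apply IntF.fst | with_reducible apply IntF.snd | with_reducible apply IntF.app | with_reducible apply IntF.inl | with_reducible apply IntF.inr | with_reducible_and_instances apply IntF.mul | with_reducible_and_instances apply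 IntF.inv | with_reducible_and_instances apply IntF.add | with_reducible_and_instances apply IntF.sub | with_reducible_and_instances apply IntF.neg | with_reducible_and_instances apply IntF.smul | with_reducible apply Int.fin | with_reducible apply IntF.sep | with_reducible apply IntF.lam | with_reducible apply IntF.insert | with_reducible apply IntF.singleton | with_reducible apply IntF.union | with_reducible apply IntF.iimage | with_reducible apply IntF.ite | with_reducible apply IntF.the | with_reducible apply IntF.irec | with_reducible apply IntF.succ | with_reducible apply IntF.val | with_reducible apply IntF.mk | (with_reducible refine Int.comp ?_ ?_; assumption) | (with_reducible refine Int.comp₂ ?_ ?_ ?_; assumption) | (with_reducible refine Int.comp₃ ?_ ?_ ?_ ?_; assumption) | (with_reducible refine Int.comp₄ ?_ ?_ ?_ ?_ ?_; assumption) | (with_reducible refine IntF.comp ?_ ?_; assumption) | (with_reducible refine IntF.comp₂ ?_ ?_ ?_; assumption) | (with_reducible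 refine IntF.comp₃ ?_ ?_ ?_ ?_; assumption) | with_reducible apply IntF.pair))
    obtain ⟨ex, hex⟩ : ∃ ex : El PK → El XA, ∀ y, (ex y).1.1 = xt O α k.1.1 y.1.1 :=
      ⟨fun y => mk (xt O α k.1.1 y.1.1) (by
        rw [hXA]
        exact xt_mem hI hα (hKm k) (hPm y)), fun _ => rfl⟩
    have hrex : ∀ y, rk (ex y) = y := fun y => Subtype.ext (Subtype.ext (by
      rw [hrk, hex, xt_rst hI hα (hKm k) (hPm y)]))
    have hexO : ∀ y, ∀ γ ∈ α, γ ∉ k.1.1 → ap (ex y).1.1 γ = ap O γ := fun y γ hγ hγk => by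
      rw [hex, xt_right hI hα (hKm k) (hPm y) hγ hγk]
    have hρe : ∀ x, ρ k x = ex (rk x) := fun x => Subtype.ext (Subtype.ext (by
      rw [hρ, hex, hrk]))
    have hle' : ∀ x y, lk (rk x) (rk y) → lx (ρ k x) (ρ k y) := by
      intro x y h
      refine hcmp k _ _ ?_ fun γ hγ hγk => Or.inr (hρO k y γ hγ hγk)
      rw [hρr, hρr, ← hrk, ← hrk]
      exact (hlk _ _).1 h
    have hle'' : ∀ x y, lx x y → lk (rk x) (rk y) := by
      intro x y h
      rw [hlk, hrk, hrk]
      exact hres k x y h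
    have hDI : Int (Tm N) fun y : El PK => ∃ x, D' x ∧ rk x = y := by (repeat' (first | with_reducible exact IntF.id | with_reducible exact IntF.fst' | with_reducible exact IntF.snd' | with_reducible exact IntF.const _ | with_reducible exact Int.const _ | assumption | with_reducible apply Int.and | with_reducible apply Int.or | with_reducible apply Int.not | with_reducible apply Int.imp | with_reducible apply Int.iff | with_reducible apply Int.ne | with_reducible apply Int.eq | with_reducible apply Int.mem | with_reducible apply Int.subset | with_reducible apply Int.ltN | with_reducible apply Int.leN | with_reducible_and_instances apply Int.le | with_reducible_and_instances apply Int.lt | with_reducible apply Int.all | with_reducible apply Int.ex | with_reducible apply IntF.fst | with_reducible apply IntF.snd | with_reducible apply IntF.app | with_reducible apply IntF.inl | with_reducible apply IntF.inr | with_reducible_and_instances apply IntF.mul | with_reducible_and_instances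 apply IntF.inv | with_reducible_and_instances apply IntF.add | with_reducible_and_instances apply IntF.sub | with_reducible_and_instances apply IntF.neg | with_reducible_and_instances apply IntF.smul | with_reducible apply Int.fin | with_reducible apply IntF.sep | with_reducible apply IntF.lam | with_reducible apply IntF.insert | with_reducible apply IntF.singleton | with_reducible apply IntF.union | with_reducible apply IntF.iimage | with_reducible apply IntF.ite | with_reducible apply IntF.the | with_reducible apply IntF.irec | with_reducible apply IntF.succ | with_reducible apply IntF.val | with_reducible apply IntF.mk | (with_reducible refine Int.comp ?_ ?_; assumption) | (with_reducible refine Int.comp₂ ?_ ?_ ?_; assumption) | (with_reducible refine Int.comp₃ ?_ ?_ ?_ ?_; assumption) | (with_reducible refine Int.comp₄ ?_ ?_ ?_ ?_ ?_; assumption) | (with_reducible refine IntF.comp ?_ ?_; assumption) | (with_reducible refine IntF.comp₂ ?_ ?_ ?_; assumption) | (with_reducible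 refine IntF.comp₃ ?_ ?_ ?_ ?_; assumption) | with_reducible apply IntF.pair))
    obtain ⟨C, hC, h1, h2, h3⟩ := ccc3_int (A := PK) (by
      rw [hPK]
      exact ih k.1.1 (hKm k)) hlk _ hDI (by
      intro y
      obtain ⟨d, hd, r, hr1, hr2⟩ := hpd' (ex y)
      refine ⟨rk d, ⟨d, hd, rfl⟩, rk r, ?_, ?_⟩
      · have h1 := hle'' _ _ hr1
        rw [hρe, hrex, hrex] at h1
        exact h1
      · have h1 := hle'' _ _ hr2
        rw [hρe, hrex] at h1
        exact h1)
    have hCI : Int (Tm N) fun c : El XA => ρ k c = c ∧ C (rk c) := by (repeat' (first | with_reducible exact IntF.id | with_reducible exact IntF.fst' | with_reducible exact IntF.snd' | with_reducible exact IntF.const _ | with_reducible exact Int.const _ | assumption | with_reducible apply Int.and | with_reducible apply Int.or | with_reducible apply Int.not | with_reducible apply Int.imp | with_reducible apply Int.iff | with_reducible apply Int.ne | with_reducible apply Int.eq | with_reducible apply Int.mem | with_reducible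 apply Int.subset | with_reducible apply Int.ltN | with_reducible apply Int.leN | with_reducible_and_instances apply Int.le | with_reducible_and_instances apply Int.lt | with_reducible apply Int.all | with_reducible apply Int.ex | with_reducible apply IntF.fst | with_reducible apply IntF.snd | with_reducible apply IntF.app | with_reducible apply IntF.inl | with_reducible apply IntF.inr | with_reducible_and_instances apply IntF.mul | with_reducible_and_instances apply IntF.inv | with_reducible_and_instances apply IntF.add | with_reducible_and_instances apply IntF.sub | with_reducible_and_instances apply IntF.neg | with_reducible_and_instances apply IntF.smul | with_reducible apply Int.fin | with_reducible apply IntF.sep | with_reducible apply IntF.lam | with_reducible apply IntF.insert | with_reducible apply IntF.singleton | with_reducible apply IntF.union | with_reducible apply IntF.iimage | with_reducible apply IntF.ite | with_reducible apply IntF.the | with_reducible apply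 IntF.irec | with_reducible apply IntF.succ | with_reducible apply IntF.val | with_reducible apply IntF.mk | (with_reducible refine Int.comp ?_ ?_; assumption) | (with_reducible refine Int.comp₂ ?_ ?_ ?_; assumption) | (with_reducible refine Int.comp₃ ?_ ?_ ?_ ?_; assumption) | (with_reducible refine Int.comp₄ ?_ ?_ ?_ ?_ ?_; assumption) | (with_reducible refine IntF.comp ?_ ?_; assumption) | (with_reducible refine IntF.comp₂ ?_ ?_ ?_; assumption) | (with_reducible refine IntF.comp₃ ?_ ?_ ?_ ?_; assumption) | with_reducible apply IntF.pair))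
    refine ⟨fun c => ρ k c = c ∧ C (rk c), hCI, ?_, ?_, fun p => ?_⟩
    · rintro c ⟨h4, h5⟩
      obtain ⟨x, hx, h6⟩ := h1 _ h5
      refine ⟨x, hx, ?_⟩
      rw [hρe, h6, ← hρe]
      exact h4
    · refine ctb_comap h2 hrI (fun x y hx hy hxy => ?_) fun x hx => hx.2
      rw [← hx.1, ← hy.1, hρe, hρe, hxy]
    · obtain ⟨c, hc, r, hr1, hr2⟩ := h3 (rk p)
      have h4 : ∀ y, ρ k (ex y) = ex y := fun y => by rw [hρe, hrex]
      refine ⟨ex c, ⟨h4 c, by rw [hrex]; exact hc⟩, ex r, ?_, ?_⟩
      · rw [← h4 r]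
        refine hle' _ _ ?_
        rw [hrex]
        exact hr1
      · rw [← h4 r, ← h4 c]
        refine hle' _ _ ?_
        rw [hrex, hrex]
        exact hr2

end

end Pool.Agent.Helper672.ZFA.H158IT
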