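import Pool.Agent.H158_IT.TwoS

/-!
# An iteration of length two: an uncountable maximal antichain
-/

set_option autoImplicit false
set_option linter.all false

namespace Pool.Agent.H158_IT

open Pool.Agent.W868 Pool.Agent.W868.GM Pool.Agent.Y588
open ZFSet (pair)

/-- The antichain `A` with a greatest element `∅`. -/
noncomputable def BA (A : ZFSet.{0}) : ZFSet.{0} := insert ∅ A

/-- The order of the antichain with a greatest element. -/
noncomputable def LA (A : ZFSet.{0}) : ZFSet.{0} :=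
  ZFSet.sep (fun u => fs u = sn u ∨ sn u = ∅) (ZFSet.prod (BA A) (BA A))

theorem mem_BA {A x : ZFSet.{0}} : x ∈ BA A ↔ x = ∅ ∨ x ∈ A := ZFSet.mem_insert_iff

theorem mem_LA {A x y : ZFSet.{0}} : pair x y ∈ LA A ↔ x ∈ BA A ∧ y ∈ BA A ∧ (x = y ∨ y = ∅) := by
  rw [LA, ZFSet.mem_sep, ZFSet.pair_mem_prod, fs_pair, sn_pair, and_assoc]

theorem pre_BA (A : ZFSet.{0}) : IsPre (BA A) (LA A) ∅ where
  refl x hx := mem_LA.2 ⟨hx, hx, Or.inl rfl⟩
  trans x hx y hy z hz h1 h2 := by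
    obtain ⟨-, -, h1⟩ := mem_LA.1 h1
    obtain ⟨-, -, h2⟩ := mem_LA.1 h2
    refine mem_LA.2 ⟨hx, hz, ?_⟩
    rcases h2 with rfl | rfl
    · exact h1
    · exact Or.inr rfl
  top_mem := mem_BA.2 (Or.inl rfl)
  le_top x hx := mem_LA.2 ⟨hx, mem_BA.2 (Or.inl rfl), Or.inr rfl⟩

section

variable {N : Set ZFSet.{0}} (hN : IsZF N) (hct : N.Countable) {E LE tE : ZFSet.{0}}
  (hE : Fo N E LE tE) {A : ZFSet.{0}} (hA : A ∈ N) (h0 : ∅ ∉ A) (hne : ∃ a, a ∈ A)

include hN hA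

theorem BA_mem : BA A ∈ N := hN.insert_mem hN.empty_mem hA

theorem LA_mem : LA A ∈ N :=
  hN.sep_mem (Q := fun u => fs u = sn u ∨ sn u = ∅)
    ((Dfn.eq (hN.fs' (DfnF.proj 0)) (hN.sn' (DfnF.proj 0))).or
      (Dfn.eq (hN.sn' (DfnF.proj 0)) (DfnF.const hN.empty_mem)))
    (hN.prod_mem (BA_mem hN hA) (BA_mem hN hA))

include hE

theorem f_mem {e a : ZFSet.{0}} (he : e ∈ E) (ha : a ∈ A) :
    kk (chk ∅ e) (chk (jj tE) a) ∈ P2 N E LE tE (BA A) :=
  mem_P2.2 ⟨e, he, _, chk_T1 hN hE (BA_mem hN hA) (mem_BA.2 (Or.inr ha)), rfl⟩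

include hct h0 hne

/-- The iteration does not satisfy the first chain condition if `A` is uncountable. -/
theorem not_ccc1 (h : CCC1 N (P2 N E LE tE (BA A)) (L2 N E LE tE (BA A) (LA A))) :
    IsCtble N A := by
  have hb := hN.base
  have htN := tE_mem hN hE
  have htM := jj_mem hN htN
  have hP := forcing1 hN hE
  have hBA := BA_mem hN hA
  have hdf : DfnF N N fun w : Fin 1 → ZFSet.{0} => kk (chk ∅ tE) (chk (jj tE) (w 0)) :=
    DfnF.comp2 (f := kk) (dfn_kk hN) (DfnF.const (chk_mem hN hN.empty_mem htN))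
      (dfn_chk hN htM)
  refine IsCtble.of_im hN (F := fun a => kk (chk ∅ tE) (chk (jj tE) a)) hdf hA
    (fun x _ y _ hxy => ?_) (h _ (hN.im_mem hA hdf) ?_ ?_)
  · have h1 := (kk_inj.1 hxy).2
    have h2 := ev_chk (G := {jj tE}) (t := jj tE) (by simp) x
    rw [h1, ev_chk (by simp)] at h2
    exact h2.symm
  · refine ⟨fun z hz => ?_, fun p hp q hq hpq hcmp => hpq ?_⟩
    · obtain ⟨a, ha, rfl⟩ := mem_im.1 hz
      exact f_mem hN hE hA hE.top ha
    · obtain ⟨a, ha, rfl⟩ := mem_im.1 hp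
      obtain ⟨b, hb', rfl⟩ := mem_im.1 hq
      obtain ⟨r, hr, h1, h2⟩ := hcmp
      obtain ⟨e, he, σ, hσ, rfl⟩ := mem_P2.1 hr
      obtain ⟨G, hG, heG⟩ := exists_gen hct hP (mem_P1.2 ⟨e, he, rfl⟩)
      have h3 := ((kk_L2 hE).1 h1).2.2.2 G hG heG
      have h4 := ((kk_L2 hE).1 h2).2.2.2 G hG heG
      rw [ev_chk1 hN hE hG] at h3 h4
      have h5 : ev G σ = a := by
        rcases (mem_LA.1 h3).2.2 with h | h
        · exact h
        · exact absurd (h ▸ ha) h0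
      have h6 : ev G σ = b := by
        rcases (mem_LA.1 h4).2.2 with h | h
        · exact h
        · exact absurd (h ▸ hb') h0
      rw [← h5, ← h6]
  · refine ⟨fun z hz => ?_, fun p hp => ?_⟩
    · obtain ⟨a, ha, rfl⟩ := mem_im.1 hz
      exact f_mem hN hE hA hE.top ha
    · obtain ⟨e, he, σ, hσ, rfl⟩ := mem_P2.1 hp
      obtain ⟨G, hG, heG⟩ := exists_gen hct hP (mem_P1.2 ⟨e, he, rfl⟩)
      have hv := (ZFSet.mem_sep.1 hσ).2 G hG
      obtain ⟨v, hv'⟩ : ∃ v, v = ev G σ := ⟨_, rfl⟩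
      have hσN : σ ∈ N := (mem_pwM.1 (ZFSet.mem_sep.1 hσ).1).1
      have hvN : v ∈ N := by
        rw [hv']
        exact hN.trans _ hBA _ hv
      obtain ⟨r, hr, h1⟩ := ft hN hP (n := 2) (R := fun v : Fin 2 → ZFSet.{0} => v 0 = v 1)
        (D0.eq (D0v.proj 0) (D0v.proj 1)) (v := ![chk (jj tE) v, σ]) (by
          intro i
          fin_cases i
          · exact chk_mem hN htM hvN
          · exact hσN) hG (by
          show ev G (chk (jj tE) v) = ev G σ
          rw [ev_chk1 hN hE hG, hv'])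
      obtain ⟨s, hs, h2, h3⟩ := hG.dir r hr _ heG
      obtain ⟨e', he', rfl⟩ := mem_P1.1 (hG.sub hs)
      obtain ⟨a, ha, h4⟩ : ∃ a ∈ A, a = v ∨ v = ∅ := by
        rw [← hv'] at hv
        rcases mem_BA.1 hv with h | h
        · obtain ⟨a, ha⟩ := hne
          exact ⟨a, ha, Or.inr h⟩
        · exact ⟨v, h, Or.inl rfl⟩
      have h5 : ∀ G', IsGeneric N (P1 E) (L1 LE) G' → jj e' ∈ G' → ev G' σ = v := by
        intro G' hG' h
        have h6 := h1 G' hG' (hG'.up _ h _ (hG.sub hr) h2)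
        replace h6 : ev G' (chk (jj tE) v) = ev G' σ := h6
        rw [ev_chk1 hN hE hG'] at h6
        exact h6.symm
      have hq := f_mem hN hE hA he' ha
      refine ⟨_, mem_im.2 ⟨a, ha, rfl⟩, _, hq, (kk_L2 hE).2 ⟨hq, hp, (jj_L1 hE).1 h3,
        fun G' hG' h => ?_⟩, (kk_L2 hE).2 ⟨hq, f_mem hN hE hA hE.top ha, hE.le _ he',
        fun G' hG' h => ?_⟩⟩
      · rw [ev_chk1 hN hE hG', h5 G' hG' h]
        refine mem_LA.2 ⟨mem_BA.2 (Or.inr ha), ?_, h4⟩
        rw [hv']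
        exact (ZFSet.mem_sep.1 hσ).2 G hG
      · rw [ev_chk1 hN hE hG']
        exact mem_LA.2 ⟨mem_BA.2 (Or.inr ha), mem_BA.2 (Or.inr ha), Or.inl rfl⟩

/-- The iteration theorems fail if an uncountable set becomes countable in the generic extensions
by a forcing that satisfies the third chain condition. -/
theorem not_it (hunc : ¬ IsCtble N A) (hC : CCC3 N E LE)
    (hW : ∀ W, IsZF W → N ⊆ W → ∀ G ∈ W, IsGeneric N E LE G → IsCtble W A) :
    ¬ IT CCC1 N ∧ ¬ IT CCC2 N ∧ ¬ IT CCC3 N := by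
  have hI := iter2 hN hct hE (BA_mem hN hA) (LA_mem hN hA) (pre_BA A)
  have h1 : ∀ G, IsGeneric N (P1 E) (L1 LE) G → ∀ C ∈ ext N G, C ⊆ BA A →
      IsCtble (ext N G) C := by
    intro G hG C hC hCB
    have hP := forcing1 hN hE
    have hW' := zf_ext hN hP hG
    have hs := sub_ext' hN hP hG
    have hGW := gen_mem_ext hN hP hG
    have hjj : DfnF (ext N G) (ext N G) fun w : Fin 1 → ZFSet.{0} => jj (w 0) := dfn_jj hW'
    have h2 := hW _ hW' hs (ZFSet.sep (fun e => jj e ∈ G) E)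
      (hW'.sep_mem (Q := fun e => jj e ∈ G) (Dfn.mem hjj (DfnF.const hGW)) (hs hE.fo.mem))
      (gen1 hN hE hG)
    exact IsCtble.mono' hW' (h2.insert' hW' hW'.empty_mem) hC hCB
  have h0' : ev {∅} (chk ∅ E) = E := ev_chk (by simp) E
  have h0'' : ev {∅} (chk ∅ LE) = LE := ev_chk (by simp) LE
  have hC2 := ccc2_of_ccc3 hN hE.fo hC
  have key : ∀ C : Set ZFSet.{0} → ZFSet.{0} → ZFSet.{0} → Prop, C N E LE →
      (∀ G, IsGeneric N (P1 E) (L1 LE) G → C (ext N G) (BA A) (LA A)) → IT C N →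
      C N (P2 N E LE tE (BA A)) (L2 N E LE tE (BA A) (LA A)) := by
    intro C hCN hCG hIT
    have h2 := hIT _ _ _ _ _ _ _ hI (by
      intro β hβ G hG
      rcases mem2 hβ with rfl | rfl
      · rw [Pf0, Lf0, gen0] at hG
        subst hG
        rw [ext0 hN, Qf0, Qf0, h0', h0'']
        exact hCN
      · rw [Pf1, Lf1] at hG
        rw [Qf1, Qf1, ev_chk1 hN hE hG, ev_chk1 hN hE hG]
        exact hCG G hG)
    rwa [Pf2, Lf22] at h2
  have hF2 : IsForcing N (P2 N E LE tE (BA A)) (L2 N E LE tE (BA A) (LA A)) := by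
    have h2 := hI.forcing hN (α := nat 2) (ZFSet.mem_insert_iff.2 (Or.inl rfl))
    rwa [Pf2, Lf22] at h2
  refine ⟨fun h => ?_, fun h => ?_, fun h => ?_⟩
  · exact hunc (not_ccc1 hN hct hE hA h0 hne (key CCC1 (fun A hA h _ => hC2 A hA h)
      (fun G hG C hC h _ => h1 G hG C hC h.1) h))
  · have h2 := key CCC2 hC2 (fun G hG C hC h => h1 G hG C hC h.1) h
    exact hunc (not_ccc1 hN hct hE hA h0 hne fun A hA h _ => h2 A hA h)
  · have h2 := ccc2_of_ccc3 hN hF2 (key CCC3 hC (fun G hG D hD h =>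
      ⟨D, hD, fun _ h => h, h, h1 G hG D hD h.1⟩) h)
    exact hunc (not_ccc1 hN hct hE hA h0 hne fun A hA h _ => h2 A hA h)

end

end Pool.Agent.H158_IT
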