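import Pool.Agent.H158_IT.Fs
import Pool.Agent.H158_IT.Ctp
import Pool.Agent.H158_IT.TwoF
import Pool.Agent.H158_HM.Ram

/-!
# A model with a sequence of pairs without a choice function on an infinite subsequence
-/

set_option autoImplicit false
set_option linter.all false

namespace Pool.Agent.H158_HM.Sock

open Pool.Agent.W868 Pool.Agent.W868.GM Pool.Agent.Y588 Pool.Agent.H158_HM
open Pool.Agent.H158_IT (IsCtble CCC1 CCC2 CCC3 IsPredense IsAntichain Cmp Fo)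
open ZFSet (pair)

/-- Countably many labels, each for two elements. -/
noncomputable def XS : Ix where
  ι := ℕ × Bool
  c x := pair (nat x.1) (bt x.2)
  lb x := nat x.1
  inj := by
    rintro ⟨n, b⟩ ⟨m, c⟩ h
    obtain ⟨h1, h2⟩ := ZFSet.pair_inj.1 h
    exact Prod.ext (nat_injective h1) (bt_inj.1 h2)

noncomputable instance : DecidableEq XS.ι := inferInstanceAs (DecidableEq (ℕ × Bool))

theorem gam_XS : XS.gam = ZFSet.prod ZFSet.omega (nat 2) := by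
  ext z
  rw [mem_gam, ZFSet.mem_prod]
  constructor
  · rintro ⟨⟨n, b⟩, rfl⟩
    exact ⟨_, nat_mem_omega n, _, mem_two.2 ⟨b, rfl⟩, rfl⟩
  · rintro ⟨a, ha, b, hb, rfl⟩
    obtain ⟨n, rfl⟩ := mem_omega_iff.1 ha
    obtain ⟨b, rfl⟩ := mem_two.1 hb
    exact ⟨(n, b), rfl⟩

theorem in_XS {M : Set ZFSet.{0}} (hM : IsZF M) : XS.In M where
  gam := by
    rw [gam_XS]
    exact hM.prod_mem hM.infinity (hM.nat_mem 2)
  lbz := by
    have h0 : ∀ a : XS.ι, fs (XS.c a) = XS.lb a := fun a => fs_pair _ _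
    have h : XS.lbz = im (fun u => pair u (fs u)) XS.gam := by
      ext z
      rw [mem_lbz, mem_im]
      constructor
      · rintro ⟨a, rfl⟩
        exact ⟨_, code_mem a, by rw [h0]⟩
      · rintro ⟨u, hu, rfl⟩
        obtain ⟨a, rfl⟩ := mem_gam.1 hu
        exact ⟨a, by rw [h0]⟩
    rw [h, gam_XS]
    exact hM.im_mem (hM.prod_mem hM.infinity (hM.nat_mem 2))
      (hM.base.pair' (DfnF.proj 0) (hM.fs' (DfnF.proj 0)))

/-- The generic elements. -/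
noncomputable def sk (M : Set ZFSet.{0}) (G : ZFSet.{0}) (n : ℕ) (b : Bool) : ZFSet.{0} :=
  AA XS M G ((n, b) : ℕ × Bool)

/-- A finite sequence of choices. -/
noncomputable def ST (M : Set ZFSet.{0}) (G : ZFSet.{0}) (n : ℕ) (f : ℕ → Bool) : ZFSet.{0} :=
  ZFSet.range fun i : Fin n => sk M G i (f i)

/-- The condition on finite sequences of choices, in the model. -/
def SC (M : Set ZFSet.{0}) (G s : ZFSet.{0}) : Prop :=
  ∃ n ∈ ZFSet.omega, (∀ x ∈ s, ap (LB XS M G) x ∈ n) ∧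
    (∀ m ∈ n, ∃ x ∈ s, ap (LB XS M G) x = m) ∧
    ∀ x ∈ s, ∀ y ∈ s, ap (LB XS M G) x = ap (LB XS M G) y → x = y

/-- The set of the finite sequences of choices. -/
noncomputable def EE (M : Set ZFSet.{0}) (G : ZFSet.{0}) : ZFSet.{0} :=
  ZFSet.sep (SC M G) (pwM (NN XS M G) (AS XS M G))

section

variable {M : Set ZFSet.{0}} {G : ZFSet.{0}}

theorem mem_ST {n : ℕ} {f : ℕ → Bool} {z : ZFSet.{0}} : z ∈ ST M G n f ↔
    ∃ i < n, z = sk M G i (f i) := by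
  rw [ST, ZFSet.mem_range]
  constructor
  · rintro ⟨i, rfl⟩
    exact ⟨i, i.2, rfl⟩
  · rintro ⟨i, hi, rfl⟩
    exact ⟨⟨i, hi⟩, rfl⟩

theorem mem_A {z : ZFSet.{0}} : z ∈ AS XS M G ↔ ∃ n b, z = sk M G n b := by
  rw [mem_AS]
  constructor
  · rintro ⟨⟨n, b⟩, rfl⟩
    exact ⟨n, b, rfl⟩
  · rintro ⟨n, b, rfl⟩
    exact ⟨(n, b), rfl⟩

theorem sk_mem_A (n : ℕ) (b : Bool) : sk M G n b ∈ AS XS M G := mem_A.2 ⟨n, b, rfl⟩

/-- The indices of a finite sequence of choices. -/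
noncomputable def ix (n : ℕ) (f : ℕ → Bool) : Finset XS.ι :=
  (Finset.range n).image fun i => ((i, f i) : ℕ × Bool)

theorem ST_FS {n : ℕ} {f : ℕ → Bool} : ST M G n f = FS XS M G (ix n f) := by
  ext z
  rw [mem_ST, mem_FS]
  constructor
  · rintro ⟨i, hi, rfl⟩
    exact ⟨(i, f i), Finset.mem_image.2 ⟨i, Finset.mem_range.2 hi, rfl⟩, rfl⟩
  · rintro ⟨a, ha, rfl⟩
    obtain ⟨i, hi, rfl⟩ := Finset.mem_image.1 ha
    exact ⟨i, Finset.mem_range.1 hi, rfl⟩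

theorem ST_congr {n : ℕ} {f g : ℕ → Bool} (h : ∀ i < n, f i = g i) :
    ST M G n f = ST M G n g := by
  ext z
  rw [mem_ST, mem_ST]
  constructor
  · rintro ⟨i, hi, rfl⟩
    exact ⟨i, hi, by rw [h i hi]⟩
  · rintro ⟨i, hi, rfl⟩
    exact ⟨i, hi, by rw [h i hi]⟩

variable (hM : IsZF M) (hG : IsGeneric M (PP XS M) (Lf (PP XS M)) G)

include hM hG

theorem zfNS : IsZF (NN XS M G) := zfN hM (in_XS hM) hG

theorem sk_inj {n m : ℕ} {b c : Bool} : sk M G n b = sk M G m c ↔ n = m ∧ b = c := by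
  rw [sk, sk, AA_inj hM (in_XS hM) hG]
  exact Prod.mk.injEq _ _ _ _ ▸ Iff.rfl

theorem ap_LB (n : ℕ) (b : Bool) : ap (LB XS M G) (sk M G n b) = nat n := by
  refine ap_unique fun q => ?_
  constructor
  · rintro ⟨h1, h2⟩
    obtain ⟨⟨m, c⟩, rfl⟩ := mem_LB.1 h1
    rw [fs_pair] at h2
    have h3 : sk M G m c = sk M G n b := h2
    rw [sk_inj hM hG] at h3
    obtain ⟨rfl, rfl⟩ := h3
    rfl
  · rintro rfl
    exact ⟨mem_LB.2 ⟨(n, b), rfl⟩, fs_pair _ _⟩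

theorem sk_mem_ST {n i : ℕ} {f : ℕ → Bool} {b : Bool} : sk M G i b ∈ ST M G n f ↔
    i < n ∧ b = f i := by
  rw [mem_ST]
  constructor
  · rintro ⟨j, hj, h⟩
    rw [sk_inj hM hG] at h
    obtain ⟨rfl, rfl⟩ := h
    exact ⟨hj, rfl⟩
  · rintro ⟨h, rfl⟩
    exact ⟨i, h, rfl⟩

theorem ST_sub {n m : ℕ} {f g : ℕ → Bool} : ST M G n f ⊆ ST M G m g ↔
    n ≤ m ∧ ∀ i < n, f i = g i := by
  constructor
  · intro h
    have h1 : ∀ i < n, i < m ∧ f i = g i := fun i hi =>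
      (sk_mem_ST hM hG).1 (h ((sk_mem_ST hM hG).2 ⟨hi, rfl⟩))
    refine ⟨?_, fun i hi => (h1 i hi).2⟩
    by_contra hcon
    have := (h1 m (by omega)).1
    omega
  · rintro ⟨h1, h2⟩ z hz
    obtain ⟨i, hi, rfl⟩ := mem_ST.1 hz
    exact (sk_mem_ST hM hG).2 ⟨by omega, h2 i hi⟩

theorem mem_EE {s : ZFSet.{0}} : s ∈ EE M G ↔ ∃ n f, s = ST M G n f := by
  rw [EE, ZFSet.mem_sep, mem_pwM]
  constructor
  · rintro ⟨⟨hs, hsA⟩, n, hn, h1, h2, h3⟩
    obtain ⟨k, rfl⟩ := mem_omega_iff.1 hn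
    classical
    have h4 : ∀ i b, sk M G i b ∈ s → i < k ∧ b = decide (sk M G i true ∈ s) := by
      intro i b hb
      have h5 := h1 _ hb
      rw [ap_LB hM hG, nat_mem_iff] at h5
      refine ⟨h5, ?_⟩
      cases b
      · by_contra hcon
        have h6 : sk M G i true ∈ s := by
          by_contra h6
          exact hcon (by simp [h6])
        have h7 := h3 _ hb _ h6 (by rw [ap_LB hM hG, ap_LB hM hG])
        rw [sk_inj hM hG] at h7
        exact absurd h7.2 (by simp)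
      · simp [hb]
    refine ⟨k, fun i => decide (sk M G i true ∈ s), ?_⟩
    ext z
    rw [mem_ST]
    constructor
    · intro hz
      obtain ⟨i, b, rfl⟩ := mem_A.1 (hsA hz)
      obtain ⟨h5, h6⟩ := h4 i b hz
      exact ⟨i, h5, by rw [← h6]⟩
    · rintro ⟨i, hi, rfl⟩
      obtain ⟨x, hx, h5⟩ := h2 (nat i) (nat_mem_iff.2 hi)
      obtain ⟨j, b, rfl⟩ := mem_A.1 (hsA hx)
      rw [ap_LB hM hG] at h5
      have h6 := nat_injective h5
      subst h6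
      rw [← (h4 j b hx).2]
      exact hx
  · rintro ⟨n, f, rfl⟩
    refine ⟨⟨?_, fun z hz => ?_⟩, nat n, nat_mem_omega n, fun x hx => ?_, fun m hm => ?_,
      fun x hx y hy hxy => ?_⟩
    · rw [ST_FS]
      exact FS_mem hM (in_XS hM) hG _
    · obtain ⟨i, -, rfl⟩ := mem_ST.1 hz
      exact sk_mem_A _ _
    · obtain ⟨i, hi, rfl⟩ := mem_ST.1 hx
      rw [ap_LB hM hG]
      exact nat_mem_iff.2 hi
    · obtain ⟨i, hi, rfl⟩ := mem_nat.1 hm
      exact ⟨_, mem_ST.2 ⟨i, hi, rfl⟩, ap_LB hM hG _ _⟩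
    · obtain ⟨i, hi, rfl⟩ := mem_ST.1 hx
      obtain ⟨j, hj, rfl⟩ := mem_ST.1 hy
      rw [ap_LB hM hG, ap_LB hM hG] at hxy
      rw [nat_injective hxy]

theorem dfn_lb {n : ℕ} {F : (Fin n → ZFSet.{0}) → ZFSet.{0}}
    (hF : DfnF (NN XS M G) (NN XS M G) F) :
    DfnF (NN XS M G) (NN XS M G) fun v => ap (LB XS M G) (F v) :=
  (zfNS hM hG).ap' (DfnF.const (LB_mem hM (in_XS hM) hG)) hF

theorem EE_mem : EE M G ∈ NN XS M G := by
  have hN := zfNS hM hG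
  have hB := hN.base
  refine hN.sep_mem (Q := SC M G) ?_ (pwM_mem hN (AS_mem hM (in_XS hM) hG))
  unfold SC
  refine hB.bex (Q := fun n w => (∀ x ∈ w 0, ap (LB XS M G) x ∈ n) ∧
    (∀ m ∈ n, ∃ x ∈ w 0, ap (LB XS M G) x = m) ∧
    ∀ x ∈ w 0, ∀ y ∈ w 0, ap (LB XS M G) x = ap (LB XS M G) y → x = y)
    (DfnF.const hN.infinity) ?_
  refine Dfn.and ?_ (Dfn.and ?_ ?_)
  · refine hB.ball (Q := fun x w => ap (LB XS M G) x ∈ w 0) (DfnF.proj 1) ?_
    exact Dfn.mem (dfn_lb hM hG (DfnF.proj 0)) (DfnF.proj 1)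
  · refine hB.ball (Q := fun m w => ∃ x ∈ w 1, ap (LB XS M G) x = m) (DfnF.proj 0) ?_
    refine hB.bex (Q := fun x w => ap (LB XS M G) x = w 0) (DfnF.proj 2) ?_
    exact Dfn.eq (dfn_lb hM hG (DfnF.proj 0)) (DfnF.proj 1)
  · refine hB.ball (Q := fun x w => ∀ y ∈ w 1, ap (LB XS M G) x = ap (LB XS M G) y → x = y)
      (DfnF.proj 1) ?_
    refine hB.ball (Q := fun y w => ap (LB XS M G) (w 0) = ap (LB XS M G) y → w 0 = y)
      (DfnF.proj 2) ?_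
    exact (Dfn.eq (dfn_lb hM hG (DfnF.proj 1)) (dfn_lb hM hG (DfnF.proj 0))).imp
      (Dfn.eq (DfnF.proj 1) (DfnF.proj 0))

theorem ST_mem (n : ℕ) (f : ℕ → Bool) : ST M G n f ∈ EE M G := (mem_EE hM hG).2 ⟨n, f, rfl⟩

theorem ST_LL {n m : ℕ} {f g : ℕ → Bool} : pair (ST M G n f) (ST M G m g) ∈ Lf (EE M G) ↔
    m ≤ n ∧ ∀ i < m, g i = f i := by
  rw [mem_Lf, ST_sub hM hG]
  exact ⟨fun h => h.2.2, fun h => ⟨ST_mem hM hG n f, ST_mem hM hG m g, h⟩⟩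

theorem empty_EE : (∅ : ZFSet.{0}) ∈ EE M G := by
  have h : ST M G 0 (fun _ => true) = ∅ := by
    refine (ZFSet.eq_empty _).2 fun z hz => ?_
    obtain ⟨i, hi, -⟩ := mem_ST.1 hz
    omega
  rw [← h]
  exact ST_mem hM hG _ _

/-- The notion of forcing. -/
theorem fo : Fo (NN XS M G) (EE M G) (Lf (EE M G)) ∅ where
  fo := by
    have hN := zfNS hM hG
    refine ⟨EE_mem hM hG, ?_, fun p hp => mem_Lf.2 ⟨hp, hp, fun _ h => h⟩,
      fun p hp q hq r hr h1 h2 => ?_, ⟨∅, empty_EE hM hG, fun p hp => mem_Lf.2 ⟨hp,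
        empty_EE hM hG, fun z hz => absurd hz (ZFSet.notMem_empty _)⟩⟩⟩
    · refine hN.sep_mem (Q := fun u => sn u ⊆ fs u) ?_
        (hN.prod_mem (EE_mem hM hG) (EE_mem hM hG))
      exact hN.base.subset' (hN.sn' (DfnF.proj 0)) (hN.fs' (DfnF.proj 0))
    · rw [mem_Lf] at h1 h2 ⊢
      exact ⟨hr, hp, fun _ h => h1.2.2 (h2.2.2 h)⟩
  sub := by
    intro u hu
    obtain ⟨a, ha, b, hb, rfl⟩ := ZFSet.mem_prod.1 (ZFSet.mem_sep.1 hu).1
    exact ⟨a, ha, b, hb, rfl⟩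
  top := empty_EE hM hG
  le e he := mem_Lf.2 ⟨he, empty_EE hM hG, fun z hz => absurd hz (ZFSet.notMem_empty _)⟩

end

end Pool.Agent.H158_HM.Sock
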