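import Pool.Agent.H158_IT.LimN

/-!
# The iteration theorem for the third chain condition in countable transitive models of ZF + DC
-/

set_option autoImplicit false
set_option linter.all false

namespace Pool.Agent.H158_IT

open Pool.Agent.W868 (IsZF IsInj ap nat mem_omega_iff)
open Pool.Agent.W868.GM (IsForcing IsGeneric ev ext)
open ZFSet (pair)

/-- Sets with at most one element are countable. -/
theorem isCtble_sub {N : Set ZFSet.{0}} (hN : IsZF N) {C : ZFSet.{0}} (hC : C ∈ N)
    (h : ∀ x ∈ C, ∀ y ∈ C, x = y) : IsCtble N C := by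
  have h0 : (∅ : ZFSet.{0}) ∈ ZFSet.omega := ZFSet.omega_zero
  have h2 : (∅ : ZFSet.{0}) ∈ N := hN.trans _ hN.infinity _ h0
  have h1 : ({∅} : ZFSet.{0}) ∈ N := by
    have h3 := hN.pairing ∅ h2 ∅ h2
    have h4 : ({∅, ∅} : ZFSet.{0}) = {∅} := by
      ext z
      simp
    rwa [h4] at h3
  refine ⟨ZFSet.prod C {∅}, hN.prod_mem hC h1, ⟨fun u hu => ?_, fun z hz => ⟨∅, ?_, fun y hy => ?_⟩⟩,
    fun a b c ha hb => ?_⟩
  · obtain ⟨a, ha, b, hb, rfl⟩ := ZFSet.mem_prod.1 hu
    rw [ZFSet.mem_singleton] at hb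
    subst hb
    exact ZFSet.pair_mem_prod.2 ⟨ha, h0⟩
  · exact ZFSet.pair_mem_prod.2 ⟨hz, ZFSet.mem_singleton.2 rfl⟩
  · exact ZFSet.mem_singleton.1 (ZFSet.pair_mem_prod.1 hy).2
  · exact h a (ZFSet.pair_mem_prod.1 ha).1 b (ZFSet.pair_mem_prod.1 hb).1

/-- In countable transitive models of ZF + DC the iteration theorem for the third chain condition
holds. -/
theorem it_ccc3 {N : Set ZFSet.{0}} (hct : N.Countable) (hN : IsZF N) (hDC : DC N) :
    IT CCC3 N := by
  intro δ P L Q R O T hI hQ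
  haveI : Fact (IsZF N) := ⟨hN⟩
  suffices h : ∀ α : ZFSet.{0}, α ∈ (insert δ δ : ZFSet.{0}) → CCC3 N (ap P α) (ap L α) from
    h δ (ZFSet.mem_insert_iff.2 (Or.inl rfl))
  intro α
  induction α using ZFSet.inductionOn with
  | _ α ih =>
    intro hα
    have hα' := hI.ordα hα
    by_cases hne : ∃ x, x ∈ α
    · by_cases hlim : ∀ x ∈ α, insert x x ∈ α
      · exact Helper672.ZFA.H158IT.lim_step hI hct hDC hα hne hlim fun k hk =>
          ih k hk (hI.le hα hk)
      · push Not at hlim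
        obtain ⟨β, hβ, h1⟩ := hlim
        have h2 : (insert β β : ZFSet.{0}) = α := by
          rcases (ZFSet.isOrdinal_succ (hα'.mem hβ)).mem_trichotomous hα' with h3 | h3 | h3
          · exact absurd h3 h1
          · exact h3
          · rcases ZFSet.mem_insert_iff.1 h3 with rfl | h4
            · exact absurd hβ (ZFSet.mem_irrefl _)
            · exact absurd h4 (ZFSet.mem_asymm hβ)
        have hβδ := hI.lt hα hβ
        rw [← h2]
        exact Helper672.ZFA.H158IT.succ_step hI hct hDC hβδ (ih β hβ (hI.le hα hβ)) (hQ β hβδ)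
    · intro D hD hDp
      refine ⟨D, hD, fun _ h => h, hDp, isCtble_sub hN hD fun x hx y hy => ?_⟩
      refine (hI.fn hα (hDp.1 hx)).ext (hI.fn hα (hDp.1 hy)) fun z hz => ?_
      exact absurd ⟨z, hz⟩ hne

end Pool.Agent.H158_IT
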