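import Pool.Agent.H158_IT.Sock
import Pool.Agent.H158_IT.Thm

/-!
# A model in which the iteration theorems fail
-/

set_option autoImplicit false
set_option linter.all false

namespace Pool.Agent.H158_HM.Sock

open Pool.Agent.W868 Pool.Agent.W868.GM Pool.Agent.Y588 Pool.Agent.H158_HM
open Pool.Agent.H158_IT (IsCtble CCC1 CCC2 CCC3 IsPredense IsAntichain Cmp Fo IT isCtble_sub
  not_it DC)
open ZFSet (pair)

/-- Finite sets are countable. -/
theorem isCtble_fi {N : Set ZFSet.{0}} (hN : IsZF N) {Y : ZFSet.{0}} (h : Fi Y)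
    (hY : ∀ x ∈ Y, x ∈ N) : IsCtble N Y := by
  classical
  have h1 : ∀ s : Finset ZFSet.{0}, (∀ x ∈ s, x ∈ N) → ∀ q : ZFSet.{0},
      (∀ x, x ∈ q ↔ x ∈ s) → IsCtble N q := by
    intro s
    induction s using Finset.induction_on with
    | empty =>
      intro _ q hq
      refine isCtble_sub hN (fin_mem hN ?_ fun x hx => absurd ((hq x).1 hx)
        (Finset.notMem_empty x)) fun x hx => absurd ((hq x).1 hx) (Finset.notMem_empty x)
      refine Set.Finite.subset Set.finite_empty fun x hx => ?_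
      exact absurd ((hq x).1 hx) (Finset.notMem_empty x)
    | insert x s hx ih =>
      intro hs q hq
      have h2 := ih (fun y hy => hs y (Finset.mem_insert_of_mem hy))
        (ZFSet.sep (fun y => y ∈ s) q) (by
          intro y
          rw [ZFSet.mem_sep, hq, Finset.mem_insert]
          tauto)
      have h3 : q = insert x (ZFSet.sep (fun y => y ∈ s) q) := by
        ext y
        rw [ZFSet.mem_insert_iff, ZFSet.mem_sep, hq, Finset.mem_insert]
        tauto
      rw [h3]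
      exact h2.insert' hN (hs x (Finset.mem_insert_self x s))
  exact h1 h.toFinset (fun x hx => hY x (h.mem_toFinset.1 hx)) Y
    fun x => (h.mem_toFinset).symm

/-- The permutation that changes the choices `f` to the choices `g`, for the labels below `n`. -/
def flip (n : ℕ) (f g : ℕ → Bool) (x : ℕ × Bool) : ℕ × Bool :=
  (x.1, if x.1 < n then xor x.2 (xor (f x.1) (g x.1)) else x.2)

theorem flip_flip (n : ℕ) (f g : ℕ → Bool) (x : ℕ × Bool) : flip n f g (flip n f g x) = x := by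
  obtain ⟨i, b⟩ := x
  unfold flip
  by_cases h : i < n
  · simp only [h, if_true]
    cases b <;> cases f i <;> cases g i <;> rfl
  · simp only [h, if_false]

/-- The permutation as a permutation of the indices. -/
def flipE (n : ℕ) (f g : ℕ → Bool) : Equiv.Perm XS.ι where
  toFun := flip n f g
  invFun := flip n f g
  left_inv := flip_flip n f g
  right_inv := flip_flip n f g

section

variable {M : Set ZFSet.{0}} {G : ZFSet.{0}} (hM : IsZF M)
  (hG : IsGeneric M (PP XS M) (Lf (PP XS M)) G)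

include hM

theorem flip_gp (n : ℕ) (f g : ℕ → Bool) : gp (flipE n f g) ∈ M := by
  refine gp_fin hM (in_XS hM) (s := (Finset.range n) ×ˢ (Finset.univ : Finset Bool))
    fun a ha => ?_
  obtain ⟨i, b⟩ := a
  have h1 : ¬ i < n := by
    intro h
    exact ha (Finset.mem_product.2 ⟨Finset.mem_range.2 h, Finset.mem_univ _⟩)
  show flip n f g (i, b) = (i, b)
  unfold flip
  simp only [h1, if_false]

include hG

/-- Homogeneity of sets of finite sequences of choices. -/
theorem hom_ST {D : ZFSet.{0}} (hD : D ∈ NN XS M G) : ∃ k : ℕ, ∀ n f g,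
    (∀ i < k, f i = g i) → ST M G n f ∈ D → ST M G n g ∈ D := by
  obtain ⟨e, he⟩ := hom_fin hM (in_XS hM) hG hD
  refine ⟨(e.sup fun a : XS.ι => (show ℕ × Bool from a).1) + 1, fun n f g hfg h => ?_⟩
  have h1 := he (flipE n f g) (flip_gp hM n f g) (fun _ => rfl) (fun a ha => by
    have h2 := Finset.le_sup (f := fun a : XS.ι => (show ℕ × Bool from a).1) ha
    obtain ⟨i, b⟩ := a
    have h3 : f i = g i := hfg i (by
      have h4 : i ≤ e.sup fun a : XS.ι => (show ℕ × Bool from a).1 := h2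
      omega)
    show flip n f g (i, b) = (i, b)
    unfold flip
    by_cases h : i < n
    · simp [h, h3]
    · simp [h]) (ix n f) (by rwa [← ST_FS])
  have h2 : (ix n f).image (flipE n f g) = ix n g := by
    ext a
    rw [Finset.mem_image, ix, ix, Finset.mem_image]
    constructor
    · rintro ⟨b, hb, rfl⟩
      obtain ⟨i, hi, rfl⟩ := Finset.mem_image.1 hb
      refine ⟨i, hi, ?_⟩
      show ((i, g i) : ℕ × Bool) = flip n f g (i, f i)
      unfold flip
      simp only [Finset.mem_range.1 hi, if_true]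
      cases f i <;> cases g i <;> rfl
    · rintro ⟨i, hi, rfl⟩
      refine ⟨_, Finset.mem_image.2 ⟨i, hi, rfl⟩, ?_⟩
      show flip n f g (i, f i) = ((i, g i) : ℕ × Bool)
      unfold flip
      simp only [Finset.mem_range.1 hi, if_true]
      cases f i <;> cases g i <;> rfl
  rwa [h2, ← ST_FS] at h1

/-- Every predense set contains a finite predense set. -/
theorem ccc3 : CCC3 (NN XS M G) (EE M G) (Lf (EE M G)) := by
  classical
  intro D hD hDp
  have hN := zfNS hM hG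
  obtain ⟨k, hk⟩ := hom_ST hM hG hD
  have h1 : ∀ t : Fin k → Bool, ∃ n g, ST M G n g ∈ D ∧ ∀ i (hi : i < k), i < n →
      t ⟨i, hi⟩ = g i := by
    intro t
    obtain ⟨d, hd, r, hr, h2, h3⟩ := hDp.2 (ST M G k fun i => if h : i < k then t ⟨i, h⟩ else false)
      (ST_mem hM hG _ _)
    obtain ⟨n, g, rfl⟩ := (mem_EE hM hG).1 (hDp.1 hd)
    obtain ⟨l, f, rfl⟩ := (mem_EE hM hG).1 hr
    rw [ST_LL hM hG] at h2 h3
    refine ⟨n, g, hd, fun i hi hin => ?_⟩
    have h4 := h2.2 i hi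
    rw [dif_pos hi] at h4
    rw [h4, h3.2 i hin]
  choose n g hgD hg using h1
  set m := Finset.univ.sup n with hm
  set C : ZFSet.{0} := ZFSet.sep (fun d => ∃ l ≤ m, ∃ f, d = ST M G l f) D with hC
  have hCf : Fi C := by
    have h2 : {z | ∃ u ∈ ((Finset.range m) ×ˢ (Finset.univ : Finset Bool)).powerset,
        z = FS XS M G u}.Finite := by
      refine (Set.Finite.image (fun u => FS XS M G u) (Finset.finite_toSet
        ((Finset.range m) ×ˢ (Finset.univ : Finset Bool)).powerset)).subset ?_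
      rintro z ⟨u, hu, rfl⟩
      exact ⟨u, hu, rfl⟩
    refine h2.subset ?_
    intro z hz
    obtain ⟨-, l, hl, f, rfl⟩ := ZFSet.mem_sep.1 hz
    refine ⟨ix l f, Finset.mem_powerset.2 fun a ha => ?_, ST_FS⟩
    obtain ⟨i, hi, rfl⟩ := Finset.mem_image.1 ha
    have h3 := Finset.mem_range.1 hi
    exact Finset.mem_product.2 ⟨Finset.mem_range.2 (by omega), Finset.mem_univ _⟩
  have hCD : C ⊆ D := fun z hz => (ZFSet.mem_sep.1 hz).1
  have hCN : ∀ x ∈ C, x ∈ NN XS M G := fun x hx => hN.trans _ hD _ (hCD hx)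
  refine ⟨C, fin_mem hN hCf hCN, hCD, ⟨fun z hz => hDp.1 (hCD hz), fun p hp => ?_⟩,
    isCtble_fi hN hCf hCN⟩
  obtain ⟨l, f, rfl⟩ := (mem_EE hM hG).1 hp
  set t : Fin k → Bool := fun i => f i with ht
  have h2 : ST M G (n t) (fun i => if i < k then g t i else f i) ∈ D := by
    refine hk (n t) (g t) _ (fun i hi => ?_) (hgD t)
    simp only [hi, if_true]
  have h3 : ST M G (n t) (fun i => if i < k then g t i else f i) = ST M G (n t) f := by
    refine ST_congr fun i hi => ?_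
    by_cases h : i < k
    · simp only [h, if_true]
      exact (hg t i h hi).symm
    · simp only [h, if_false]
  rw [h3] at h2
  have h4 : n t ≤ m := Finset.le_sup (Finset.mem_univ t)
  refine ⟨ST M G (n t) f, ZFSet.mem_sep.2 ⟨h2, n t, h4, f, rfl⟩, ST M G (max l (n t)) f,
    ST_mem hM hG _ _, (ST_LL hM hG).2 ⟨by omega, fun _ _ => rfl⟩,
    (ST_LL hM hG).2 ⟨by omega, fun _ _ => rfl⟩⟩

/-- The generic set is uncountable in the model. -/
theorem unc : ¬ IsCtble (NN XS M G) (AS XS M G) := by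
  rintro ⟨f, hf, ⟨⟨h1, h2⟩, h3⟩⟩
  have hN := zfNS hM hG
  have hB := hN.base
  have hA := AS_mem hM (in_XS hM) hG
  obtain ⟨e, he⟩ := hom hM (in_XS hM) hG (k := 1) (Q := fun v : Fin 1 → ZFSet.{0} =>
    ∃ m ∈ ZFSet.omega, pair (v 0) m ∈ f ∧ ∀ y ∈ AS XS M G,
      ap (LB XS M G) y = ap (LB XS M G) (v 0) → ¬ y = v 0 →
        ∃ m' ∈ ZFSet.omega, pair y m' ∈ f ∧ m ∈ m') (by
    refine hB.bex (Q := fun m v => pair (v 0) m ∈ f ∧ ∀ y ∈ AS XS M G,
      ap (LB XS M G) y = ap (LB XS M G) (v 0) → ¬ y = v 0 →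
        ∃ m' ∈ ZFSet.omega, pair y m' ∈ f ∧ m ∈ m') (DfnF.const hN.infinity) ?_
    refine (Dfn.mem (hB.pair' (DfnF.proj 1) (DfnF.proj 0)) (DfnF.const hf)).and ?_
    refine hB.ball (Q := fun y w => ap (LB XS M G) y = ap (LB XS M G) (w 1) → ¬ y = w 1 →
        ∃ m' ∈ ZFSet.omega, pair y m' ∈ f ∧ w 0 ∈ m') (DfnF.const hA) ?_
    refine (Dfn.eq (dfn_lb hM hG (DfnF.proj 0)) (dfn_lb hM hG (DfnF.proj 2))).imp ?_
    refine (Dfn.eq (DfnF.proj 0) (DfnF.proj 2)).not.imp ?_
    refine hB.bex (Q := fun m' w => pair (w 0) m' ∈ f ∧ w 1 ∈ m') (DfnF.const hN.infinity) ?_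
    exact (Dfn.mem (hB.pair' (DfnF.proj 1) (DfnF.proj 0)) (DfnF.const hf)).and
      (Dfn.mem (DfnF.proj 2) (DfnF.proj 0)))
  set n := (e.sup fun a : XS.ι => (show ℕ × Bool from a).1) + 1 with hn
  -- the permutation of the pair with the label `n`
  have key : ∀ b, (∃ m ∈ ZFSet.omega, pair (sk M G n b) m ∈ f ∧ ∀ y ∈ AS XS M G,
      ap (LB XS M G) y = ap (LB XS M G) (sk M G n b) → ¬ y = sk M G n b →
        ∃ m' ∈ ZFSet.omega, pair y m' ∈ f ∧ m ∈ m') → (∃ m ∈ ZFSet.omega,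
      pair (sk M G n (!b)) m ∈ f ∧ ∀ y ∈ AS XS M G,
      ap (LB XS M G) y = ap (LB XS M G) (sk M G n (!b)) → ¬ y = sk M G n (!b) →
        ∃ m' ∈ ZFSet.omega, pair y m' ∈ f ∧ m ∈ m') := by
    intro b hb
    have h4 := he (flipE (n + 1) (fun _ => false) (fun i => decide (i = n)))
      (flip_gp hM _ _ _) (fun _ => rfl) (fun a ha => by
        have h2 := Finset.le_sup (f := fun a : XS.ι => (show ℕ × Bool from a).1) ha
        obtain ⟨i, c⟩ := a
        have h4 : i ≤ e.sup fun a : XS.ι => (show ℕ × Bool from a).1 := h2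
        have h5 : ¬ i = n := by omega
        show flip (n + 1) (fun _ => false) (fun i => decide (i = n)) (i, c) = (i, c)
        unfold flip
        simp [h5]) (fun _ => ((n, b) : ℕ × Bool)) hb
    have h5 : AA XS M G (flipE (n + 1) (fun _ => false) (fun i => decide (i = n))
        ((n, b) : ℕ × Bool)) = sk M G n (!b) := by
      have h6 : flipE (n + 1) (fun _ => false) (fun i => decide (i = n))
        ((n, b) : ℕ × Bool) = ((n, !b) : ℕ × Bool) := by
        show flip (n + 1) (fun _ => false) (fun i => decide (i = n)) (n, b) = (n, !b)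
        unfold flip
        simp
      rw [h6]
      rfl
    dsimp only at h4
    rw [h5] at h4
    exact h4
  have hv : ∀ b, ∃ m ∈ ZFSet.omega, pair (sk M G n b) m ∈ f ∧
      ∀ m', pair (sk M G n b) m' ∈ f → m' = m := by
    intro b
    obtain ⟨m, hm, hm'⟩ := h2 _ (sk_mem_A n b)
    exact ⟨m, (ZFSet.pair_mem_prod.1 (h1 hm)).2, hm, hm'⟩
  -- the smaller element of the pair
  have key2 : ∀ b m m', pair (sk M G n b) m ∈ f → pair (sk M G n (!b)) m' ∈ f → m ∈ m' →
      False := by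
    intro b m m' hm hm' hmm
    have hmω := (ZFSet.pair_mem_prod.1 (h1 hm)).2
    have hmω' := (ZFSet.pair_mem_prod.1 (h1 hm')).2
    obtain ⟨m2, hm2, h4, h5⟩ := key b ⟨m, hmω, hm, fun y hy hly hne => by
      obtain ⟨i, c, rfl⟩ := mem_A.1 hy
      rw [ap_LB hM hG, ap_LB hM hG] at hly
      have h6 := nat_injective hly
      subst h6
      have h7 : c = !b := by
        by_contra hcon
        apply hne
        have : c = b := by
          cases c <;> cases b <;> simp_all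
        rw [this]
      subst h7
      exact ⟨m', hmω', hm', hmm⟩⟩
    obtain ⟨m3, hm3, h6, h7⟩ := h5 (sk M G n b) (sk_mem_A n b) (by
      rw [ap_LB hM hG, ap_LB hM hG]) (by
      rw [sk_inj hM hG]
      rintro ⟨-, h⟩
      cases b <;> simp at h)
    obtain ⟨a, -, ha, hu⟩ := hv b
    obtain ⟨c, -, hc, hu'⟩ := hv (!b)
    have e1 : m3 = m := (hu _ h6).trans (hu _ hm).symm
    have e2 : m2 = m' := (hu' _ h4).trans (hu' _ hm').symm
    subst e1
    subst e2
    exact ZFSet.mem_asymm hmm h7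
  obtain ⟨a, haω, ha, -⟩ := hv true
  obtain ⟨b, hbω, hb, -⟩ := hv false
  obtain ⟨i, rfl⟩ := mem_omega_iff.1 haω
  obtain ⟨j, rfl⟩ := mem_omega_iff.1 hbω
  rcases lt_trichotomy i j with h | h | h
  · exact key2 true _ _ ha hb (nat_mem_iff.2 h)
  · subst h
    have h4 := h3 _ _ _ ha hb
    rw [sk_inj hM hG] at h4
    exact absurd h4.2 (by simp)
  · exact key2 false _ _ hb ha (nat_mem_iff.2 h)

/-- The generic set becomes countable. -/
theorem ctble_W {W : Set ZFSet.{0}} (hW : IsZF W) (hNW : NN XS M G ⊆ W) {H : ZFSet.{0}}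
    (hHW : H ∈ W) (hH : IsGeneric (NN XS M G) (EE M G) (Lf (EE M G)) H) :
    IsCtble W (AS XS M G) := by
  haveI : Fact (IsZF W) := ⟨hW⟩
  have hN := zfNS hM hG
  have hB := hN.base
  have hA := AS_mem hM (in_XS hM) hG
  have hU : ZFSet.sUnion H ∈ W := hW.union _ hHW
  have hBW := hW.base
  -- for every label one of the elements is in the union
  have h1 : ∀ n, ∃ b, sk M G n b ∈ ZFSet.sUnion H := by
    intro n
    obtain ⟨s, hs, hsH⟩ := hH.meet (ZFSet.sep (fun s => ∃ x ∈ s, ap (LB XS M G) x = nat n)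
      (EE M G)) (by
        refine hN.sep_mem (Q := fun s => ∃ x ∈ s, ap (LB XS M G) x = nat n) ?_ (EE_mem hM hG)
        refine hB.bex (Q := fun x w => ap (LB XS M G) x = nat n) (DfnF.proj 0) ?_
        exact Dfn.eq (dfn_lb hM hG (DfnF.proj 0)) (DfnF.const (hN.nat_mem n)))
      (fun z hz => (ZFSet.mem_sep.1 hz).1) (by
        intro p hp
        obtain ⟨l, f, rfl⟩ := (mem_EE hM hG).1 hp
        refine ⟨ST M G (max l (n + 1)) f, ZFSet.mem_sep.2 ⟨ST_mem hM hG _ _, sk M G n (f n),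
          (sk_mem_ST hM hG).2 ⟨by omega, rfl⟩, ap_LB hM hG _ _⟩,
          (ST_LL hM hG).2 ⟨by omega, fun _ _ => rfl⟩⟩)
    obtain ⟨h2, x, hx, h3⟩ := ZFSet.mem_sep.1 hs
    obtain ⟨l, f, rfl⟩ := (mem_EE hM hG).1 h2
    obtain ⟨i, hi, rfl⟩ := mem_ST.1 hx
    rw [ap_LB hM hG] at h3
    have h4 := nat_injective h3
    subst h4
    exact ⟨f i, ZFSet.mem_sUnion.2 ⟨_, hsH, hx⟩⟩
  -- only one of the elements is in the union
  have h2 : ∀ n b c, sk M G n b ∈ ZFSet.sUnion H → sk M G n c ∈ ZFSet.sUnion H → b = c := by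
    intro n b c hb hc
    obtain ⟨s, hs, hb⟩ := ZFSet.mem_sUnion.1 hb
    obtain ⟨t, ht, hc⟩ := ZFSet.mem_sUnion.1 hc
    obtain ⟨r, hr, h3, h4⟩ := hH.dir s hs t ht
    have h5 := (mem_Lf.1 h3).2.2 hb
    have h6 := (mem_Lf.1 h4).2.2 hc
    obtain ⟨l, f, rfl⟩ := (mem_EE hM hG).1 (hH.sub hr)
    rw [sk_mem_ST hM hG] at h5 h6
    rw [h5.2, h6.2]
  refine Helper672.ZFA.H158IT.isCtble_of_pair (hNW hA) (F1 := fun x => ap (LB XS M G) x)
    (F2 := fun x => ZFSet.sep (fun _ => x ∈ ZFSet.sUnion H) (nat 1)) ?_ ?_ ?_ ?_ ?_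
  · exact hW.ap' (DfnF.const (hNW (LB_mem hM (in_XS hM) hG))) (DfnF.proj 0)
  · exact hW.sep' (Q := fun _ w => w 0 ∈ ZFSet.sUnion H) (DfnF.const (hW.nat_mem 1))
      (Dfn.mem (DfnF.proj 1) (DfnF.const hU))
  · intro x hx
    obtain ⟨n, b, rfl⟩ := mem_A.1 hx
    rw [ap_LB hM hG]
    exact nat_mem_omega n
  · intro x hx
    by_cases h : x ∈ ZFSet.sUnion H
    · have h3 : ZFSet.sep (fun _ => x ∈ ZFSet.sUnion H) (nat 1) = nat 1 := by
        ext z
        rw [ZFSet.mem_sep]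
        exact ⟨fun h => h.1, fun h' => ⟨h', h⟩⟩
      rw [h3]
      exact nat_mem_omega 1
    · have h3 : ZFSet.sep (fun _ => x ∈ ZFSet.sUnion H) (nat 1) = nat 0 := by
        refine (ZFSet.eq_empty _).2 fun z hz => ?_
        exact h (ZFSet.mem_sep.1 hz).2
      rw [h3]
      exact nat_mem_omega 0
  · intro x hx y hy hxy hxy'
    obtain ⟨n, b, rfl⟩ := mem_A.1 hx
    obtain ⟨m, c, rfl⟩ := mem_A.1 hy
    rw [ap_LB hM hG, ap_LB hM hG] at hxy
    have h3 := nat_injective hxy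
    subst h3
    have h4 : sk M G n b ∈ ZFSet.sUnion H ↔ sk M G n c ∈ ZFSet.sUnion H := by
      have h5 : ∀ x : ZFSet.{0}, nat 0 ∈ ZFSet.sep (fun _ => x ∈ ZFSet.sUnion H) (nat 1) ↔
          x ∈ ZFSet.sUnion H := by
        intro x
        rw [ZFSet.mem_sep]
        exact ⟨fun h => h.2, fun h => ⟨nat_mem_iff.2 (by omega), h⟩⟩
      exact (h5 _).symm.trans ((iff_of_eq (congrArg (fun s => nat 0 ∈ s) hxy')).trans (h5 _))
    by_cases h5 : sk M G n b ∈ ZFSet.sUnion H
    · rw [h2 n b c h5 (h4.1 h5)]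
    · obtain ⟨d, hd⟩ := h1 n
      have h6 : ¬ b = d := fun h => h5 (h ▸ hd)
      have h7 : ¬ c = d := fun h => h5 (h4.2 (h ▸ hd))
      have h8 : b = c := by
        cases b <;> cases c <;> cases d <;> simp_all
      rw [h8]

theorem empty_A : (∅ : ZFSet.{0}) ∉ AS XS M G := by
  intro h
  obtain ⟨a, ha⟩ := mem_AS.1 h
  have h1 : CC XS M G (a, 0) ∈ AA XS M G a := (mem_AA hM (in_XS hM) hG).2 ⟨0, rfl⟩
  rw [← ha] at h1
  exact ZFSet.notMem_empty _ h1

end

/-- The iteration theorems for the three chain conditions fail in an extension. -/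
theorem main {M : Set ZFSet.{0}} (hM : IsZF M) (hc : M.Countable) :
    ∃ N : Set ZFSet.{0}, M ⊆ N ∧ N.Countable ∧ IsZF N ∧
      (∀ x : ZFSet.{0}, x.IsOrdinal → (x ∈ N ↔ x ∈ M)) ∧
      ¬ IT CCC1 N ∧ ¬ IT CCC2 N ∧ ¬ IT CCC3 N := by
  have hX := in_XS hM
  obtain ⟨G, hG, -⟩ := exists_gen hc (forcing_PP hM hX) (empty_PP hM)
  have hcN : (NN XS M G).Countable := (hc.mono fun x hx => hx.1).image _
  refine ⟨NN XS M G, subN hM hX hG, hcN, zfN hM hX hG, ?_, ?_⟩
  · exact fun x hx => Pool.Agent.H158_AM.ord_nm hM (forcing_PP hM hX) (symSys hM hX) hG x hx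
  · exact not_it (zfN hM hX hG) hcN (fo hM hG) (AS_mem hM hX hG) (empty_A hM hG)
      ⟨_, sk_mem_A 0 true⟩ (unc hM hG) (ccc3 hM hG)
      fun W hW hNW H hHW hH => ctble_W hM hG hW hNW hHW hH

end Pool.Agent.H158_HM.Sock
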