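import Pool.Agent.W868.Eo
import Pool.Agent.W868.GM.Dfs
import Pool.Agent.Y588.Frc
import Pool.Agent.H635R2.Statement

/-!
# Transitive models of ZF as structures for the language of set theory
-/

set_option autoImplicit false
set_option linter.unreachableTactic false
set_option linter.unusedTactic false
set_option linter.unusedSectionVars false

namespace Pool.Agent.H158_IT

open FirstOrder FirstOrder.Language
open Pool.Agent.W868 Pool.Agent.W868.GM Pool.Agent.Y588
open Pool.Agent.Helper672.Plain (LSet Sym)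
open ZFSet (pair)

/-- The elements of `N`. -/
def Tm (N : Set ZFSet.{0}) : Type 1 := {x : ZFSet.{0} // x ∈ N}

/-- The element `z`. -/
def tm {N : Set ZFSet.{0}} (z : ZFSet.{0}) (hz : z ∈ N) : Tm N := ⟨z, hz⟩

instance instStr (N : Set ZFSet.{0}) : LSet.Structure (Tm N) where
  funMap := fun {_} f => nomatch f
  RelMap := fun {n} r => match n, r with
    | _, Sym.mem => fun v => (v 0).1 ∈ (v 1).1

theorem mem_tm {N : Set ZFSet.{0}} (x y : Tm N) : Helper672.Plain.Mem x y ↔ x.1 ∈ y.1 := Iff.rfl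

section

variable {N : Set ZFSet.{0}} (hN : IsZF N) {A : Set (Tm N)}

/-- The value of a term. -/
theorem dfn_term {k n : ℕ} (t : LSet.Term ((A ⊕ Fin k) ⊕ Fin n)) :
    ∃ F : (Fin (k + n) → ZFSet.{0}) → ZFSet.{0}, DfnF N N F ∧ ∀ w, ∀ hw : ∀ i, w i ∈ N,
      (t.realize (Sum.elim (Sum.elim (fun a => (a.1 : Tm N))
        (fun i => (⟨w (Fin.castAdd n i), hw _⟩ : Tm N)))
        (fun j => (⟨w (Fin.natAdd k j), hw _⟩ : Tm N)))).1 = F w := by
  cases t with
  | var x =>
    rcases x with (a | i) | j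
    · exact ⟨fun _ => a.1.1, DfnF.const a.1.2, fun w hw => rfl⟩
    · exact ⟨fun w => w (Fin.castAdd n i), DfnF.proj _, fun w hw => rfl⟩
    · exact ⟨fun w => w (Fin.natAdd k j), DfnF.proj _, fun w hw => rfl⟩
  | func f ts => exact nomatch f

theorem dfn_realize {k n : ℕ} (ψ : LSet.BoundedFormula (A ⊕ Fin k) n) :
    Dfn N N fun w : Fin (k + n) → ZFSet.{0} => ∀ hw : ∀ i, w i ∈ N,
      ψ.Realize (Sum.elim (fun a => (a.1 : Tm N))
        (fun i => (⟨w (Fin.castAdd n i), hw _⟩ : Tm N)))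
        (fun j => (⟨w (Fin.natAdd k j), hw _⟩ : Tm N)) := by
  induction ψ with
  | falsum => exact (Dfn.prop False).congr fun v hv => ⟨fun h => h.elim, fun h => h hv⟩
  | equal t₁ t₂ =>
    obtain ⟨F, hF, h1⟩ := dfn_term (N := N) t₁
    obtain ⟨F', hF', h1'⟩ := dfn_term (N := N) t₂
    refine (Dfn.eq hF hF').congr fun v hv => ⟨fun h _ => ?_, fun h => ?_⟩
    · refine Subtype.ext ?_
      exact (h1 v hv).trans (h.trans (h1' v hv).symm)
    · have h2 := congrArg Subtype.val (h hv)
      exact (h1 v hv).symm.trans (h2.trans (h1' v hv))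
  | rel R ts =>
    cases R with
    | mem =>
      obtain ⟨F, hF, h1⟩ := dfn_term (N := N) (ts 0)
      obtain ⟨F', hF', h1'⟩ := dfn_term (N := N) (ts 1)
      refine (Dfn.mem hF hF').congr fun v hv => ⟨fun h _ => ?_, fun h => ?_⟩
      · rw [← h1 v hv, ← h1' v hv] at h
        exact h
      · rw [← h1 v hv, ← h1' v hv]
        exact h hv
  | imp φ ψ ih₁ ih₂ =>
    refine (ih₁.imp ih₂).congr fun v hv => ⟨fun h _ h' => h (fun _ => h') hv, fun h h' _ =>
      h hv (h' hv)⟩
  | @all n ψ ih =>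
    have h1 := ih.comp (fun i : Fin (k + (n + 1)) =>
      if h : i.val < k + n then (Fin.succ ⟨i.val, h⟩ : Fin (k + n + 1)) else 0)
    have h2 := Dfn.all (Q := fun a v => ∀ hw : ∀ i : Fin (k + (n + 1)),
      (if h : i.val < k + n then v ⟨i.val, h⟩ else a) ∈ N,
      ψ.Realize (Sum.elim (fun a => (a.1 : Tm N))
        (fun i => (⟨(if h : (Fin.castAdd (n + 1) i).val < k + n then
          v ⟨(Fin.castAdd (n + 1) i).val, h⟩ else a), hw (Fin.castAdd (n + 1) i)⟩ : Tm N)))
        (fun j => (⟨(if h : (Fin.natAdd k j).val < k + n then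
          v ⟨(Fin.natAdd k j).val, h⟩ else a), hw (Fin.natAdd k j)⟩ : Tm N))) (S := N) (M := N)
      (n := k + n) (by
        refine h1.congr fun w hw => ?_
        have key : ∀ i : Fin (k + (n + 1)), w (if h : i.val < k + n then
            (Fin.succ ⟨i.val, h⟩ : Fin (k + n + 1)) else 0) =
            if h : i.val < k + n then Fin.tail w ⟨i.val, h⟩ else w 0 := by
          intro i
          split_ifs with h
          · rfl
          · rfl
        simp only [key])
    refine h2.congr fun v hv => ⟨fun h _ a => ?_, fun h a ha hw => ?_⟩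
    · have h3 := h a.1 a.2 (by
        intro i
        split_ifs
        · exact hv _
        · exact a.2)
      convert h3 using 1
      · funext x
        rcases x with x | x
        · rfl
        · refine Subtype.ext ?_
          have : x.val < k + n := by omega
          simp only [Sum.elim_inr, Fin.val_castAdd, this, dif_pos]
          rfl
      · funext j
        refine Subtype.ext ?_
        refine Fin.lastCases ?_ (fun j => ?_) j
        · simp
        · simp only [Fin.snoc_castSucc, Fin.val_natAdd, Fin.val_castSucc,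
            add_lt_add_iff_left, j.2, dif_pos]
          rfl
    · have h3 := h hv ⟨a, ha⟩
      convert h3 using 1
      · funext x
        rcases x with x | x
        · rfl
        · refine Subtype.ext ?_
          have : x.val < k + n := by omega
          simp only [Sum.elim_inr, Fin.val_castAdd, this, dif_pos]
          rfl
      · funext j
        refine Subtype.ext ?_
        refine Fin.lastCases ?_ (fun j => ?_) j
        · simp
        · simp only [Fin.snoc_castSucc, Fin.val_natAdd, Fin.val_castSucc,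
            add_lt_add_iff_left, j.2, dif_pos]
          rfl

/-- Subsets that are definable with parameters. -/
theorem dfn_of_definable {k : ℕ} {S : Set (Fin k → Tm N)}
    (h : (Set.univ : Set (Tm N)).Definable LSet S) :
    Dfn N N fun w : Fin k → ZFSet.{0} => ∀ hw : ∀ i, w i ∈ N,
      (fun i => (⟨w i, hw i⟩ : Tm N)) ∈ S := by
  obtain ⟨φ, rfl⟩ := Set.definable_iff_exists_formula_sum.1 h
  refine (dfn_realize (N := N) (k := k) (n := 0) φ).congr fun v hv => ⟨fun h _ => ?_,
    fun h hw => ?_⟩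
  · have h1 := h hv
    show φ.Realize _
    unfold Formula.Realize
    refine (iff_of_eq (congrArg₂ (fun a b => BoundedFormula.Realize φ a b) ?_ ?_)).mp h1
    · funext x
      rcases x with x | x <;> rfl
    · funext i
      exact i.elim0
  · have h1 : φ.Realize _ := h hv
    unfold Formula.Realize at h1
    refine (iff_of_eq (congrArg₂ (fun a b => BoundedFormula.Realize φ a b) ?_ ?_)).mp h1
    · funext x
      rcases x with x | x <;> rfl
    · funext i
      exact i.elim0

include hN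

theorem zermelo_tm : Helper672.Plain.Zermelo (Tm N) where
  ext := fun x y h => Subtype.ext (ZFSet.ext fun z => ⟨fun hz =>
    (h ⟨z, hN.trans _ x.2 _ hz⟩).1 hz, fun hz => (h ⟨z, hN.trans _ y.2 _ hz⟩).2 hz⟩)
  pairing := fun x y => ⟨⟨{x.1, y.1}, hN.pairing _ x.2 _ y.2⟩, fun z => by
    rw [mem_tm, ZFSet.mem_pair]
    exact or_congr ⟨fun h => Subtype.ext h, fun h => congrArg Subtype.val h⟩
      ⟨fun h => Subtype.ext h, fun h => congrArg Subtype.val h⟩⟩
  union := fun x => ⟨⟨ZFSet.sUnion x.1, hN.union _ x.2⟩, fun z => by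
    rw [mem_tm, ZFSet.mem_sUnion]
    exact ⟨fun ⟨y, hy, hz⟩ => ⟨⟨y, hN.trans _ x.2 _ hy⟩, hy, hz⟩, fun ⟨y, hy, hz⟩ =>
      ⟨y.1, hy, hz⟩⟩⟩
  power := fun x => by
    obtain ⟨p, hp, h⟩ := hN.power _ x.2
    refine ⟨⟨p, hp⟩, fun z => ?_⟩
    rw [mem_tm, h]
    constructor
    · rintro ⟨-, h1⟩ w hw
      exact h1 hw
    · intro h1
      exact ⟨z.2, fun w hw => h1 ⟨w, hN.trans _ z.2 _ hw⟩ hw⟩
  infinity := ⟨⟨ZFSet.omega, hN.infinity⟩, ⟨⟨∅, hN.trans _ hN.infinity _ ZFSet.omega_zero⟩,
      ZFSet.omega_zero, fun z hz => ZFSet.notMem_empty _ hz⟩, fun n hn => by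
    have h1 : insert n.1 n.1 ∈ ZFSet.omega := ZFSet.omega_succ hn
    refine ⟨⟨insert n.1 n.1, hN.trans _ hN.infinity _ h1⟩, h1, fun z => ?_⟩
    rw [mem_tm, mem_tm, ZFSet.mem_insert_iff, or_comm]
    exact or_congr Iff.rfl ⟨fun h => Subtype.ext h, fun h => congrArg Subtype.val h⟩⟩
  separation := fun S hS x => by
    obtain ⟨φ, h1, h2⟩ := dfn_of_definable hS
    obtain ⟨y, hy, h3⟩ := hN.separation φ h1 _ x.2
    refine ⟨⟨y, hy⟩, fun z => ?_⟩
    rw [mem_tm, h3, mem_tm]
    refine and_congr Iff.rfl ((h2 ![z.1] fun i => ?_).trans ⟨fun h => h ?_, fun h hw => ?_⟩)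
    · rw [Matrix.cons_val_fin_one]
      exact z.2
    · intro i
      rw [Matrix.cons_val_fin_one]
      exact z.2
    · exact h

theorem zf_tm : H635Amen.ZF (Tm N) where
  toZermelo := zermelo_tm hN
  foundation := fun x hx => by
    obtain ⟨y, hy⟩ := hx
    obtain ⟨z, hz, h1⟩ := ZFSet.regularity x.1 (fun h => ZFSet.notMem_empty y.1 (h ▸ hy))
    refine ⟨⟨z, hN.trans _ x.2 _ hz⟩, hz, fun w hw hwz => ?_⟩
    have h2 : w.1 ∈ x.1 ∩ z := ZFSet.mem_inter.2 ⟨hw, hwz⟩
    rw [h1] at h2
    exact ZFSet.notMem_empty _ h2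
  replacement := fun F hF a ha => by
    obtain ⟨φ, h1, h2⟩ := dfn_of_definable hF
    have h4 : ∀ z w (hz : z ∈ N) (hw : w ∈ N), Sat N id φ ![z, w] ↔
        ((⟨z, hz⟩ : Tm N), (⟨w, hw⟩ : Tm N)) ∈ F := by
      intro z w hz hw
      have hv : ∀ i, (![z, w] : Fin 2 → ZFSet.{0}) i ∈ N := by
        intro i
        fin_cases i
        · exact hz
        · exact hw
      exact (h2 ![z, w] hv).trans ⟨fun h => h hv, fun h _ => h⟩
    obtain ⟨y, hy, h3⟩ := hN.replacement φ h1 _ a.2 (by
      intro z hz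
      have hzN := hN.trans _ a.2 _ hz
      obtain ⟨w, hw, hu⟩ := ha ⟨z, hzN⟩ hz
      refine ⟨w.1, ⟨w.2, (h4 z w.1 hzN w.2).2 hw⟩, fun w' hw' => ?_⟩
      exact congrArg Subtype.val (hu ⟨w', hw'.1⟩ ((h4 z w' hzN hw'.1).1 hw'.2)))
    refine ⟨⟨y, hy⟩, fun w => ?_⟩
    rw [mem_tm, h3]
    constructor
    · rintro ⟨-, z, hz, h5⟩
      have hzN := hN.trans _ a.2 _ hz
      exact ⟨⟨z, hzN⟩, hz, (h4 z w.1 hzN w.2).1 h5⟩
    · rintro ⟨z, hz, h5⟩
      exact ⟨w.2, z.1, hz, (h4 z.1 w.1 z.2 w.2).2 h5⟩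

end

end Pool.Agent.H158_IT
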