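import Pool.Agent.H158_IT.Brd

/-!
# The successor step of the iteration theorem, internally
-/

set_option maxHeartbeats 2000000
set_option linter.all false
set_option synthInstance.maxSize 2000

namespace Pool.Agent.Helper672.ZFA.H158IT

open FirstOrder FirstOrder.Language
open H635 (IWO)
open Pool.Agent.H310
open Pool.Agent.H310Cards (App IsOmega IsNat IsInductive)
open Pool.Agent.Helper672.ZFA.V246
open Pool.Agent.Helper672.ZFA.H158CC (ctb_of_inj ctb_comap ctb_prod)
open Pool.Agent.Helper672.Plain (LSet)
open Pool.Agent.H635Amen (ZF)
open Pool.Agent.H158_IT (Tm tm mem_tm zf_tm IsCtble DC)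
open Pool.Agent.W868 (IsZF nat mem_omega_iff)
open ZFSet (pair)

section

attribute [local instance] Helper672.Plain.toL

variable {N : Set ZFSet.{0}} [hN : Fact (IsZF N)]

local instance instModelT2 : IsModel (Tm N) := Helper672.Plain.isModel_toL

/-- Countable choice for countable predicates. -/
theorem ccP (h : DC N) {ι α : Type 1} [ITy (Tm N) ι] [ITy (Tm N) α] {C : ι → Prop}
    (hCI : Int (Tm N) C) (hC : Ctb (Tm N) C) {R : ι → α → Prop}
    (hR : Int (Tm N) fun q : ι × α => R q.1 q.2) (ht : ∀ i, C i → ∃ a, R i a) (a₀ : α) :
    ∃ f : ι → α, IntF (Tm N) f ∧ ∀ i, C i → R i (f i) := by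
  obtain ⟨e, he, h1⟩ := hC
  have hR' : Int (Tm N) fun q : INat (Tm N) × α => ∀ i, C i → e i = q.1 → R i q.2 := by (repeat' (first | with_reducible exact IntF.id | with_reducible exact IntF.fst' | with_reducible exact IntF.snd' | with_reducible exact IntF.const _ | with_reducible exact Int.const _ | assumption | with_reducible apply Int.and | with_reducible apply Int.or | with_reducible apply Int.not | with_reducible apply Int.imp | with_reducible apply Int.iff | with_reducible apply Int.ne | with_reducible apply Int.eq | with_reducible apply Int.mem | with_reducible apply Int.subset | with_reducible apply Int.ltN | with_reducible apply Int.leN | with_reducible_and_instances apply Int.le | with_reducible_and_instances apply Int.lt | with_reducible apply Int.all | with_reducible apply Int.ex | with_reducible apply IntF.fst | with_reducible apply IntF.snd | with_reducible apply IntF.app | with_reducible apply IntF.inl | with_reducible apply IntF.inr | with_reducible_and_instances apply IntF.mul | with_reducible_and_instances apply IntF.inv | with_reducible_and_instances apply IntF.add | with_reducible_and_instances apply IntF.sub | with_reducible_and_instances apply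 IntF.neg | with_reducible_and_instances apply IntF.smul | with_reducible apply Int.fin | with_reducible apply IntF.sep | with_reducible apply IntF.lam | with_reducible apply IntF.insert | with_reducible apply IntF.singleton | with_reducible apply IntF.union | with_reducible apply IntF.iimage | with_reducible apply IntF.ite | with_reducible apply IntF.the | with_reducible apply IntF.irec | with_reducible apply IntF.succ | with_reducible apply IntF.val | with_reducible apply IntF.mk | (with_reducible refine Int.comp ?_ ?_; assumption) | (with_reducible refine Int.comp₂ ?_ ?_ ?_; assumption) | (with_reducible refine Int.comp₃ ?_ ?_ ?_ ?_; assumption) | (with_reducible refine Int.comp₄ ?_ ?_ ?_ ?_ ?_; assumption) | (with_reducible refine IntF.comp ?_ ?_; assumption) | (with_reducible refine IntF.comp₂ ?_ ?_ ?_; assumption) | (with_reducible refine IntF.comp₃ ?_ ?_ ?_ ?_; assumption) | with_reducible apply IntF.pair))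
  obtain ⟨g, hg, h2⟩ := ccI h (R := fun n a => ∀ i, C i → e i = n → R i a) hR' (by
    intro n
    by_cases h3 : ∃ i, C i ∧ e i = n
    · obtain ⟨i, hi, rfl⟩ := h3
      obtain ⟨a, ha⟩ := ht i hi
      refine ⟨a, fun j hj hji => ?_⟩
      rw [h1 j i hj hi hji]
      exact ha
    · exact ⟨a₀, fun i hi hin => absurd ⟨i, hi, hin⟩ h3⟩)
  exact ⟨fun i => g (e i), hg.comp he, fun i hi => h2 _ i hi rfl⟩

variable {P T : Type 1} [ITy (Tm N) P] [ITy (Tm N) T] {le : P → P → Prop}

/-- Codes of names for countable predense sets. -/
def Good (le : P → P → Prop) (W : P → T → T → Prop) (D : P → T → Prop) (p₀ : P)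
    (S : IPow (Tm N) (P × (INat (Tm N) × (P × T)))) : Prop :=
  (∀ q n d r, (q, (n, d)) ∈ S → le r q → (r, (n, d)) ∈ S) ∧
  (∀ q n d, (q, (n, d)) ∈ S → D d.1 d.2 ∧ le q d.1) ∧
  (∀ q n d d', (q, (n, d)) ∈ S → (q, (n, d')) ∈ S → le q p₀ → W q d.2 d'.2) ∧
  (∀ τ q, le q p₀ → ∃ r n d ρ, le r q ∧ (r, (n, d)) ∈ S ∧ W r ρ τ ∧ W r ρ d.2)

theorem suc_ccc (h : DC N) (hle : Int (Tm N) fun q : P × P => le q.1 q.2)
    (hrefl : ∀ p, le p p) (htrans : ∀ p q r, le p q → le q r → le p r)
    (hc : ∀ D : P → Prop, Int (Tm N) D → (∀ p, ∃ d, D d ∧ ∃ r, le r p ∧ le r d) →
      ∃ C : P → Prop, Int (Tm N) C ∧ (∀ p, C p → D p) ∧ Ctb (Tm N) C ∧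
        ∀ p, ∃ d, C d ∧ ∃ r, le r p ∧ le r d)
    {W : P → T → T → Prop} (hW : Int (Tm N) fun q : (P × T) × T => W q.1.1 q.1.2 q.2)
    (hWm : ∀ q r σ τ, le r q → W q σ τ → W r σ τ)
    (hWt : ∀ r ρ σ τ, W r ρ σ → W r σ τ → W r ρ τ)
    {D : P → T → Prop} (hD : Int (Tm N) fun q : P × T => D q.1 q.2) (t₁ : T)
    (hyp : ∀ p, ∃ p₀, le p₀ p ∧ ∃ S : IPow (Tm N) (P × (INat (Tm N) × (P × T))),
      Good le W D p₀ S) :
    ∃ C : P × T → Prop, Int (Tm N) C ∧ (∀ c, C c → D c.1 c.2) ∧ Ctb (Tm N) C ∧
      ∀ p τ, ∃ d, C d ∧ ∃ r ρ, le r p ∧ le r d.1 ∧ W r ρ τ ∧ W r ρ d.2 := by
  have hG1 : Int (Tm N) fun c : P × IPow (Tm N) (P × (INat (Tm N) × (P × T))) =>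
      ∀ q n d r, (q, (n, d)) ∈ c.2 → le r q → (r, (n, d)) ∈ c.2 := by (repeat' (first | with_reducible exact IntF.id | with_reducible exact IntF.fst' | with_reducible exact IntF.snd' | with_reducible exact IntF.const _ | with_reducible exact Int.const _ | assumption | with_reducible apply Int.and | with_reducible apply Int.or | with_reducible apply Int.not | with_reducible apply Int.imp | with_reducible apply Int.iff | with_reducible apply Int.ne | with_reducible apply Int.eq | with_reducible apply Int.mem | with_reducible apply Int.subset | with_reducible apply Int.ltN | with_reducible apply Int.leN | with_reducible_and_instances apply Int.le | with_reducible_and_instances apply Int.lt | with_reducible apply Int.all | with_reducible apply Int.ex | with_reducible apply IntF.fst | with_reducible apply IntF.snd | with_reducible apply IntF.app | with_reducible apply IntF.inl | with_reducible apply IntF.inr | with_reducible_and_instances apply IntF.mul | with_reducible_and_instances apply IntF.inv | with_reducible_and_instances apply IntF.add | with_reducible_and_instances apply IntF.sub | with_reducible_and_instances apply IntF.neg | with_reducible_and_instances apply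 IntF.smul | with_reducible apply Int.fin | with_reducible apply IntF.sep | with_reducible apply IntF.lam | with_reducible apply IntF.insert | with_reducible apply IntF.singleton | with_reducible apply IntF.union | with_reducible apply IntF.iimage | with_reducible apply IntF.ite | with_reducible apply IntF.the | with_reducible apply IntF.irec | with_reducible apply IntF.succ | with_reducible apply IntF.val | with_reducible apply IntF.mk | (with_reducible refine Int.comp ?_ ?_; assumption) | (with_reducible refine Int.comp₂ ?_ ?_ ?_; assumption) | (with_reducible refine Int.comp₃ ?_ ?_ ?_ ?_; assumption) | (with_reducible refine Int.comp₄ ?_ ?_ ?_ ?_ ?_; assumption) | (with_reducible refine IntF.comp ?_ ?_; assumption) | (with_reducible refine IntF.comp₂ ?_ ?_ ?_; assumption) | (with_reducible refine IntF.comp₃ ?_ ?_ ?_ ?_; assumption) | with_reducible apply IntF.pair))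
  have hG2 : Int (Tm N) fun c : P × IPow (Tm N) (P × (INat (Tm N) × (P × T))) =>
      ∀ q n d, (q, (n, d)) ∈ c.2 → D d.1 d.2 ∧ le q d.1 := by (repeat' (first | with_reducible exact IntF.id | with_reducible exact IntF.fst' | with_reducible exact IntF.snd' | with_reducible exact IntF.const _ | with_reducible exact Int.const _ | assumption | with_reducible apply Int.and | with_reducible apply Int.or | with_reducible apply Int.not | with_reducible apply Int.imp | with_reducible apply Int.iff | with_reducible apply Int.ne | with_reducible apply Int.eq | with_reducible apply Int.mem | with_reducible apply Int.subset | with_reducible apply Int.ltN | with_reducible apply Int.leN | with_reducible_and_instances apply Int.le | with_reducible_and_instances apply Int.lt | with_reducible apply Int.all | with_reducible apply Int.ex | with_reducible apply IntF.fst | with_reducible apply IntF.snd | with_reducible apply IntF.app | with_reducible apply IntF.inl | with_reducible apply IntF.inr | with_reducible_and_instances apply IntF.mul | with_reducible_and_instances apply IntF.inv | with_reducible_and_instances apply IntF.add | with_reducible_and_instances apply IntF.sub | with_reducible_and_instances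 apply IntF.neg | with_reducible_and_instances apply IntF.smul | with_reducible apply Int.fin | with_reducible apply IntF.sep | with_reducible apply IntF.lam | with_reducible apply IntF.insert | with_reducible apply IntF.singleton | with_reducible apply IntF.union | with_reducible apply IntF.iimage | with_reducible apply IntF.ite | with_reducible apply IntF.the | with_reducible apply IntF.irec | with_reducible apply IntF.succ | with_reducible apply IntF.val | with_reducible apply IntF.mk | (with_reducible refine Int.comp ?_ ?_; assumption) | (with_reducible refine Int.comp₂ ?_ ?_ ?_; assumption) | (with_reducible refine Int.comp₃ ?_ ?_ ?_ ?_; assumption) | (with_reducible refine Int.comp₄ ?_ ?_ ?_ ?_ ?_; assumption) | (with_reducible refine IntF.comp ?_ ?_; assumption) | (with_reducible refine IntF.comp₂ ?_ ?_ ?_; assumption) | (with_reducible refine IntF.comp₃ ?_ ?_ ?_ ?_; assumption) | with_reducible apply IntF.pair))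
  have hG3 : Int (Tm N) fun c : P × IPow (Tm N) (P × (INat (Tm N) × (P × T))) =>
      ∀ q n d d', (q, (n, d)) ∈ c.2 → (q, (n, d')) ∈ c.2 → le q c.1 → W q d.2 d'.2 := by (repeat' (first | with_reducible exact IntF.id | with_reducible exact IntF.fst' | with_reducible exact IntF.snd' | with_reducible exact IntF.const _ | with_reducible exact Int.const _ | assumption | with_reducible apply Int.and | with_reducible apply Int.or | with_reducible apply Int.not | with_reducible apply Int.imp | with_reducible apply Int.iff | with_reducible apply Int.ne | with_reducible apply Int.eq | with_reducible apply Int.mem | with_reducible apply Int.subset | with_reducible apply Int.ltN | with_reducible apply Int.leN | with_reducible_and_instances apply Int.le | with_reducible_and_instances apply Int.lt | with_reducible apply Int.all | with_reducible apply Int.ex | with_reducible apply IntF.fst | with_reducible apply IntF.snd | with_reducible apply IntF.app | with_reducible apply IntF.inl | with_reducible apply IntF.inr | with_reducible_and_instances apply IntF.mul | with_reducible_and_instances apply IntF.inv | with_reducible_and_instances apply IntF.add | with_reducible_and_instances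 apply IntF.sub | with_reducible_and_instances apply IntF.neg | with_reducible_and_instances apply IntF.smul | with_reducible apply Int.fin | with_reducible apply IntF.sep | with_reducible apply IntF.lam | with_reducible apply IntF.insert | with_reducible apply IntF.singleton | with_reducible apply IntF.union | with_reducible apply IntF.iimage | with_reducible apply IntF.ite | with_reducible apply IntF.the | with_reducible apply IntF.irec | with_reducible apply IntF.succ | with_reducible apply IntF.val | with_reducible apply IntF.mk | (with_reducible refine Int.comp ?_ ?_; assumption) | (with_reducible refine Int.comp₂ ?_ ?_ ?_; assumption) | (with_reducible refine Int.comp₃ ?_ ?_ ?_ ?_; assumption) | (with_reducible refine Int.comp₄ ?_ ?_ ?_ ?_ ?_; assumption) | (with_reducible refine IntF.comp ?_ ?_; assumption) | (with_reducible refine IntF.comp₂ ?_ ?_ ?_; assumption) | (with_reducible refine IntF.comp₃ ?_ ?_ ?_ ?_; assumption) | with_reducible apply IntF.pair))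
  have hG4 : Int (Tm N) fun c : P × IPow (Tm N) (P × (INat (Tm N) × (P × T))) =>
      ∀ τ q, le q c.1 → ∃ r n d ρ, le r q ∧ (r, (n, d)) ∈ c.2 ∧ W r ρ τ ∧ W r ρ d.2 := by (repeat' (first | with_reducible exact IntF.id | with_reducible exact IntF.fst' | with_reducible exact IntF.snd' | with_reducible exact IntF.const _ | with_reducible exact Int.const _ | assumption | with_reducible apply Int.and | with_reducible apply Int.or | with_reducible apply Int.not | with_reducible apply Int.imp | with_reducible apply Int.iff | with_reducible apply Int.ne | with_reducible apply Int.eq | with_reducible apply Int.mem | with_reducible apply Int.subset | with_reducible apply Int.ltN | with_reducible apply Int.leN | with_reducible_and_instances apply Int.le | with_reducible_and_instances apply Int.lt | with_reducible apply Int.all | with_reducible apply Int.ex | with_reducible apply IntF.fst | with_reducible apply IntF.snd | with_reducible apply IntF.app | with_reducible apply IntF.inl | with_reducible apply IntF.inr | with_reducible_and_instances apply IntF.mul | with_reducible_and_instances apply IntF.inv | with_reducible_and_instances apply IntF.add | with_reducible_and_instances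 apply IntF.sub | with_reducible_and_instances apply IntF.neg | with_reducible_and_instances apply IntF.smul | with_reducible apply Int.fin | with_reducible apply IntF.sep | with_reducible apply IntF.lam | with_reducible apply IntF.insert | with_reducible apply IntF.singleton | with_reducible apply IntF.union | with_reducible apply IntF.iimage | with_reducible apply IntF.ite | with_reducible apply IntF.the | with_reducible apply IntF.irec | with_reducible apply IntF.succ | with_reducible apply IntF.val | with_reducible apply IntF.mk | (with_reducible refine Int.comp ?_ ?_; assumption) | (with_reducible refine Int.comp₂ ?_ ?_ ?_; assumption) | (with_reducible refine Int.comp₃ ?_ ?_ ?_ ?_; assumption) | (with_reducible refine Int.comp₄ ?_ ?_ ?_ ?_ ?_; assumption) | (with_reducible refine IntF.comp ?_ ?_; assumption) | (with_reducible refine IntF.comp₂ ?_ ?_ ?_; assumption) | (with_reducible refine IntF.comp₃ ?_ ?_ ?_ ?_; assumption) | with_reducible apply IntF.pair))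
  have hG : Int (Tm N) fun c : P × IPow (Tm N) (P × (INat (Tm N) × (P × T))) =>
      Good le W D c.1 c.2 := hG1.and (hG2.and (hG3.and hG4))
  obtain ⟨good, hgood⟩ : ∃ good : P → IPow (Tm N) (P × (INat (Tm N) × (P × T))) → Prop,
      ∀ p S, good p S ↔ Good le W D p S := ⟨_, fun _ _ => Iff.rfl⟩
  have hgI : Int (Tm N) fun c : P × IPow (Tm N) (P × (INat (Tm N) × (P × T))) =>
      good c.1 c.2 := hG.congr fun c => (hgood _ _).symm
  have hE₀ : Int (Tm N) fun p : P => ∃ S, good p S := by (repeat' (first | with_reducible exact IntF.id | with_reducible exact IntF.fst' | with_reducible exact IntF.snd' | with_reducible exact IntF.const _ | with_reducible exact Int.const _ | assumption | with_reducible apply Int.and | with_reducible apply Int.or | with_reducible apply Int.not | with_reducible apply Int.imp | with_reducible apply Int.iff | with_reducible apply Int.ne | with_reducible apply Int.eq | with_reducible apply Int.mem | with_reducible apply Int.subset | with_reducible apply Int.ltN | with_reducible apply Int.leN | with_reducible_and_instances apply Int.le | with_reducible_and_instances apply Int.lt | with_reducible apply Int.all | with_reducible apply Int.ex |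 with_reducible apply IntF.fst | with_reducible apply IntF.snd | with_reducible apply IntF.app | with_reducible apply IntF.inl | with_reducible apply IntF.inr | with_reducible_and_instances apply IntF.mul | with_reducible_and_instances apply IntF.inv | with_reducible_and_instances apply IntF.add | with_reducible_and_instances apply IntF.sub | with_reducible_and_instances apply IntF.neg | with_reducible_and_instances apply IntF.smul | with_reducible apply Int.fin | with_reducible apply IntF.sep | with_reducible apply IntF.lam | with_reducible apply IntF.insert | with_reducible apply IntF.singleton | with_reducible apply IntF.union | with_reducible apply IntF.iimage | with_reducible apply IntF.ite | with_reducible apply IntF.the | with_reducible apply IntF.irec | with_reducible apply IntF.succ | with_reducible apply IntF.val | with_reducible apply IntF.mk | (with_reducible refine Int.comp ?_ ?_; assumption) | (with_reducible refine Int.comp₂ ?_ ?_ ?_; assumption) | (with_reducible refine Int.comp₃ ?_ ?_ ?_ ?_; assumption) | (with_reducible refine Int.comp₄ ?_ ?_ ?_ ?_ ?_; assumption) | (with_reducible refine IntF.comp ?_ ?_; assumption) | (with_reducible refine IntF.comp₂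 ?_ ?_ ?_; assumption) | (with_reducible refine IntF.comp₃ ?_ ?_ ?_ ?_; assumption) | with_reducible apply IntF.pair))
  obtain ⟨C₀, hC₀, h1, h2, h3⟩ := hc _ hE₀ (by
    intro p
    obtain ⟨p₀, h1, S, hS⟩ := hyp p
    exact ⟨p₀, ⟨S, (hgood _ _).2 hS⟩, p₀, h1, hrefl _⟩)
  obtain ⟨Sf, hSf, h4⟩ := ccP h hC₀ h2 (R := fun p S => good p S) hgI h1
    (sep (Tm N) fun _ => False)
  -- the predense sets
  obtain ⟨E, hE⟩ : ∃ E : P → INat (Tm N) → P → Prop, ∀ p n q, E p n q ↔
      (∃ d, (q, (n, d)) ∈ Sf p) ∨ ∀ r, le r q → ¬ ∃ d, (r, (n, d)) ∈ Sf p :=
    ⟨_, fun _ _ _ => Iff.rfl⟩
  have hEI : Int (Tm N) fun c : (P × INat (Tm N)) × P => E c.1.1 c.1.2 c.2 := by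
    refine Int.congr (p := fun c : (P × INat (Tm N)) × P =>
      (∃ d, (c.2, (c.1.2, d)) ∈ Sf c.1.1) ∨ ∀ r, le r c.2 → ¬ ∃ d, (r, (c.1.2, d)) ∈ Sf c.1.1)
      ?_ fun c => (hE _ _ _).symm
    (repeat' (first | with_reducible exact IntF.id | with_reducible exact IntF.fst' | with_reducible exact IntF.snd' | with_reducible exact IntF.const _ | with_reducible exact Int.const _ | assumption | with_reducible apply Int.and | with_reducible apply Int.or | with_reducible apply Int.not | with_reducible apply Int.imp | with_reducible apply Int.iff | with_reducible apply Int.ne | with_reducible apply Int.eq | with_reducible apply Int.mem | with_reducible apply Int.subset | with_reducible apply Int.ltN | with_reducible apply Int.leN | with_reducible_and_instances apply Int.le | with_reducible_and_instances apply Int.lt | with_reducible apply Int.all | with_reducible apply Int.ex | with_reducible apply IntF.fst | with_reducible apply IntF.snd | with_reducible apply IntF.app | with_reducible apply IntF.inl | with_reducible apply IntF.inr | with_reducible_and_instances apply IntF.mul | with_reducible_and_instances apply IntF.inv | with_reducible_and_instances apply IntF.add |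 with_reducible_and_instances apply IntF.sub | with_reducible_and_instances apply IntF.neg | with_reducible_and_instances apply IntF.smul | with_reducible apply Int.fin | with_reducible apply IntF.sep | with_reducible apply IntF.lam | with_reducible apply IntF.insert | with_reducible apply IntF.singleton | with_reducible apply IntF.union | with_reducible apply IntF.iimage | with_reducible apply IntF.ite | with_reducible apply IntF.the | with_reducible apply IntF.irec | with_reducible apply IntF.succ | with_reducible apply IntF.val | with_reducible apply IntF.mk | (with_reducible refine Int.comp ?_ ?_; assumption) | (with_reducible refine Int.comp₂ ?_ ?_ ?_; assumption) | (with_reducible refine Int.comp₃ ?_ ?_ ?_ ?_; assumption) | (with_reducible refine Int.comp₄ ?_ ?_ ?_ ?_ ?_; assumption) | (with_reducible refine IntF.comp ?_ ?_; assumption) | (with_reducible refine IntF.comp₂ ?_ ?_ ?_; assumption) | (with_reducible refine IntF.comp₃ ?_ ?_ ?_ ?_; assumption) | with_reducible apply IntF.pair))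
  have hCc : Ctb (Tm N) fun c : P × INat (Tm N) => C₀ c.1 ∧ True := ctb_prod h2 Ctb.nat
  have hCcI : Int (Tm N) fun c : P × INat (Tm N) => C₀ c.1 ∧ True := by (repeat' (first | with_reducible exact IntF.id | with_reducible exact IntF.fst' | with_reducible exact IntF.snd' | with_reducible exact IntF.const _ | with_reducible exact Int.const _ | assumption | with_reducible apply Int.and | with_reducible apply Int.or | with_reducible apply Int.not | with_reducible apply Int.imp | with_reducible apply Int.iff | with_reducible apply Int.ne | with_reducible apply Int.eq | with_reducible apply Int.mem | with_reducible apply Int.subset | with_reducible apply Int.ltN | with_reducible apply Int.leN | with_reducible_and_instances apply Int.le | with_reducible_and_instances apply Int.lt | with_reducible apply Int.all | with_reducible apply Int.ex | with_reducible apply IntF.fst | with_reducible apply IntF.snd | with_reducible apply IntF.app | with_reducible apply IntF.inl | with_reducible apply IntF.inr | with_reducible_and_instances apply IntF.mul | with_reducible_and_instances apply IntF.inv | with_reducible_and_instances apply IntF.add | with_reducible_and_instances apply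 IntF.sub | with_reducible_and_instances apply IntF.neg | with_reducible_and_instances apply IntF.smul | with_reducible apply Int.fin | with_reducible apply IntF.sep | with_reducible apply IntF.lam | with_reducible apply IntF.insert | with_reducible apply IntF.singleton | with_reducible apply IntF.union | with_reducible apply IntF.iimage | with_reducible apply IntF.ite | with_reducible apply IntF.the | with_reducible apply IntF.irec | with_reducible apply IntF.succ | with_reducible apply IntF.val | with_reducible apply IntF.mk | (with_reducible refine Int.comp ?_ ?_; assumption) | (with_reducible refine Int.comp₂ ?_ ?_ ?_; assumption) | (with_reducible refine Int.comp₃ ?_ ?_ ?_ ?_; assumption) | (with_reducible refine Int.comp₄ ?_ ?_ ?_ ?_ ?_; assumption) | (with_reducible refine IntF.comp ?_ ?_; assumption) | (with_reducible refine IntF.comp₂ ?_ ?_ ?_; assumption) | (with_reducible refine IntF.comp₃ ?_ ?_ ?_ ?_; assumption) | with_reducible apply IntF.pair))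
  have hR₁ : Int (Tm N) fun c : (P × INat (Tm N)) × (IPow (Tm N) P × IFun (Tm N) P (INat (Tm N))) =>
      (∀ q, q ∈ c.2.1 → E c.1.1 c.1.2 q) ∧
      (∀ q q', q ∈ c.2.1 → q' ∈ c.2.1 → c.2.2 q = c.2.2 q' → q = q') ∧
      ∀ r, ∃ q, q ∈ c.2.1 ∧ ∃ s, le s r ∧ le s q := by (repeat' (first | with_reducible exact IntF.id | with_reducible exact IntF.fst' | with_reducible exact IntF.snd' | with_reducible exact IntF.const _ | with_reducible exact Int.const _ | assumption | with_reducible apply Int.and | with_reducible apply Int.or | with_reducible apply Int.not | with_reducible apply Int.imp | with_reducible apply Int.iff | with_reducible apply Int.ne | with_reducible apply Int.eq | with_reducible apply Int.mem | with_reducible apply Int.subset | with_reducible apply Int.ltN | with_reducible apply Int.leN | with_reducible_and_instances apply Int.le | with_reducible_and_instances apply Int.lt | with_reducible apply Int.all | with_reducible apply Int.ex | with_reducible apply IntF.fst | with_reducible apply IntF.snd | with_reducible apply IntF.app | with_reducible apply IntF.inl | with_reducible apply IntF.inr | with_reducible_and_instances apply IntF.mul | with_reducible_and_instances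 apply IntF.inv | with_reducible_and_instances apply IntF.add | with_reducible_and_instances apply IntF.sub | with_reducible_and_instances apply IntF.neg | with_reducible_and_instances apply IntF.smul | with_reducible apply Int.fin | with_reducible apply IntF.sep | with_reducible apply IntF.lam | with_reducible apply IntF.insert | with_reducible apply IntF.singleton | with_reducible apply IntF.union | with_reducible apply IntF.iimage | with_reducible apply IntF.ite | with_reducible apply IntF.the | with_reducible apply IntF.irec | with_reducible apply IntF.succ | with_reducible apply IntF.val | with_reducible apply IntF.mk | (with_reducible refine Int.comp ?_ ?_; assumption) | (with_reducible refine Int.comp₂ ?_ ?_ ?_; assumption) | (with_reducible refine Int.comp₃ ?_ ?_ ?_ ?_; assumption) | (with_reducible refine Int.comp₄ ?_ ?_ ?_ ?_ ?_; assumption) | (with_reducible refine IntF.comp ?_ ?_; assumption) | (with_reducible refine IntF.comp₂ ?_ ?_ ?_; assumption) | (with_reducible refine IntF.comp₃ ?_ ?_ ?_ ?_; assumption) | with_reducible apply IntF.pair))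
  obtain ⟨Ce, hCe, h5⟩ := ccP h hCcI hCc (α := IPow (Tm N) P × IFun (Tm N) P (INat (Tm N)))
      (R := fun c d =>
      (∀ q, q ∈ d.1 → E c.1 c.2 q) ∧
      (∀ q q', q ∈ d.1 → q' ∈ d.1 → d.2 q = d.2 q' → q = q') ∧
      ∀ r, ∃ q, q ∈ d.1 ∧ ∃ s, le s r ∧ le s q) hR₁ (by
    rintro ⟨p, n⟩ -
    have hI : Int (Tm N) fun q : P => E p n q := by (repeat' (first | with_reducible exact IntF.id | with_reducible exact IntF.fst' | with_reducible exact IntF.snd' | with_reducible exact IntF.const _ | with_reducible exact Int.const _ | assumption | with_reducible apply Int.and | with_reducible apply Int.or | with_reducible apply Int.not | with_reducible apply Int.imp | with_reducible apply Int.iff | with_reducible apply Int.ne | with_reducible apply Int.eq | with_reducible apply Int.mem | with_reducible apply Int.subset | with_reducible apply Int.ltN | with_reducible apply Int.leN | with_reducible_and_instances apply Int.le | with_reducible_and_instances apply Int.lt | with_reducible apply Int.all | with_reducible apply Int.ex | with_reducible apply IntF.fst | with_reducible apply IntF.snd | with_reducible apply IntF.app | with_reducible apply IntF.inl | with_reducible apply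 IntF.inr | with_reducible_and_instances apply IntF.mul | with_reducible_and_instances apply IntF.inv | with_reducible_and_instances apply IntF.add | with_reducible_and_instances apply IntF.sub | with_reducible_and_instances apply IntF.neg | with_reducible_and_instances apply IntF.smul | with_reducible apply Int.fin | with_reducible apply IntF.sep | with_reducible apply IntF.lam | with_reducible apply IntF.insert | with_reducible apply IntF.singleton | with_reducible apply IntF.union | with_reducible apply IntF.iimage | with_reducible apply IntF.ite | with_reducible apply IntF.the | with_reducible apply IntF.irec | with_reducible apply IntF.succ | with_reducible apply IntF.val | with_reducible apply IntF.mk | (with_reducible refine Int.comp ?_ ?_; assumption) | (with_reducible refine Int.comp₂ ?_ ?_ ?_; assumption) | (with_reducible refine Int.comp₃ ?_ ?_ ?_ ?_; assumption) | (with_reducible refine Int.comp₄ ?_ ?_ ?_ ?_ ?_; assumption) | (with_reducible refine IntF.comp ?_ ?_; assumption) | (with_reducible refine IntF.comp₂ ?_ ?_ ?_; assumption) | (with_reducible refine IntF.comp₃ ?_ ?_ ?_ ?_; assumption) | with_reducible apply IntF.pair))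
    obtain ⟨C, hC, h5, ⟨e, he, h6⟩, h7⟩ := hc _ hI (by
      intro q
      by_cases h5 : ∃ r, le r q ∧ ∃ d, (r, (n, d)) ∈ Sf p
      · obtain ⟨r, hr, h6⟩ := h5
        exact ⟨r, (hE _ _ _).2 (Or.inl h6), r, hr, hrefl _⟩
      · push Not at h5
        exact ⟨q, (hE _ _ _).2 (Or.inr fun r hr h6 => by
          obtain ⟨d, hd⟩ := h6
          exact h5 r hr d hd), q, hrefl _, hrefl _⟩)
    refine ⟨(sep (Tm N) C, ⟨e, he⟩), fun q hq => h5 q ((mem_sep hC).1 hq), fun q q' hq hq' h8 =>
      h6 q q' ((mem_sep hC).1 hq) ((mem_sep hC).1 hq') h8, fun r => ?_⟩
    obtain ⟨d, hd, h8⟩ := h7 r
    exact ⟨d, (mem_sep hC).2 hd, h8⟩) (sep (Tm N) fun _ => False, ⟨fun _ => 0, IntF.const _⟩)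
  -- the elements of `D`
  obtain ⟨J, hJ⟩ : ∃ J : (P × INat (Tm N)) × P → Prop, ∀ c, J c ↔ C₀ c.1.1 ∧ c.2 ∈ (Ce c.1).1 ∧
      ∃ d, (c.2, (c.1.2, d)) ∈ Sf c.1.1 := ⟨_, fun _ => Iff.rfl⟩
  have hJI : Int (Tm N) J := by
    refine Int.congr (p := fun c : (P × INat (Tm N)) × P => C₀ c.1.1 ∧ c.2 ∈ (Ce c.1).1 ∧
      ∃ d, (c.2, (c.1.2, d)) ∈ Sf c.1.1) ?_ fun c => (hJ _).symm
    (repeat' (first | with_reducible exact IntF.id | with_reducible exact IntF.fst' | with_reducible exact IntF.snd' | with_reducible exact IntF.const _ | with_reducible exact Int.const _ | assumption | with_reducible apply Int.and | with_reducible apply Int.or | with_reducible apply Int.not | with_reducible apply Int.imp | with_reducible apply Int.iff | with_reducible apply Int.ne | with_reducible apply Int.eq | with_reducible apply Int.mem | with_reducible apply Int.subset | with_reducible apply Int.ltN | with_reducible apply Int.leN | with_reducible_and_instances apply Int.le | with_reducible_and_instances apply Int.lt | with_reducible apply Int.all | with_reducible apply Int.ex | with_reducible apply IntF.fst | with_reducible apply IntF.snd | with_reducible apply IntF.app | with_reducible apply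 IntF.inl | with_reducible apply IntF.inr | with_reducible_and_instances apply IntF.mul | with_reducible_and_instances apply IntF.inv | with_reducible_and_instances apply IntF.add | with_reducible_and_instances apply IntF.sub | with_reducible_and_instances apply IntF.neg | with_reducible_and_instances apply IntF.smul | with_reducible apply Int.fin | with_reducible apply IntF.sep | with_reducible apply IntF.lam | with_reducible apply IntF.insert | with_reducible apply IntF.singleton | with_reducible apply IntF.union | with_reducible apply IntF.iimage | with_reducible apply IntF.ite | with_reducible apply IntF.the | with_reducible apply IntF.irec | with_reducible apply IntF.succ | with_reducible apply IntF.val | with_reducible apply IntF.mk | (with_reducible refine Int.comp ?_ ?_; assumption) | (with_reducible refine Int.comp₂ ?_ ?_ ?_; assumption) | (with_reducible refine Int.comp₃ ?_ ?_ ?_ ?_; assumption) | (with_reducible refine Int.comp₄ ?_ ?_ ?_ ?_ ?_; assumption) | (with_reducible refine IntF.comp ?_ ?_; assumption) | (with_reducible refine IntF.comp₂ ?_ ?_ ?_; assumption) | (with_reducible refine IntF.comp₃ ?_ ?_ ?_ ?_; assumption) | with_reducible apply IntF.pair))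
  have hJc : Ctb (Tm N) J := by
    obtain ⟨e, he, h6⟩ := hCc
    have hI : IntF (Tm N) fun c : (P × INat (Tm N)) × P => pr (e c.1) ((Ce c.1).2 c.2) := by
      refine IntF.pr (he.comp IntF.fst') ?_
      (repeat' (first | with_reducible exact IntF.id | with_reducible exact IntF.fst' | with_reducible exact IntF.snd' | with_reducible exact IntF.const _ | with_reducible exact Int.const _ | assumption | with_reducible apply Int.and | with_reducible apply Int.or | with_reducible apply Int.not | with_reducible apply Int.imp | with_reducible apply Int.iff | with_reducible apply Int.ne | with_reducible apply Int.eq | with_reducible apply Int.mem | with_reducible apply Int.subset | with_reducible apply Int.ltN | with_reducible apply Int.leN | with_reducible_and_instances apply Int.le | with_reducible_and_instances apply Int.lt | with_reducible apply Int.all | with_reducible apply Int.ex | with_reducible apply IntF.fst | with_reducible apply IntF.snd | with_reducible apply IntF.app | with_reducible apply IntF.inl | with_reducible apply IntF.inr | with_reducible_and_instances apply IntF.mul | with_reducible_and_instances apply IntF.inv | with_reducible_and_instances apply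 IntF.add | with_reducible_and_instances apply IntF.sub | with_reducible_and_instances apply IntF.neg | with_reducible_and_instances apply IntF.smul | with_reducible apply Int.fin | with_reducible apply IntF.sep | with_reducible apply IntF.lam | with_reducible apply IntF.insert | with_reducible apply IntF.singleton | with_reducible apply IntF.union | with_reducible apply IntF.iimage | with_reducible apply IntF.ite | with_reducible apply IntF.the | with_reducible apply IntF.irec | with_reducible apply IntF.succ | with_reducible apply IntF.val | with_reducible apply IntF.mk | (with_reducible refine Int.comp ?_ ?_; assumption) | (with_reducible refine Int.comp₂ ?_ ?_ ?_; assumption) | (with_reducible refine Int.comp₃ ?_ ?_ ?_ ?_; assumption) | (with_reducible refine Int.comp₄ ?_ ?_ ?_ ?_ ?_; assumption) | (with_reducible refine IntF.comp ?_ ?_; assumption) | (with_reducible refine IntF.comp₂ ?_ ?_ ?_; assumption) | (with_reducible refine IntF.comp₃ ?_ ?_ ?_ ?_; assumption) | with_reducible apply IntF.pair))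
    refine ⟨_, hI, fun c c' hc hc' h7 => ?_⟩
    obtain ⟨h8, h9⟩ := pr_inj h7
    obtain ⟨h10, h11, -⟩ := (hJ _).1 hc
    obtain ⟨h10', h11', -⟩ := (hJ _).1 hc'
    have h12 : c.1 = c'.1 := h6 _ _ ⟨h10, trivial⟩ ⟨h10', trivial⟩ h8
    rw [← h12] at h9 h11'
    exact Prod.ext h12 ((h5 c.1 ⟨h10, trivial⟩).2.1 _ _ h11 h11' h9)
  have hR₂ : Int (Tm N) fun c : ((P × INat (Tm N)) × P) × (P × T) =>
      (c.1.2, (c.1.1.2, c.2)) ∈ Sf c.1.1.1 := by (repeat' (first | with_reducible exact IntF.id | with_reducible exact IntF.fst' | with_reducible exact IntF.snd' | with_reducible exact IntF.const _ | with_reducible exact Int.const _ | assumption | with_reducible apply Int.and | with_reducible apply Int.or | with_reducible apply Int.not | with_reducible apply Int.imp | with_reducible apply Int.iff | with_reducible apply Int.ne | with_reducible apply Int.eq | with_reducible apply Int.mem | with_reducible apply Int.subset | with_reducible apply Int.ltN | with_reducible apply Int.leN | with_reducible_and_instances apply Int.le | with_reducible_and_instances apply Int.lt | with_reducible apply Int.all | with_reducible apply Int.ex | with_reducible apply IntF.fst | with_reducible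 apply IntF.snd | with_reducible apply IntF.app | with_reducible apply IntF.inl | with_reducible apply IntF.inr | with_reducible_and_instances apply IntF.mul | with_reducible_and_instances apply IntF.inv | with_reducible_and_instances apply IntF.add | with_reducible_and_instances apply IntF.sub | with_reducible_and_instances apply IntF.neg | with_reducible_and_instances apply IntF.smul | with_reducible apply Int.fin | with_reducible apply IntF.sep | with_reducible apply IntF.lam | with_reducible apply IntF.insert | with_reducible apply IntF.singleton | with_reducible apply IntF.union | with_reducible apply IntF.iimage | with_reducible apply IntF.ite | with_reducible apply IntF.the | with_reducible apply IntF.irec | with_reducible apply IntF.succ | with_reducible apply IntF.val | with_reducible apply IntF.mk | (with_reducible refine Int.comp ?_ ?_; assumption) | (with_reducible refine Int.comp₂ ?_ ?_ ?_; assumption) | (with_reducible refine Int.comp₃ ?_ ?_ ?_ ?_; assumption) | (with_reducible refine Int.comp₄ ?_ ?_ ?_ ?_ ?_; assumption) | (with_reducible refine IntF.comp ?_ ?_; assumption) | (with_reducible refine IntF.comp₂ ?_ ?_ ?_; assumption) | (with_reducible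 refine IntF.comp₃ ?_ ?_ ?_ ?_; assumption) | with_reducible apply IntF.pair))
  obtain ⟨df, hdf, h6⟩ : ∃ f : (P × INat (Tm N)) × P → P × T, IntF (Tm N) f ∧
      ∀ c, J c → (c.2, (c.1.2, f c)) ∈ Sf c.1.1 := by
    by_cases hne : ∃ c, J c
    · obtain ⟨c, hc⟩ := hne
      obtain ⟨-, -, d, -⟩ := (hJ _).1 hc
      exact ccP h hJI hJc (R := fun c d => (c.2, (c.1.2, d)) ∈ Sf c.1.1) hR₂
        (fun c hc => ((hJ _).1 hc).2.2) d
    · exact ⟨fun c => (c.2, t₁), by (repeat' (first | with_reducible exact IntF.id | with_reducible exact IntF.fst' | with_reducible exact IntF.snd' | with_reducible exact IntF.const _ | with_reducible exact Int.const _ | assumption | with_reducible apply Int.and | with_reducible apply Int.or | with_reducible apply Int.not | with_reducible apply Int.imp | with_reducible apply Int.iff | with_reducible apply Int.ne | with_reducible apply Int.eq | with_reducible apply Int.mem | with_reducible apply Int.subset | with_reducible apply Int.ltN | with_reducible apply Int.leN | with_reducible_and_instances apply Int.le | with_reducible_and_instances apply Int.lt | with_reducible apply Int.all | with_reducible apply Int.ex | with_reducible apply IntF.fst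 | with_reducible apply IntF.snd | with_reducible apply IntF.app | with_reducible apply IntF.inl | with_reducible apply IntF.inr | with_reducible_and_instances apply IntF.mul | with_reducible_and_instances apply IntF.inv | with_reducible_and_instances apply IntF.add | with_reducible_and_instances apply IntF.sub | with_reducible_and_instances apply IntF.neg | with_reducible_and_instances apply IntF.smul | with_reducible apply Int.fin | with_reducible apply IntF.sep | with_reducible apply IntF.lam | with_reducible apply IntF.insert | with_reducible apply IntF.singleton | with_reducible apply IntF.union | with_reducible apply IntF.iimage | with_reducible apply IntF.ite | with_reducible apply IntF.the | with_reducible apply IntF.irec | with_reducible apply IntF.succ | with_reducible apply IntF.val | with_reducible apply IntF.mk | (with_reducible refine Int.comp ?_ ?_; assumption) | (with_reducible refine Int.comp₂ ?_ ?_ ?_; assumption) | (with_reducible refine Int.comp₃ ?_ ?_ ?_ ?_; assumption) | (with_reducible refine Int.comp₄ ?_ ?_ ?_ ?_ ?_; assumption) | (with_reducible refine IntF.comp ?_ ?_; assumption) | (with_reducible refine IntF.comp₂ ?_ ?_ ?_; assumption)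 | (with_reducible refine IntF.comp₃ ?_ ?_ ?_ ?_; assumption) | with_reducible apply IntF.pair)), fun c hc => absurd ⟨c, hc⟩ hne⟩
  have hCI : Int (Tm N) fun d : P × T => ∃ c, J c ∧ df c = d := by (repeat' (first | with_reducible exact IntF.id | with_reducible exact IntF.fst' | with_reducible exact IntF.snd' | with_reducible exact IntF.const _ | with_reducible exact Int.const _ | assumption | with_reducible apply Int.and | with_reducible apply Int.or | with_reducible apply Int.not | with_reducible apply Int.imp | with_reducible apply Int.iff | with_reducible apply Int.ne | with_reducible apply Int.eq | with_reducible apply Int.mem | with_reducible apply Int.subset | with_reducible apply Int.ltN | with_reducible apply Int.leN | with_reducible_and_instances apply Int.le | with_reducible_and_instances apply Int.lt | with_reducible apply Int.all | with_reducible apply Int.ex | with_reducible apply IntF.fst | with_reducible apply IntF.snd | with_reducible apply IntF.app | with_reducible apply IntF.inl | with_reducible apply IntF.inr | with_reducible_and_instances apply IntF.mul | with_reducible_and_instances apply IntF.inv | with_reducible_and_instances apply IntF.add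 | with_reducible_and_instances apply IntF.sub | with_reducible_and_instances apply IntF.neg | with_reducible_and_instances apply IntF.smul | with_reducible apply Int.fin | with_reducible apply IntF.sep | with_reducible apply IntF.lam | with_reducible apply IntF.insert | with_reducible apply IntF.singleton | with_reducible apply IntF.union | with_reducible apply IntF.iimage | with_reducible apply IntF.ite | with_reducible apply IntF.the | with_reducible apply IntF.irec | with_reducible apply IntF.succ | with_reducible apply IntF.val | with_reducible apply IntF.mk | (with_reducible refine Int.comp ?_ ?_; assumption) | (with_reducible refine Int.comp₂ ?_ ?_ ?_; assumption) | (with_reducible refine Int.comp₃ ?_ ?_ ?_ ?_; assumption) | (with_reducible refine Int.comp₄ ?_ ?_ ?_ ?_ ?_; assumption) | (with_reducible refine IntF.comp ?_ ?_; assumption) | (with_reducible refine IntF.comp₂ ?_ ?_ ?_; assumption) | (with_reducible refine IntF.comp₃ ?_ ?_ ?_ ?_; assumption) | with_reducible apply IntF.pair))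
  refine ⟨_, hCI, ?_, hJc.image hJI hdf, fun p τ => ?_⟩
  · rintro _ ⟨c, hc, rfl⟩
    have h7 := (hgood _ _).1 (h4 _ ((hJ _).1 hc).1)
    exact (h7.2.1 _ _ _ (h6 c hc)).1
  · obtain ⟨p₀, hp₀, q, hqp, hq₀⟩ := h3 p
    obtain ⟨g0, g1, g2, g3⟩ := (hgood _ _).1 (h4 p₀ hp₀)
    obtain ⟨r, n, d, ρ, hrq, hS, hW1, hW2⟩ := g3 τ q hq₀
    obtain ⟨h7, -, h8⟩ := h5 (p₀, n) ⟨hp₀, trivial⟩
    obtain ⟨c, hc, s, hsr, hsc⟩ := h8 r
    have h9 : ∃ d, (c, (n, d)) ∈ Sf p₀ := by
      rcases (hE _ _ _).1 (h7 c hc) with h9 | h9
      · exact h9
      · exact absurd ⟨d, g0 _ _ _ _ hS hsr⟩ (h9 s hsc)
    have hJc' : J ((p₀, n), c) := (hJ _).2 ⟨hp₀, hc, h9⟩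
    have h10 := h6 _ hJc'
    have h11 := g0 _ _ _ _ h10 hsc
    have h12 := g0 _ _ _ _ hS hsr
    have hs0 : le s p₀ := htrans _ _ _ (htrans _ _ _ hsr hrq) hq₀
    refine ⟨_, ⟨_, hJc', rfl⟩, s, ρ, htrans _ _ _ (htrans _ _ _ hsr hrq) hqp,
      (g1 _ _ _ h11).2, hWm _ _ _ _ hsr hW1, ?_⟩
    exact hWt _ _ _ _ (hWm _ _ _ _ hsr hW2) (g2 _ _ _ _ h12 h11 hs0)

end

end Pool.Agent.Helper672.ZFA.H158IT
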