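import Pool.Agent.H158_IT.SucN

/-!
# The successor step of the iteration theorem: the main part
-/

set_option maxHeartbeats 2000000
set_option linter.all false
set_option synthInstance.maxSize 2000

namespace Pool.Agent.Helper672.ZFA.H158IT

open FirstOrder FirstOrder.Language
open H635 (IWO)
open Pool.Agent.H310
open Pool.Agent.Helper672.ZFA.V246
open Pool.Agent.Helper672.ZFA.H158CC (ctb_of_inj ctb_comap ctb_prod)
open Pool.Agent.Helper672.Plain (LSet)
open Pool.Agent.H635Amen (ZF)
open Pool.Agent.H158_IT (Tm tm mem_tm zf_tm IsCtble DC ft fd IsIteration IsFn rst mem_rst glu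
  CCC3 IsPredense Cmp)
open Pool.Agent.W868 (IsZF nat mem_omega_iff Dfn DfnF fs sn fs_pair sn_pair ap D0 D0v im mem_im)
open Pool.Agent.W868.GM (IsForcing IsGeneric ev ext mem_ev)
open Pool.Agent.Y588 (exists_gen chk ev_chk chk_mem dfn_chk)
open ZFSet (pair)

section

attribute [local instance] Helper672.Plain.toL

variable {N : Set ZFSet.{0}} [hN : Fact (IsZF N)]

local instance instModelT5 : IsModel (Tm N) := Helper672.Plain.isModel_toL

theorem ccc3_int {A : Tm N} {Lr : ZFSet.{0}} (h : CCC3 N A.1 Lr) {le : El A → El A → Prop}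
    (hle : ∀ a b, le a b ↔ pair a.1.1 b.1.1 ∈ Lr) : ∀ D : El A → Prop, Int (Tm N) D →
    (∀ p, ∃ d, D d ∧ ∃ r, le r p ∧ le r d) → ∃ C : El A → Prop, Int (Tm N) C ∧
      (∀ p, C p → D p) ∧ Ctb (Tm N) C ∧ ∀ p, ∃ d, C d ∧ ∃ r, le r p ∧ le r d := by
  intro D hD hpd
  obtain ⟨s, hs, h1⟩ := exists_set hD
  have h2 : ∀ x : El A, x.1.1 ∈ s → D x := by
    intro x hx
    obtain ⟨a, ha, h3⟩ := (h1 _).1 hx
    have h4 : a = x := Subtype.ext (Subtype.ext h3)
    exact h4 ▸ ha
  have hsA : s ⊆ A.1 := by
    intro z hz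
    obtain ⟨a, -, rfl⟩ := (h1 z).1 hz
    exact a.2
  obtain ⟨C, hCN, hCs, hCp, hCc⟩ := h s hs ⟨hsA, fun p hp => by
    obtain ⟨d, hd, r, h3, h4⟩ := hpd (mk p hp)
    exact ⟨d.1.1, (h1 _).2 ⟨d, hd, rfl⟩, r.1.1, r.2, (hle _ _).1 h3, (hle _ _).1 h4⟩⟩
  refine ⟨fun x => x.1.1 ∈ C, int_set hCN, fun x hx => h2 x (hCs hx),
    ctb_of_isCtble hCp.1 hCN hCc, fun p => ?_⟩
  obtain ⟨d, hd, r, hr, h3, h4⟩ := hCp.2 p.1.1 p.2
  exact ⟨mk d (hCp.1 hd), hd, mk r hr, (hle _ _).2 h3, (hle _ _).2 h4⟩

theorem int_ccc3 {A : Tm N} {Lr : ZFSet.{0}} {le : El A → El A → Prop}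
    (hle : ∀ a b, le a b ↔ pair a.1.1 b.1.1 ∈ Lr) (h : ∀ D : El A → Prop, Int (Tm N) D →
    (∀ p, ∃ d, D d ∧ ∃ r, le r p ∧ le r d) → ∃ C : El A → Prop, Int (Tm N) C ∧
      (∀ p, C p → D p) ∧ Ctb (Tm N) C ∧ ∀ p, ∃ d, C d ∧ ∃ r, le r p ∧ le r d) :
    CCC3 N A.1 Lr := by
  intro D hD hpd
  obtain ⟨C, hC, h1, h2, h3⟩ := h (fun x => x.1.1 ∈ D) (int_set hD) (by
    intro p
    obtain ⟨d, hd, r, hr, h3, h4⟩ := hpd.2 p.1.1 p.2
    exact ⟨mk d (hpd.1 hd), hd, mk r hr, (hle _ _).2 h3, (hle _ _).2 h4⟩)
  obtain ⟨s, hs, h4⟩ := exists_set hC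
  have hsD : s ⊆ D := by
    intro z hz
    obtain ⟨a, ha, rfl⟩ := (h4 z).1 hz
    exact h1 a ha
  refine ⟨s, hs, hsD, ⟨fun z hz => hpd.1 (hsD hz), fun p hp => ?_⟩, isCtble_of_ctb hC h2 h4⟩
  obtain ⟨d, hd, r, h5, h6⟩ := h3 (mk p hp)
  exact ⟨d.1.1, (h4 _).2 ⟨d, hd, rfl⟩, r.1.1, r.2, (hle _ _).1 h5, (hle _ _).1 h6⟩

/-- What is forced about the name `f` of an injection on a countable predense set. -/
def Rl (f Q R D w : ZFSet.{0}) : Prop :=
  (∀ x ∈ Q, ∀ x' ∈ Q, ∀ n ∈ w, pair x n ∈ f → pair x' n ∈ f → x = x') ∧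
  ∀ y ∈ Q, ∃ x ∈ Q, x ∈ D ∧ (∃ n ∈ w, pair x n ∈ f) ∧ ∃ z ∈ Q, pair z y ∈ R ∧ pair z x ∈ R

omit hN in
theorem d0_Rl : D0 fun v : Fin 5 → ZFSet.{0} => Rl (v 0) (v 1) (v 2) (v 3) (v 4) := by
  unfold Rl
  apply D0.and
  · apply D0.ball (D0v.proj 1)
    apply D0.ball (D0v.proj 2)
    apply D0.ball (D0v.proj 6)
    exact (D0.pairMem (D0v.proj 2) (D0v.proj 0) (D0v.proj 3)).imp
      ((D0.pairMem (D0v.proj 1) (D0v.proj 0) (D0v.proj 3)).imp
        (D0.eq (D0v.proj 2) (D0v.proj 1)))
  · apply D0.ball (D0v.proj 1)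
    apply D0.bex (D0v.proj 2)
    refine (D0.mem (D0v.proj 0) (D0v.proj 5)).and (D0.and ?_ ?_)
    · apply D0.bex (D0v.proj 6)
      exact D0.pairMem (D0v.proj 1) (D0v.proj 0) (D0v.proj 3)
    · apply D0.bex (D0v.proj 3)
      exact (D0.pairMem (D0v.proj 0) (D0v.proj 2) (D0v.proj 5)).and
        (D0.pairMem (D0v.proj 0) (D0v.proj 1) (D0v.proj 5))

variable {δ P L Q R O T : ZFSet.{0}} (hI : IsIteration N δ P L Q R O T)

include hI

theorem succ_step (hct : N.Countable) (hDC : DC N) {β : ZFSet.{0}} (hβ : β ∈ δ)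
    (h3 : CCC3 N (ap P β) (ap L β)) (hQ : ∀ G, IsGeneric N (ap P β) (ap L β) G →
      CCC3 (ext N G) (ev G (ap Q β)) (ev G (ap R β))) :
    CCC3 N (ap P (insert β β)) (ap L (insert β β)) := by
  have hZ := hN.out
  have hB := hZ.base
  have hβ' := ZFSet.mem_insert_iff.2 (Or.inr hβ : β = δ ∨ β ∈ δ)
  have hα := succ_mem hI.ord hβ
  have hF := hI.forcing hZ hβ'
  have hβN := hI.memN hZ hβ'
  have hββ : β ∈ (insert β β : ZFSet.{0}) := ZFSet.mem_insert_iff.2 (Or.inl rfl)
  have hsub : β ⊆ (insert β β : ZFSet.{0}) := fun x hx => ZFSet.mem_insert_iff.2 (Or.inr hx)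
  obtain ⟨PA, hPA⟩ : ∃ PA : Tm N, PA.1 = ap P β := ⟨tm _ (hI.PN hZ hβ'), rfl⟩
  obtain ⟨TA, hTA⟩ : ∃ TA : Tm N, TA.1 = ap T β := ⟨tm _ (hI.TN hZ hβ), rfl⟩
  obtain ⟨XA, hXA⟩ : ∃ XA : Tm N, XA.1 = ap P (insert β β) := ⟨tm _ (hI.PN hZ hα), rfl⟩
  have hPm : ∀ p : El PA, p.1.1 ∈ ap P β := fun p => hPA ▸ p.2
  have hTm : ∀ p : El TA, p.1.1 ∈ ap T β := fun p => hTA ▸ p.2
  have hXm : ∀ p : El XA, p.1.1 ∈ ap P (insert β β) := fun p => hXA ▸ p.2
  obtain ⟨le, hle⟩ : ∃ le : El PA → El PA → Prop, ∀ a b, le a b ↔ pair a.1.1 b.1.1 ∈ ap L β :=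
    ⟨_, fun _ _ => Iff.rfl⟩
  obtain ⟨lx, hlx⟩ : ∃ lx : El XA → El XA → Prop, ∀ a b, lx a b ↔
      pair a.1.1 b.1.1 ∈ ap L (insert β β) := ⟨_, fun _ _ => Iff.rfl⟩
  have hleI : Int (Tm N) fun q : El PA × El PA => le q.1 q.2 :=
    int_rel (hI.LN hZ hβ') fun a b => (hle a b).symm
  have hlxI : Int (Tm N) fun q : El XA × El XA => lx q.1 q.2 :=
    int_rel (hI.LN hZ hα) fun a b => (hlx a b).symm
  have hrefl : ∀ p, le p p := fun p => (hle _ _).2 (hF.refl _ (hPm p))
  have htrans : ∀ p q r, le p q → le q r → le p r := fun p q r h1 h2 =>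
    (hle _ _).2 (hF.trans _ (hPm r) _ (hPm q) _ (hPm p) ((hle _ _).1 h1) ((hle _ _).1 h2))
  -- the coordinates
  obtain ⟨rF, hrF⟩ : ∃ rF : El XA → El PA, ∀ x, (rF x).1.1 = rst x.1.1 β :=
    ⟨fun x => mk (rst x.1.1 β) (by rw [hPA]; exact hI.rst_mem hZ hα hβ' hsub (hXm x)),
      fun _ => rfl⟩
  obtain ⟨aF, haF⟩ : ∃ aF : El XA → El TA, ∀ x, (aF x).1.1 = ap x.1.1 β :=
    ⟨fun x => mk (ap x.1.1 β) (by rw [hTA]; exact hI.tm hα (hXm x) hββ), fun _ => rfl⟩
  have hdr : DfnF N N fun w : Fin 1 → ZFSet.{0} => rst (w 0) β :=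
    hZ.sep' (Q := fun u w => fs u ∈ β) (DfnF.proj 0)
      (Dfn.mem (hZ.fs' (DfnF.proj 0)) (DfnF.const hβN))
  have hda : DfnF N N fun w : Fin 1 → ZFSet.{0} => ap (w 0) β :=
    hZ.ap' (DfnF.proj 0) (DfnF.const hβN)
  have hrI : IntF (Tm N) rF := intF_of_dfn (F := fun z => rst z β) hdr rF hrF
  have haI : IntF (Tm N) aF := intF_of_dfn (F := fun z => ap z β) hda aF haF
  have hinj : ∀ x y, rF x = rF y → aF x = aF y → x = y := by
    intro x y h1 h2
    refine Subtype.ext (Subtype.ext (ext_succ hI hβ (hXm x) (hXm y) ?_ ?_))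
    · rw [← hrF, ← hrF, h1]
    · rw [← haF, ← haF, h2]
  have hsur : ∀ p σ, ∃ x, rF x = p ∧ aF x = σ := by
    intro p σ
    obtain ⟨x, hx, h1, h2⟩ := exists_pr hI hβ (hPm p) (hTm σ)
    exact ⟨mk x (by rw [hXA]; exact hx), Subtype.ext (Subtype.ext ((hrF _).trans h1)),
      Subtype.ext (Subtype.ext ((haF _).trans h2))⟩
  -- the forced order
  obtain ⟨W, hW⟩ : ∃ W : El PA → El TA → El TA → Prop, ∀ r σ τ, W r σ τ ↔
      ∃ x y, rF x = r ∧ aF x = σ ∧ rF y = r ∧ aF y = τ ∧ lx x y := ⟨_, fun _ _ _ => Iff.rfl⟩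
  have hWI : Int (Tm N) fun q : (El PA × El TA) × El TA => W q.1.1 q.1.2 q.2 := by
    refine Int.congr (p := fun q : (El PA × El TA) × El TA =>
      ∃ x y, rF x = q.1.1 ∧ aF x = q.1.2 ∧ rF y = q.1.1 ∧ aF y = q.2 ∧ lx x y) ?_
      fun q => (hW _ _ _).symm
    (repeat' (first | with_reducible exact IntF.id | with_reducible exact IntF.fst' | with_reducible exact IntF.snd' | with_reducible exact IntF.const _ | with_reducible exact Int.const _ | assumption | with_reducible apply Int.and | with_reducible apply Int.or | with_reducible apply Int.not | with_reducible apply Int.imp | with_reducible apply Int.iff | with_reducible apply Int.ne | with_reducible apply Int.eq | with_reducible apply Int.mem | with_reducible apply Int.subset | with_reducible apply Int.ltN | with_reducible apply Int.leN | with_reducible_and_instances apply Int.le | with_reducible_and_instances apply Int.lt | with_reducible apply Int.all | with_reducible apply Int.ex | with_reducible apply IntF.fst | with_reducible apply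 IntF.snd | with_reducible apply IntF.app | with_reducible apply IntF.inl | with_reducible apply IntF.inr | with_reducible_and_instances apply IntF.mul | with_reducible_and_instances apply IntF.inv | with_reducible_and_instances apply IntF.add | with_reducible_and_instances apply IntF.sub | with_reducible_and_instances apply IntF.neg | with_reducible_and_instances apply IntF.smul | with_reducible apply Int.fin | with_reducible apply IntF.sep | with_reducible apply IntF.lam | with_reducible apply IntF.insert | with_reducible apply IntF.singleton | with_reducible apply IntF.union | with_reducible apply IntF.iimage | with_reducible apply IntF.ite | with_reducible apply IntF.the | with_reducible apply IntF.irec | with_reducible apply IntF.succ | with_reducible apply IntF.val | with_reducible apply IntF.mk | (with_reducible refine Int.comp ?_ ?_; assumption) | (with_reducible refine Int.comp₂ ?_ ?_ ?_; assumption) | (with_reducible refine Int.comp₃ ?_ ?_ ?_ ?_; assumption) | (with_reducible refine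 Int.comp₄ ?_ ?_ ?_ ?_ ?_; assumption) | (with_reducible refine IntF.comp ?_ ?_; assumption) | (with_reducible refine IntF.comp₂ ?_ ?_ ?_; assumption) | (with_reducible refine IntF.comp₃ ?_ ?_ ?_ ?_; assumption) | with_reducible apply IntF.pair))
  have hWi : ∀ r σ τ, W r σ τ ↔ ∀ G, IsGeneric N (ap P β) (ap L β) G → r.1.1 ∈ G →
      pair (ev G σ.1.1) (ev G τ.1.1) ∈ ev G (ap R β) := by
    intro r σ τ
    rw [hW]
    constructor
    · rintro ⟨x, y, rfl, rfl, h1, rfl, h2⟩ G hG hG'
      have h4 := ((le_succ hI hβ (hXm x) (hXm y)).1 ((hlx _ _).1 h2)).2 G hG (by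
        rwa [hrF] at hG')
      rwa [← haF, ← haF] at h4
    · intro h1
      obtain ⟨x, hx1, hx2⟩ := hsur r σ
      obtain ⟨y, hy1, hy2⟩ := hsur r τ
      refine ⟨x, y, hx1, hx2, hy1, hy2, (hlx _ _).2 ((le_succ hI hβ (hXm x) (hXm y)).2
        ⟨?_, fun G hG hG' => ?_⟩)⟩
      · rw [← hrF, ← hrF, hx1, hy1]
        exact hF.refl _ (hPm r)
      · rw [← haF, ← haF, hx2, hy2]
        refine h1 G hG ?_
        rwa [← hrF, hx1] at hG'
  have hlxW : ∀ x y, lx x y ↔ le (rF x) (rF y) ∧ W (rF x) (aF x) (aF y) := by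
    intro x y
    rw [hlx, le_succ hI hβ (hXm x) (hXm y), hle, hWi, hrF, hrF, haF, haF]
  rw [← hXA]
  refine int_ccc3 hlx fun D₀ hD₀ hpd => ?_
  obtain ⟨D, hD⟩ : ∃ D : El PA → El TA → Prop, ∀ p σ, D p σ ↔ ∃ x, D₀ x ∧ rF x = p ∧ aF x = σ :=
    ⟨_, fun _ _ => Iff.rfl⟩
  have hDI : Int (Tm N) fun q : El PA × El TA => D q.1 q.2 := by
    refine Int.congr (p := fun q : El PA × El TA => ∃ x, D₀ x ∧ rF x = q.1 ∧ aF x = q.2) ?_
      fun q => (hD _ _).symm
    (repeat' (first | with_reducible exact IntF.id | with_reducible exact IntF.fst' | with_reducible exact IntF.snd' | with_reducible exact IntF.const _ | with_reducible exact Int.const _ | assumption | with_reducible apply Int.and | with_reducible apply Int.or | with_reducible apply Int.not | with_reducible apply Int.imp | with_reducible apply Int.iff | with_reducible apply Int.ne | with_reducible apply Int.eq | with_reducible apply Int.mem | with_reducible apply Int.subset | with_reducible apply Int.ltN | with_reducible apply Int.leN | with_reducible_and_instances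 apply Int.le | with_reducible_and_instances apply Int.lt | with_reducible apply Int.all | with_reducible apply Int.ex | with_reducible apply IntF.fst | with_reducible apply IntF.snd | with_reducible apply IntF.app | with_reducible apply IntF.inl | with_reducible apply IntF.inr | with_reducible_and_instances apply IntF.mul | with_reducible_and_instances apply IntF.inv | with_reducible_and_instances apply IntF.add | with_reducible_and_instances apply IntF.sub | with_reducible_and_instances apply IntF.neg | with_reducible_and_instances apply IntF.smul | with_reducible apply Int.fin | with_reducible apply IntF.sep | with_reducible apply IntF.lam | with_reducible apply IntF.insert | with_reducible apply IntF.singleton | with_reducible apply IntF.union | with_reducible apply IntF.iimage | with_reducible apply IntF.ite | with_reducible apply IntF.the | with_reducible apply IntF.irec | with_reducible apply IntF.succ | with_reducible apply IntF.val | with_reducible apply IntF.mk | (with_reducible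 refine Int.comp ?_ ?_; assumption) | (with_reducible refine Int.comp₂ ?_ ?_ ?_; assumption) | (with_reducible refine Int.comp₃ ?_ ?_ ?_ ?_; assumption) | (with_reducible refine Int.comp₄ ?_ ?_ ?_ ?_ ?_; assumption) | (with_reducible refine IntF.comp ?_ ?_; assumption) | (with_reducible refine IntF.comp₂ ?_ ?_ ?_; assumption) | (with_reducible refine IntF.comp₃ ?_ ?_ ?_ ?_; assumption) | with_reducible apply IntF.pair))
  have hEv : ∀ (σ : El TA) G, IsGeneric N (ap P β) (ap L β) G →
      ev G σ.1.1 ∈ ev G (ap Q β) := fun σ G hG => (hI.names β hβ).name _ (hTm σ) G hG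
  have hOβ := hI.top β hβ
  -- the main point
  have hyp : ∀ p, ∃ p₀, le p₀ p ∧ ∃ S : IPow (Tm N) (El PA × (INat (Tm N) × (El PA × El TA))),
      Good le W D p₀ S := by
    intro p
    obtain ⟨G, hG, hpG⟩ := exists_gen hct hF (hPm p)
    obtain ⟨t, htP, htop⟩ := hF.top
    have htG : ∀ G', IsGeneric N (ap P β) (ap L β) G' → t ∈ G' := fun G' hG' => by
      obtain ⟨q, hq⟩ := hG'.nonempty
      exact hG'.up q hq t htP (htop q (hG'.sub hq))
    have htN := hZ.trans _ (hI.PN hZ hβ') _ htP
    -- the name of the predense set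
    obtain ⟨s, hs, hs'⟩ := exists_set hD₀
    have hsm : ∀ z, z ∈ s ↔ ∃ x : El XA, D₀ x ∧ x.1.1 = z := hs'
    obtain ⟨Dn, hDnN, hDn⟩ : ∃ Dn ∈ N, ∀ G' z, z ∈ ev G' Dn ↔ ∃ x, D₀ x ∧ (rF x).1.1 ∈ G' ∧
        z = ev G' (aF x).1.1 := by
      refine ⟨im (fun d => pair (ap d β) (rst d β)) s, hZ.im_mem hs
        (hB.pair' hda hdr), fun G' z => ?_⟩
      rw [mem_ev]
      constructor
      · rintro ⟨y, c, h1, h2, rfl⟩
        obtain ⟨d, hd, h4⟩ := mem_im.1 h1
        obtain ⟨rfl, rfl⟩ := ZFSet.pair_inj.1 h4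
        obtain ⟨x, hx, rfl⟩ := (hsm _).1 hd
        exact ⟨x, hx, by rw [hrF]; exact h2, by rw [haF]⟩
      · rintro ⟨x, hx, h1, rfl⟩
        refine ⟨_, _, mem_im.2 ⟨x.1.1, (hsm _).2 ⟨x, hx, rfl⟩, rfl⟩, ?_, ?_⟩
        · rw [← hrF]
          exact h1
        · rw [haF]
    have hT : ∀ G', IsGeneric N (ap P β) (ap L β) G' → ∀ y ∈ ev G' (ap Q β), ∃ σ : El TA,
        ev G' σ.1.1 = y := by
      intro G' hG' y hy
      obtain ⟨σ, hσ, h1⟩ := exists_T hI hβ hG' hy
      exact ⟨mk σ (by rw [hTA]; exact hσ), h1⟩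
    have hDnp : IsPredense (ev G (ap Q β)) (ev G (ap R β)) (ev G Dn) := by
      refine ⟨fun z hz => ?_, fun y hy => ?_⟩
      · obtain ⟨x, -, -, rfl⟩ := (hDn G z).1 hz
        exact hEv _ G hG
      · obtain ⟨σ, rfl⟩ := hT G hG y hy
        have hEI : Int (Tm N) fun r : El PA => ∃ x, D₀ x ∧ le r (rF x) ∧
            ∃ ρ, W r ρ σ ∧ W r ρ (aF x) := by (repeat' (first | with_reducible exact IntF.id | with_reducible exact IntF.fst' | with_reducible exact IntF.snd' | with_reducible exact IntF.const _ | with_reducible exact Int.const _ | assumption | with_reducible apply Int.and | with_reducible apply Int.or | with_reducible apply Int.not | with_reducible apply Int.imp | with_reducible apply Int.iff | with_reducible apply Int.ne | with_reducible apply Int.eq | with_reducible apply Int.mem | with_reducible apply Int.subset | with_reducible apply Int.ltN | with_reducible apply Int.leN | with_reducible_and_instances apply Int.le | with_reducible_and_instances apply Int.lt | with_reducible apply Int.all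 | with_reducible apply Int.ex | with_reducible apply IntF.fst | with_reducible apply IntF.snd | with_reducible apply IntF.app | with_reducible apply IntF.inl | with_reducible apply IntF.inr | with_reducible_and_instances apply IntF.mul | with_reducible_and_instances apply IntF.inv | with_reducible_and_instances apply IntF.add | with_reducible_and_instances apply IntF.sub | with_reducible_and_instances apply IntF.neg | with_reducible_and_instances apply IntF.smul | with_reducible apply Int.fin | with_reducible apply IntF.sep | with_reducible apply IntF.lam | with_reducible apply IntF.insert | with_reducible apply IntF.singleton | with_reducible apply IntF.union | with_reducible apply IntF.iimage | with_reducible apply IntF.ite | with_reducible apply IntF.the | with_reducible apply IntF.irec | with_reducible apply IntF.succ | with_reducible apply IntF.val | with_reducible apply IntF.mk | (with_reducible refine Int.comp ?_ ?_; assumption) | (with_reducible refine Int.comp₂ ?_ ?_ ?_; assumption)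 | (with_reducible refine Int.comp₃ ?_ ?_ ?_ ?_; assumption) | (with_reducible refine Int.comp₄ ?_ ?_ ?_ ?_ ?_; assumption) | (with_reducible refine IntF.comp ?_ ?_; assumption) | (with_reducible refine IntF.comp₂ ?_ ?_ ?_; assumption) | (with_reducible refine IntF.comp₃ ?_ ?_ ?_ ?_; assumption) | with_reducible apply IntF.pair))
        obtain ⟨e, he, he'⟩ := exists_set hEI
        obtain ⟨r, hr, hrG⟩ := hG.meet e he (by
          intro z hz
          obtain ⟨a, -, rfl⟩ := (he' z).1 hz
          exact hPm a) (by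
          intro q hq
          obtain ⟨x, hx1, hx2⟩ := hsur (mk q (by rw [hPA]; exact hq)) σ
          obtain ⟨d, hd, z, hz1, hz2⟩ := hpd x
          rw [hlxW] at hz1 hz2
          refine ⟨(rF z).1.1, (he' _).2 ⟨rF z, ⟨d, hd, hz2.1, aF z, ?_, hz2.2⟩, rfl⟩, ?_⟩
          · rw [← hx2]
            exact hz1.2
          · have h1 := (hle _ _).1 hz1.1
            rw [hx1] at h1
            exact h1)
        obtain ⟨a, ⟨x, hx, h1, ρ, h2, h4⟩, rfl⟩ := (he' r).1 hr
        refine ⟨_, (hDn G _).2 ⟨x, hx, hG.up _ hrG _ (hPm _) ((hle _ _).1 h1), rfl⟩,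
          ev G ρ.1.1, hEv ρ G hG, (hWi _ _ _).1 h2 G hG hrG, (hWi _ _ _).1 h4 G hG hrG⟩
    obtain ⟨C, -, hCD, hCp, f', hf', hCf⟩ := hQ G hG (ev G Dn) ⟨Dn, hDnN, rfl⟩ hDnp
    obtain ⟨f, hf, rfl⟩ := hf'
    have hRl : Rl (ev G f) (ev G (ap Q β)) (ev G (ap R β)) (ev G Dn)
        (ev G (chk t ZFSet.omega)) := by
      rw [ev_chk (htG G hG)]
      refine ⟨fun x hx x' hx' n hn h1 h2 => hCf.2 _ _ _ h1 h2, fun y hy => ?_⟩
      obtain ⟨x, hx, z, hz, h1, h2⟩ := hCp.2 y hy
      obtain ⟨n, hn, -⟩ := hCf.1.2 x hx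
      have h4 := hCf.1.1 hn
      rw [ZFSet.pair_mem_prod] at h4
      exact ⟨x, hCp.1 hx, hCD hx, ⟨n, h4.2, hn⟩, z, hz, h1, h2⟩
    obtain ⟨p₁, hp₁G, hp₁⟩ := ft hZ hF d0_Rl
      (v := ![f, ap Q β, ap R β, Dn, chk t ZFSet.omega]) (by
        intro i
        fin_cases i
        · exact hf
        · exact hI.QN hZ hβ
        · exact hI.RN hZ hβ
        · exact hDnN
        · exact chk_mem hZ htN hZ.infinity) hG hRl
    replace hp₁ : ∀ G', IsGeneric N (ap P β) (ap L β) G' → p₁ ∈ G' →
        Rl (ev G' f) (ev G' (ap Q β)) (ev G' (ap R β)) (ev G' Dn) ZFSet.omega := by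
      intro G' hG' hp
      have h1 := hp₁ G' hG' hp
      replace h1 : Rl (ev G' f) (ev G' (ap Q β)) (ev G' (ap R β)) (ev G' Dn)
        (ev G' (chk t ZFSet.omega)) := h1
      rwa [ev_chk (htG G' hG')] at h1
    obtain ⟨p₀, hp₀G, h1, h2⟩ := hG.dir _ hpG _ hp₁G
    obtain ⟨p₀', hp₀'⟩ : ∃ p₀' : El PA, p₀'.1.1 = p₀ :=
      ⟨mk p₀ (by rw [hPA]; exact hG.sub hp₀G), rfl⟩
    subst hp₀'
    refine ⟨p₀', (hle _ _).2 h1, ?_⟩
    -- the code of the name
    obtain ⟨F, hFd⟩ : ∃ F : El PA → INat (Tm N) → El TA → Prop, ∀ q n τ, F q n τ ↔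
        ∀ G', IsGeneric N (ap P β) (ap L β) G' → q.1.1 ∈ G' →
          pair (ev G' τ.1.1) (code (M := Tm N) n).1 ∈ ev G' f := ⟨_, fun _ _ _ => Iff.rfl⟩
    have hFI : Int (Tm N) fun q : (El PA × INat (Tm N)) × El TA => F q.1.1 q.1.2 q.2 := by
      have hd := fd hZ hF hct (n := 3) (m := 1)
        (R := fun v : Fin 3 → ZFSet.{0} => pair (v 0) (v 1) ∈ v 2)
        (D0.pairMem (D0v.proj 0) (D0v.proj 1) (D0v.proj 2))
        (F := ![fun w => sn (w 0), fun w => chk t (sn (fs (w 0))), fun _ => f]) (by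
          intro i
          fin_cases i
          · exact hZ.sn' (DfnF.proj 0)
          · exact DfnF.comp1 (f := chk t) (dfn_chk hZ htN) (hZ.sn' (hZ.fs' (DfnF.proj 0)))
          · exact DfnF.const hf) (H := fun w => fs (fs (w 0))) (hZ.fs' (hZ.fs' (DfnF.proj 0)))
      have hm := hZ.sep_mem (Q := fun u => fs (fs u) ∈ ap P β ∧
        ∀ G, IsGeneric N (ap P β) (ap L β) G → fs (fs u) ∈ G →
          pair (ev G (sn u)) (ev G (chk t (sn (fs u)))) ∈ ev G f) (hd.congr fun v _ => Iff.rfl)
        (hZ.prod_mem (hZ.prod_mem (hI.PN hZ hβ') hZ.infinity) (hI.TN hZ hβ))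
      refine int_rel3' hm fun a b c => ?_
      show pair (pair a.1.1 (code (M := Tm N) b).1) c.1.1 ∈ _ ↔ _
      rw [ZFSet.mem_sep, ZFSet.pair_mem_prod, ZFSet.pair_mem_prod, fs_pair, fs_pair, sn_pair,
        sn_pair, hFd]
      constructor
      · rintro ⟨-, -, h4⟩ G' hG' ha
        have h5 := h4 G' hG' ha
        rwa [ev_chk (htG G' hG')] at h5
      · intro h4
        refine ⟨⟨⟨hPm a, code_nat_mem b⟩, hTm c⟩, hPm a, fun G' hG' ha => ?_⟩
        rw [ev_chk (htG G' hG')]
        exact h4 G' hG' ha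
    have hSI : Int (Tm N) fun c : El PA × (INat (Tm N) × (El PA × El TA)) =>
        D c.2.2.1 c.2.2.2 ∧ le c.1 c.2.2.1 ∧ F c.1 c.2.1 c.2.2.2 := by (repeat' (first | with_reducible exact IntF.id | with_reducible exact IntF.fst' | with_reducible exact IntF.snd' | with_reducible exact IntF.const _ | with_reducible exact Int.const _ | assumption | with_reducible apply Int.and | with_reducible apply Int.or | with_reducible apply Int.not | with_reducible apply Int.imp | with_reducible apply Int.iff | with_reducible apply Int.ne | with_reducible apply Int.eq | with_reducible apply Int.mem | with_reducible apply Int.subset | with_reducible apply Int.ltN | with_reducible apply Int.leN | with_reducible_and_instances apply Int.le | with_reducible_and_instances apply Int.lt | with_reducible apply Int.all | with_reducible apply Int.ex | with_reducible apply IntF.fst | with_reducible apply IntF.snd | with_reducible apply IntF.app | with_reducible apply IntF.inl | with_reducible apply IntF.inr | with_reducible_and_instances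 apply IntF.mul | with_reducible_and_instances apply IntF.inv | with_reducible_and_instances apply IntF.add | with_reducible_and_instances apply IntF.sub | with_reducible_and_instances apply IntF.neg | with_reducible_and_instances apply IntF.smul | with_reducible apply Int.fin | with_reducible apply IntF.sep | with_reducible apply IntF.lam | with_reducible apply IntF.insert | with_reducible apply IntF.singleton | with_reducible apply IntF.union | with_reducible apply IntF.iimage | with_reducible apply IntF.ite | with_reducible apply IntF.the | with_reducible apply IntF.irec | with_reducible apply IntF.succ | with_reducible apply IntF.val | with_reducible apply IntF.mk | (with_reducible refine Int.comp ?_ ?_; assumption) | (with_reducible refine Int.comp₂ ?_ ?_ ?_; assumption) | (with_reducible refine Int.comp₃ ?_ ?_ ?_ ?_; assumption) | (with_reducible refine Int.comp₄ ?_ ?_ ?_ ?_ ?_; assumption) | (with_reducible refine IntF.comp ?_ ?_; assumption) | (with_reducible refine IntF.comp₂ ?_ ?_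 ?_; assumption) | (with_reducible refine IntF.comp₃ ?_ ?_ ?_ ?_; assumption) | with_reducible apply IntF.pair))
    refine ⟨sep (Tm N) fun c : El PA × (INat (Tm N) × (El PA × El TA)) =>
        D c.2.2.1 c.2.2.2 ∧ le c.1 c.2.2.1 ∧ F c.1 c.2.1 c.2.2.2, ?_, ?_, ?_, ?_⟩
    · intro q n d r hq hr
      obtain ⟨g1, g2, g3⟩ := (mem_sep hSI).1 hq
      exact (mem_sep hSI).2 ⟨g1, htrans _ _ _ hr g2, (hFd _ _ _).2 fun G' hG' hr' =>
        (hFd _ _ _).1 g3 G' hG' (hG'.up _ hr' _ (hPm q) ((hle _ _).1 hr))⟩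
    · intro q n d hq
      obtain ⟨g1, g2, -⟩ := (mem_sep hSI).1 hq
      exact ⟨g1, g2⟩
    · intro q n d d' hq hq' hq0
      obtain ⟨-, -, g3⟩ := (mem_sep hSI).1 hq
      obtain ⟨-, -, g3'⟩ := (mem_sep hSI).1 hq'
      refine (hWi _ _ _).2 fun G' hG' hqG => ?_
      have hp₀' := hG'.up _ hqG _ (hPm _) ((hle _ _).1 hq0)
      have hp₁' := hG'.up _ hp₀' _ (hG.sub hp₁G) h2
      have h4 : ev G' d.2.1.1 = ev G' d'.2.1.1 := (hp₁ G' hG' hp₁').1 _ (hEv _ G' hG') _
        (hEv _ G' hG') _ (code_nat_mem n) ((hFd _ _ _).1 g3 G' hG' hqG)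
        ((hFd _ _ _).1 g3' G' hG' hqG)
      rw [h4]
      exact (hI.pre β hβ G' hG').refl _ (hEv _ G' hG')
    · intro τ q hq0
      obtain ⟨G', hG', hqG⟩ := exists_gen hct hF (hPm q)
      have hp₀' := hG'.up _ hqG _ (hPm _) ((hle _ _).1 hq0)
      have hp₁' := hG'.up _ hp₀' _ (hG.sub hp₁G) h2
      obtain ⟨x, hx, hxD, ⟨n, hn, hxn⟩, z, hz, hzy, hzx⟩ :=
        (hp₁ G' hG' hp₁').2 _ (hEv τ G' hG')
      obtain ⟨d, hd, hdG, rfl⟩ := (hDn G' x).1 hxD
      obtain ⟨ρ, rfl⟩ := hT G' hG' z hz
      obtain ⟨m, rfl⟩ := exists_code (N := N) hn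
      have hTN : ∀ σ : El TA, σ.1.1 ∈ N := fun σ => σ.1.2
      have hmN : (code (M := Tm N) m).1 ∈ N := (code (M := Tm N) m).2
      obtain ⟨r₁, hr₁, k₁⟩ := ft_pair hI hβ hG' (hTN ρ) (hTN τ) (hI.RN hZ hβ) hzy
      obtain ⟨r₂, hr₂, k₂⟩ := ft_pair hI hβ hG' (hTN ρ) (hTN (aF d)) (hI.RN hZ hβ) hzx
      obtain ⟨r₃, hr₃, k₃⟩ := ft_pair hI hβ hG' (hTN (aF d)) (chk_mem hZ htN hmN) hf (by
        rw [ev_chk (htG G' hG')]
        exact hxn)
      obtain ⟨a, haG, ha1, ha2⟩ := hG'.dir _ hr₁ _ hr₂
      obtain ⟨b, hbG, hb1, hb2⟩ := hG'.dir _ hr₃ _ hqG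
      obtain ⟨c, hcG, hc1, hc2⟩ := hG'.dir _ haG _ hbG
      obtain ⟨r, hrG, hr1, hr2⟩ := hG'.dir _ hcG _ hdG
      have hup : ∀ G'', IsGeneric N (ap P β) (ap L β) G'' → r ∈ G'' → r₁ ∈ G'' ∧ r₂ ∈ G'' ∧
          r₃ ∈ G'' := by
        intro G'' hG'' hr
        have e1 := hG''.up _ hr _ (hG'.sub hcG) hr1
        have e2 := hG''.up _ e1 _ (hG'.sub haG) hc1
        have e3 := hG''.up _ e1 _ (hG'.sub hbG) hc2
        exact ⟨hG''.up _ e2 _ (hG'.sub hr₁) ha1, hG''.up _ e2 _ (hG'.sub hr₂) ha2,
          hG''.up _ e3 _ (hG'.sub hr₃) hb1⟩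
      have hrq : pair r q.1.1 ∈ ap L β := by
        have e1 := hF.trans _ (hG'.sub hbG) _ (hG'.sub hcG) _ (hG'.sub hrG) hr1 hc2
        exact hF.trans _ (hPm q) _ (hG'.sub hbG) _ (hG'.sub hrG) e1 hb2
      obtain ⟨r', hr'⟩ : ∃ r' : El PA, r'.1.1 = r :=
        ⟨mk r (by rw [hPA]; exact hG'.sub hrG), rfl⟩
      subst hr'
      refine ⟨r', m, (rF d, aF d), ρ, (hle _ _).2 hrq, (mem_sep hSI).2
        ⟨(hD _ _).2 ⟨d, hd, rfl, rfl⟩, (hle _ _).2 hr2, (hFd _ _ _).2 fun G'' hG'' hr => ?_⟩,
        (hWi _ _ _).2 fun G'' hG'' hr => k₁ G'' hG'' (hup G'' hG'' hr).1,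
        (hWi _ _ _).2 fun G'' hG'' hr => k₂ G'' hG'' (hup G'' hG'' hr).2.1⟩
      have h5 := k₃ G'' hG'' (hup G'' hG'' hr).2.2
      rwa [ev_chk (htG G'' hG'')] at h5
  obtain ⟨C, hC, hCD, hCc, hCp⟩ := suc_ccc hDC hleI hrefl htrans (ccc3_int (A := PA) (by
    rw [hPA]
    exact h3) hle) hWI (by
    intro q r σ τ hr h1
    exact (hWi _ _ _).2 fun G hG hrG => (hWi _ _ _).1 h1 G hG
      (hG.up _ hrG _ (hPm q) ((hle _ _).1 hr))) (by
    intro r ρ σ τ h1 h2
    exact (hWi _ _ _).2 fun G hG hrG => (hI.pre β hβ G hG).trans _ (hEv _ G hG) _ (hEv _ G hG) _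
      (hEv _ G hG) ((hWi _ _ _).1 h1 G hG hrG) ((hWi _ _ _).1 h2 G hG hrG)) hDI
    (mk (ap O β) (by rw [hTA]; exact hOβ)) hyp
  have hCI : Int (Tm N) fun x : El XA => C (rF x, aF x) := by (repeat' (first | with_reducible exact IntF.id | with_reducible exact IntF.fst' | with_reducible exact IntF.snd' | with_reducible exact IntF.const _ | with_reducible exact Int.const _ | assumption | with_reducible apply Int.and | with_reducible apply Int.or | with_reducible apply Int.not | with_reducible apply Int.imp | with_reducible apply Int.iff | with_reducible apply Int.ne | with_reducible apply Int.eq | with_reducible apply Int.mem | with_reducible apply Int.subset | with_reducible apply Int.ltN | with_reducible apply Int.leN | with_reducible_and_instances apply Int.le | with_reducible_and_instances apply Int.lt | with_reducible apply Int.all | with_reducible apply Int.ex | with_reducible apply IntF.fst | with_reducible apply IntF.snd | with_reducible apply IntF.app | with_reducible apply IntF.inl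 | with_reducible apply IntF.inr | with_reducible_and_instances apply IntF.mul | with_reducible_and_instances apply IntF.inv | with_reducible_and_instances apply IntF.add | with_reducible_and_instances apply IntF.sub | with_reducible_and_instances apply IntF.neg | with_reducible_and_instances apply IntF.smul | with_reducible apply Int.fin | with_reducible apply IntF.sep | with_reducible apply IntF.lam | with_reducible apply IntF.insert | with_reducible apply IntF.singleton | with_reducible apply IntF.union | with_reducible apply IntF.iimage | with_reducible apply IntF.ite | with_reducible apply IntF.the | with_reducible apply IntF.irec | with_reducible apply IntF.succ | with_reducible apply IntF.val | with_reducible apply IntF.mk | (with_reducible refine Int.comp ?_ ?_; assumption) | (with_reducible refine Int.comp₂ ?_ ?_ ?_; assumption) | (with_reducible refine Int.comp₃ ?_ ?_ ?_ ?_; assumption) | (with_reducible refine Int.comp₄ ?_ ?_ ?_ ?_ ?_; assumption) | (with_reducible refine IntF.comp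 ?_ ?_; assumption) | (with_reducible refine IntF.comp₂ ?_ ?_ ?_; assumption) | (with_reducible refine IntF.comp₃ ?_ ?_ ?_ ?_; assumption) | with_reducible apply IntF.pair))
  have hpI : IntF (Tm N) fun x : El XA => (rF x, aF x) := by (repeat' (first | with_reducible exact IntF.id | with_reducible exact IntF.fst' | with_reducible exact IntF.snd' | with_reducible exact IntF.const _ | with_reducible exact Int.const _ | assumption | with_reducible apply Int.and | with_reducible apply Int.or | with_reducible apply Int.not | with_reducible apply Int.imp | with_reducible apply Int.iff | with_reducible apply Int.ne | with_reducible apply Int.eq | with_reducible apply Int.mem | with_reducible apply Int.subset | with_reducible apply Int.ltN | with_reducible apply Int.leN | with_reducible_and_instances apply Int.le | with_reducible_and_instances apply Int.lt | with_reducible apply Int.all | with_reducible apply Int.ex | with_reducible apply IntF.fst | with_reducible apply IntF.snd | with_reducible apply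 IntF.app | with_reducible apply IntF.inl | with_reducible apply IntF.inr | with_reducible_and_instances apply IntF.mul | with_reducible_and_instances apply IntF.inv | with_reducible_and_instances apply IntF.add | with_reducible_and_instances apply IntF.sub | with_reducible_and_instances apply IntF.neg | with_reducible_and_instances apply IntF.smul | with_reducible apply Int.fin | with_reducible apply IntF.sep | with_reducible apply IntF.lam | with_reducible apply IntF.insert | with_reducible apply IntF.singleton | with_reducible apply IntF.union | with_reducible apply IntF.iimage | with_reducible apply IntF.ite | with_reducible apply IntF.the | with_reducible apply IntF.irec | with_reducible apply IntF.succ | with_reducible apply IntF.val | with_reducible apply IntF.mk | (with_reducible refine Int.comp ?_ ?_; assumption) | (with_reducible refine Int.comp₂ ?_ ?_ ?_; assumption) | (with_reducible refine Int.comp₃ ?_ ?_ ?_ ?_; assumption) | (with_reducible refine Int.comp₄ ?_ ?_ ?_ ?_ ?_; assumption)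 | (with_reducible refine IntF.comp ?_ ?_; assumption) | (with_reducible refine IntF.comp₂ ?_ ?_ ?_; assumption) | (with_reducible refine IntF.comp₃ ?_ ?_ ?_ ?_; assumption) | with_reducible apply IntF.pair))
  refine ⟨fun x => C (rF x, aF x), hCI, fun x hx => ?_, ctb_comap hCc hpI (fun x y _ _ hxy => ?_)
    fun x hx => hx, fun x => ?_⟩
  · obtain ⟨y, hy, h1, h2⟩ := (hD _ _).1 (hCD _ hx)
    have h4 := hinj y x h1 h2
    exact h4 ▸ hy
  · obtain ⟨h1, h2⟩ := Prod.ext_iff.1 hxy
    exact hinj x y h1 h2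
  · obtain ⟨d, hd, r, ρ, h1, h2, h4, h5⟩ := hCp (rF x) (aF x)
    obtain ⟨y, hy, h6, h7⟩ := (hD _ _).1 (hCD _ hd)
    obtain ⟨z, hz1, hz2⟩ := hsur r ρ
    refine ⟨y, ?_, z, (hlxW _ _).2 ⟨?_, ?_⟩, (hlxW _ _).2 ⟨?_, ?_⟩⟩
    · show C (rF y, aF y)
      rw [h6, h7]
      exact hd
    · rw [hz1]
      exact h1
    · rw [hz1, hz2]
      exact h4
    · rw [hz1, h6]
      exact h2
    · rw [hz1, hz2, h7]
      exact h5

end

end Pool.Agent.Helper672.ZFA.H158IT
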