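import Pool.Agent.H158_IT.Lim
import Pool.Agent.H158_IT.Itr

/-!
# The successor step of the iteration theorem
-/

set_option maxHeartbeats 2000000
set_option linter.all false
set_option synthInstance.maxSize 2000

namespace Pool.Agent.Helper672.ZFA.H158IT

open FirstOrder FirstOrder.Language
open H635 (IWO)
open Pool.Agent.H310
open Pool.Agent.Helper672.ZFA.V246
open Pool.Agent.Helper672.ZFA.H158CC (ctb_of_inj ctb_comap ctb_prod)
open Pool.Agent.Helper672.Plain (LSet)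
open Pool.Agent.H635Amen (ZF)
open Pool.Agent.H158_IT (Tm tm mem_tm zf_tm IsCtble DC ft fd IsIteration IsFn rst mem_rst glu
  CCC3 IsPredense Cmp)
open Pool.Agent.W868 (IsZF nat mem_omega_iff Dfn DfnF fs sn fs_pair sn_pair ap D0 D0v)
open Pool.Agent.W868.GM (IsForcing IsGeneric ev ext mem_ev)
open Pool.Agent.Y588 (exists_gen chk ev_chk chk_mem dfn_chk)
open ZFSet (pair)

section

attribute [local instance] Helper672.Plain.toL

variable {N : Set ZFSet.{0}} [hN : Fact (IsZF N)]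

local instance instModelT4 : IsModel (Tm N) := Helper672.Plain.isModel_toL

/-- Internal functions from definable operations. -/
theorem intF_of_dfn {A B : Tm N} {F : ZFSet.{0} → ZFSet.{0}}
    (hF : DfnF N N fun w : Fin 1 → ZFSet.{0} => F (w 0)) (f : El A → El B)
    (h : ∀ a, (f a).1.1 = F a.1.1) : IntF (Tm N) f := by
  have hZ := hN.out
  have hd : Dfn N N fun w : Fin 1 → ZFSet.{0} => sn (w 0) = F (fs (w 0)) :=
    Dfn.eq (hZ.sn' (DfnF.proj 0)) (DfnF.comp1 hF (hZ.fs' (DfnF.proj 0)))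
  have h1 : Int (Tm N) fun q : El A × El B => f q.1 = q.2 := by
    refine int_rel (R := fun a b => f a = b) (s := ZFSet.sep (fun u => sn u = F (fs u))
      (ZFSet.prod A.1 B.1)) (hZ.sep_mem (Q := fun u => sn u = F (fs u)) hd
      (hZ.prod_mem A.2 B.2)) fun a b => ?_
    rw [ZFSet.mem_sep, ZFSet.pair_mem_prod, fs_pair, sn_pair, ← h]
    exact ⟨fun h1 => Subtype.ext (Subtype.ext h1.2.symm), fun h1 => ⟨⟨a.2, b.2⟩, by rw [h1]⟩⟩
  exact h1

theorem int_rel3' {α β γ : Type 1} [ITy (Tm N) α] [ITy (Tm N) β] [ITy (Tm N) γ] {s : ZFSet.{0}}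
    (hs : s ∈ N) {R : α → β → γ → Prop}
    (h : ∀ a b c, pair (pair (code (M := Tm N) a).1 (code (M := Tm N) b).1)
      (code (M := Tm N) c).1 ∈ s ↔ R a b c) :
    Int (Tm N) fun q : (α × β) × γ => R q.1.1 q.1.2 q.2 :=
  ⟨⟨s, hs⟩, fun q => by
    show (op (op (code (M := Tm N) q.1.1) (code (M := Tm N) q.1.2))
      (code (M := Tm N) q.2)).1 ∈ s ↔ _
    rw [op_val, op_val]
    exact h _ _ _⟩

/-- `z` as an element of `A`. -/
def mk {A : Tm N} (z : ZFSet.{0}) (hz : z ∈ A.1) : El A := ⟨tm z (hN.out.trans _ A.2 _ hz), hz⟩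

variable {δ P L Q R O T : ZFSet.{0}} (hI : IsIteration N δ P L Q R O T)

include hI

theorem exists_T {β : ZFSet.{0}} (hβ : β ∈ δ) {G : ZFSet.{0}}
    (hG : IsGeneric N (ap P β) (ap L β) G) {y : ZFSet.{0}} (hy : y ∈ ev G (ap Q β)) :
    ∃ σ ∈ ap T β, ev G σ = y := by
  have hβ' := ZFSet.mem_insert_iff.2 (Or.inr hβ : β = δ ∨ β ∈ δ)
  have hP := hI.forcing hN.out hβ'
  obtain ⟨τ, c, h1, h2, rfl⟩ := mem_ev.1 hy
  have hτ : τ ∈ N := (hN.out.of_pair_mem (hN.out.trans _ (hI.QN hN.out hβ) _ h1)).1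
  obtain ⟨p, hp, h3⟩ := ft hN.out hP (R := fun v : Fin 2 → ZFSet.{0} => v 0 ∈ v 1)
    (D0.mem (D0v.proj 0) (D0v.proj 1)) (v := ![τ, ap Q β]) (by
      intro i
      fin_cases i
      · exact hτ
      · exact hI.QN hN.out hβ) hG hy
  obtain ⟨σ, hσ, h4⟩ := (hI.names β hβ).full τ hτ p (hG.sub hp) h3
  exact ⟨σ, hσ, h4 G hG hp⟩

/-- Membership of pairs of values is forced. -/
theorem ft_pair {β : ZFSet.{0}} (hβ : β ∈ δ) {G : ZFSet.{0}}
    (hG : IsGeneric N (ap P β) (ap L β) G) {a b c : ZFSet.{0}} (ha : a ∈ N) (hb : b ∈ N)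
    (hc : c ∈ N) (h : pair (ev G a) (ev G b) ∈ ev G c) :
    ∃ r ∈ G, ∀ G', IsGeneric N (ap P β) (ap L β) G' → r ∈ G' →
      pair (ev G' a) (ev G' b) ∈ ev G' c := by
  have hβ' := ZFSet.mem_insert_iff.2 (Or.inr hβ : β = δ ∨ β ∈ δ)
  have hP := hI.forcing hN.out hβ'
  exact ft hN.out hP (R := fun v : Fin 3 → ZFSet.{0} => pair (v 0) (v 1) ∈ v 2)
    (D0.pairMem (D0v.proj 0) (D0v.proj 1) (D0v.proj 2)) (v := ![a, b, c]) (by
      intro i
      fin_cases i
      · exact ha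
      · exact hb
      · exact hc) hG h

omit hI in
theorem succ_mem (hδ : δ.IsOrdinal) {β : ZFSet.{0}} (hβ : β ∈ δ) :
    (insert β β : ZFSet.{0}) ∈ (insert δ δ : ZFSet.{0}) := by
  rw [ZFSet.mem_insert_iff]
  refine ((ZFSet.isOrdinal_succ (hδ.mem hβ)).subset_iff_eq_or_mem hδ).1 fun z hz => ?_
  rcases ZFSet.mem_insert_iff.1 hz with rfl | h
  · exact hβ
  · exact hδ.mem_trans h hβ

/-- The condition with the restriction `p` and the last value `σ`. -/
theorem exists_pr {β p σ : ZFSet.{0}} (hβ : β ∈ δ) (hp : p ∈ ap P β) (hσ : σ ∈ ap T β) :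
    ∃ x ∈ ap P (insert β β), rst x β = p ∧ ap x β = σ := by
  have hβ' := ZFSet.mem_insert_iff.2 (Or.inr hβ : β = δ ∨ β ∈ δ)
  have hZ := hN.out
  obtain ⟨p1, p2, p3, p4⟩ := (hI.cond β hβ' p).1 hp
  have hβN := hI.memN hZ hβ'
  have hσN := hZ.trans _ (hI.TN hZ hβ) _ hσ
  have hfn : IsFn (insert β β) (insert (pair β σ) p) := by
    refine ⟨fun u hu => ?_, fun x hx => ?_⟩
    · rcases ZFSet.mem_insert_iff.1 hu with rfl | h
      · exact ⟨β, ZFSet.mem_insert_iff.2 (Or.inl rfl), σ, rfl⟩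
      · obtain ⟨x, hx, y, rfl⟩ := p2.1 u h
        exact ⟨x, ZFSet.mem_insert_iff.2 (Or.inr hx), y, rfl⟩
    · rcases ZFSet.mem_insert_iff.1 hx with rfl | h
      · refine ⟨σ, ZFSet.mem_insert_iff.2 (Or.inl rfl), fun y hy => ?_⟩
        rcases ZFSet.mem_insert_iff.1 hy with h1 | h1
        · exact (ZFSet.pair_inj.1 h1).2
        · exact absurd (p2.pair_iff.1 h1).1 (ZFSet.mem_irrefl _)
      · refine ⟨ap p x, ZFSet.mem_insert_iff.2 (Or.inr (p2.mem h)), fun y hy => ?_⟩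
        rcases ZFSet.mem_insert_iff.1 hy with h1 | h1
        · rw [(ZFSet.pair_inj.1 h1).1] at h
          exact absurd h (ZFSet.mem_irrefl _)
        · exact (p2.ap_eq h1).symm
  have ha : ap (insert (pair β σ) p) β = σ := hfn.ap_eq (ZFSet.mem_insert_iff.2 (Or.inl rfl))
  have hb : ∀ x ∈ β, ap (insert (pair β σ) p) x = ap p x := fun x hx =>
    hfn.ap_eq (ZFSet.mem_insert_iff.2 (Or.inr (p2.mem hx)))
  have hsub : β ⊆ (insert β β : ZFSet.{0}) := fun x hx => ZFSet.mem_insert_iff.2 (Or.inr hx)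
  refine ⟨_, (hI.cond _ (succ_mem hI.ord hβ) _).2 ⟨hZ.insert_mem (hZ.pair_mem hβN hσN) p1,
    hfn, fun γ hγ => ?_, (p4.union (Set.finite_singleton β)).subset fun γ hγ => ?_⟩, ?_, ha⟩
  · rcases ZFSet.mem_insert_iff.1 hγ with rfl | h
    · rw [ha]
      exact hσ
    · rw [hb γ h]
      exact p3 γ h
  · rcases ZFSet.mem_insert_iff.1 hγ.1 with rfl | h
    · exact Or.inr rfl
    · have h1 := hγ.2
      rw [hb γ h] at h1
      exact Or.inl ⟨h, h1⟩
  · refine (hfn.rst hsub).ext p2 fun x hx => ?_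
    rw [hfn.ap_rst hsub hx, hb x hx]

/-- The order of the next stage. -/
theorem le_succ {β x y : ZFSet.{0}} (hβ : β ∈ δ) (hx : x ∈ ap P (insert β β))
    (hy : y ∈ ap P (insert β β)) : pair x y ∈ ap L (insert β β) ↔
      pair (rst x β) (rst y β) ∈ ap L β ∧ ∀ G, IsGeneric N (ap P β) (ap L β) G → rst x β ∈ G →
        pair (ev G (ap x β)) (ev G (ap y β)) ∈ ev G (ap R β) := by
  have hβ' := ZFSet.mem_insert_iff.2 (Or.inr hβ : β = δ ∨ β ∈ δ)
  have hα := succ_mem hI.ord hβ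
  have hsub : β ⊆ (insert β β : ZFSet.{0}) := fun x hx => ZFSet.mem_insert_iff.2 (Or.inr hx)
  constructor
  · intro h
    exact ⟨hI.rst_le hN.out hα hβ' hsub h, fun G hG hG' =>
      ((hI.order _ hα _ _).1 h).2.2 β (ZFSet.mem_insert_iff.2 (Or.inl rfl)) G hG hG'⟩
  · rintro ⟨h1, h2⟩
    refine (hI.order _ hα _ _).2 ⟨hx, hy, fun γ hγ G hG hG' => ?_⟩
    rcases ZFSet.mem_insert_iff.1 hγ with rfl | h
    · exact h2 G hG hG'
    · have h3 := ((hI.order _ hβ' _ _).1 h1).2.2 γ h G hG (by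
        rwa [Pool.Agent.H158_IT.rst_rst ((hI.ordα hβ').subset_of_mem h)])
      rwa [(hI.fn hα hx).ap_rst hsub h, (hI.fn hα hy).ap_rst hsub h] at h3

theorem ext_succ {β x y : ZFSet.{0}} (hβ : β ∈ δ) (hx : x ∈ ap P (insert β β))
    (hy : y ∈ ap P (insert β β)) (h1 : rst x β = rst y β) (h2 : ap x β = ap y β) : x = y := by
  have hα := succ_mem hI.ord hβ
  have hsub : β ⊆ (insert β β : ZFSet.{0}) := fun x hx => ZFSet.mem_insert_iff.2 (Or.inr hx)
  refine (hI.fn hα hx).ext (hI.fn hα hy) fun γ hγ => ?_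
  rcases ZFSet.mem_insert_iff.1 hγ with rfl | h
  · exact h2
  · rw [← (hI.fn hα hx).ap_rst hsub h, ← (hI.fn hα hy).ap_rst hsub h, h1]

end

end Pool.Agent.Helper672.ZFA.H158IT
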