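import Pool.Agent.H158_IT.Zfe
import Pool.Agent.H158_HM.Mod
import Pool.Agent.H158_IT.Itr

/-!
# An iteration of length two
-/

set_option autoImplicit false
set_option linter.all false

namespace Pool.Agent.H158_IT

open Pool.Agent.W868 Pool.Agent.W868.GM Pool.Agent.Y588
open ZFSet (pair)

/-! ### Countable sets -/

section

variable {N : Set ZFSet.{0}} (hN : IsZF N)

include hN

theorem IsCtble.mono' {A C : ZFSet.{0}} (h : IsCtble N C) (hA : A ∈ N) (hs : A ⊆ C) :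
    IsCtble N A := by
  obtain ⟨f, hf, ⟨⟨h1, h2⟩, h3⟩⟩ := h
  refine ⟨ZFSet.sep (fun u => fs u ∈ A) f, hN.sep_mem (Q := fun u => fs u ∈ A)
    (Dfn.mem (hN.fs' (DfnF.proj 0)) (DfnF.const hA)) hf, ⟨fun u hu => ?_, fun z hz => ?_⟩,
    fun a b c ha hb => h3 a b c (ZFSet.mem_sep.1 ha).1 (ZFSet.mem_sep.1 hb).1⟩
  · obtain ⟨hu, hu'⟩ := ZFSet.mem_sep.1 hu
    obtain ⟨a, ha, b, hb, rfl⟩ := ZFSet.mem_prod.1 (h1 hu)
    rw [fs_pair] at hu'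
    exact ZFSet.pair_mem_prod.2 ⟨hu', hb⟩
  · obtain ⟨w, hw, hw'⟩ := h2 z (hs hz)
    exact ⟨w, ZFSet.mem_sep.2 ⟨hw, by rw [fs_pair]; exact hz⟩, fun y hy =>
      hw' y (ZFSet.mem_sep.1 hy).1⟩

/-- Images. -/
theorem IsCtble.of_im {A : ZFSet.{0}} {F : ZFSet.{0} → ZFSet.{0}}
    (hF : DfnF N N fun w : Fin 1 → ZFSet.{0} => F (w 0)) (hA : A ∈ N)
    (hinj : ∀ x ∈ A, ∀ y ∈ A, F x = F y → x = y) (h : IsCtble N (im F A)) : IsCtble N A := by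
  obtain ⟨g, hg, ⟨⟨h1, h2⟩, h3⟩⟩ := h
  have hB := hN.base
  have hm : ∀ a b, pair a b ∈ ZFSet.sep (fun u => pair (F (fs u)) (sn u) ∈ g)
      (ZFSet.prod A ZFSet.omega) ↔ a ∈ A ∧ pair (F a) b ∈ g := by
    intro a b
    rw [ZFSet.mem_sep, ZFSet.pair_mem_prod, fs_pair, sn_pair]
    exact ⟨fun h => ⟨h.1.1, h.2⟩, fun h => ⟨⟨h.1, (ZFSet.pair_mem_prod.1 (h1 h.2)).2⟩, h.2⟩⟩
  refine ⟨ZFSet.sep (fun u => pair (F (fs u)) (sn u) ∈ g) (ZFSet.prod A ZFSet.omega),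
    hN.sep_mem (Q := fun u => pair (F (fs u)) (sn u) ∈ g)
      (Dfn.mem (hB.pair' (DfnF.comp1 hF (hN.fs' (DfnF.proj 0))) (hN.sn' (DfnF.proj 0)))
        (DfnF.const hg)) (hN.prod_mem hA hN.infinity), ⟨fun u hu => (ZFSet.mem_sep.1 hu).1,
    fun z hz => ?_⟩, fun a b c ha hb => ?_⟩
  · obtain ⟨w, hw, hw'⟩ := h2 (F z) (mem_im.2 ⟨z, hz, rfl⟩)
    exact ⟨w, (hm _ _).2 ⟨hz, hw⟩, fun y hy => hw' y ((hm _ _).1 hy).2⟩
  · rw [hm] at ha hb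
    exact hinj a ha.1 b hb.1 (h3 _ _ _ ha.2 hb.2)

/-- One more element. -/
theorem IsCtble.insert' {A x : ZFSet.{0}} (h : IsCtble N A) (hx : x ∈ N) :
    IsCtble N (insert x A) := by
  obtain ⟨f, hf, ⟨⟨h1, h2⟩, h3⟩⟩ := h
  have hB := hN.base
  by_cases hxA : x ∈ A
  · have h4 : (insert x A : ZFSet.{0}) = A := by
      ext z
      rw [ZFSet.mem_insert_iff]
      exact ⟨fun h => h.elim (fun h => h ▸ hxA) id, Or.inr⟩
    rw [h4]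
    exact ⟨f, hf, ⟨⟨h1, h2⟩, h3⟩⟩
  have hm : ∀ a b, pair a b ∈ (insert (pair x ∅)
      (im (fun u => pair (fs u) (insert (sn u) (sn u))) f) : ZFSet.{0}) ↔
      (a = x ∧ b = ∅) ∨ ∃ n, pair a n ∈ f ∧ b = insert n n := by
    intro a b
    rw [ZFSet.mem_insert_iff, mem_im, ZFSet.pair_inj]
    refine or_congr_right ⟨?_, ?_⟩
    · rintro ⟨u, hu, hu'⟩
      obtain ⟨c, hc, d, hd, rfl⟩ := ZFSet.mem_prod.1 (h1 hu)
      rw [fs_pair, sn_pair, ZFSet.pair_inj] at hu'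
      obtain ⟨rfl, rfl⟩ := hu'
      exact ⟨d, hu, rfl⟩
    · rintro ⟨n, hn, rfl⟩
      exact ⟨_, hn, by rw [fs_pair, sn_pair]⟩
  have hsi : ∀ m n : ZFSet.{0}, m ∈ ZFSet.omega → n ∈ ZFSet.omega →
      (insert m m : ZFSet.{0}) = insert n n → m = n := by
    intro m n hm hn h
    obtain ⟨m, rfl⟩ := mem_omega_iff.1 hm
    obtain ⟨n, rfl⟩ := mem_omega_iff.1 hn
    have h4 : nat (m + 1) = nat (n + 1) := h
    have h5 := nat_injective h4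
    have h6 : m = n := by omega
    rw [h6]
  have hne : ∀ n : ZFSet.{0}, (insert n n : ZFSet.{0}) ≠ ∅ := fun n h => by
    have : n ∈ (insert n n : ZFSet.{0}) := ZFSet.mem_insert_iff.2 (Or.inl rfl)
    rw [h] at this
    exact ZFSet.notMem_empty _ this
  have hs : ∀ n ∈ ZFSet.omega, (insert n n : ZFSet.{0}) ∈ ZFSet.omega := by
    intro n hn
    obtain ⟨n, rfl⟩ := mem_omega_iff.1 hn
    exact nat_mem_omega (n + 1)
  refine ⟨insert (pair x ∅) (im (fun u => pair (fs u) (insert (sn u) (sn u))) f),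
    hN.insert_mem (hN.pair_mem hx hN.empty_mem) (hN.im_mem hf (hB.pair' (hN.fs' (DfnF.proj 0))
      (hB.insert' (hN.sn' (DfnF.proj 0)) (hN.sn' (DfnF.proj 0))))), ⟨fun u hu => ?_,
    fun z hz => ?_⟩, fun a b c ha hb => ?_⟩
  · rcases ZFSet.mem_insert_iff.1 hu with rfl | hu
    · exact ZFSet.pair_mem_prod.2 ⟨ZFSet.mem_insert_iff.2 (Or.inl rfl), ZFSet.omega_zero⟩
    · obtain ⟨v, hv, rfl⟩ := mem_im.1 hu
      obtain ⟨c, hc, d, hd, rfl⟩ := ZFSet.mem_prod.1 (h1 hv)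
      rw [fs_pair, sn_pair]
      exact ZFSet.pair_mem_prod.2 ⟨ZFSet.mem_insert_iff.2 (Or.inr hc), hs d hd⟩
  · rcases ZFSet.mem_insert_iff.1 hz with rfl | hz
    · refine ⟨∅, (hm _ _).2 (Or.inl ⟨rfl, rfl⟩), fun y hy => ?_⟩
      rcases (hm _ _).1 hy with h | ⟨n, hn, -⟩
      · exact h.2
      · exact absurd (ZFSet.pair_mem_prod.1 (h1 hn)).1 hxA
    · obtain ⟨w, hw, hw'⟩ := h2 z hz
      refine ⟨insert w w, (hm _ _).2 (Or.inr ⟨w, hw, rfl⟩), fun y hy => ?_⟩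
      rcases (hm _ _).1 hy with h | ⟨n, hn, rfl⟩
      · exact absurd (h.1 ▸ hz) hxA
      · rw [hw' n hn]
  · rcases (hm _ _).1 ha with ⟨rfl, rfl⟩ | ⟨n, hn, rfl⟩ <;>
      rcases (hm _ _).1 hb with ⟨rfl, h4⟩ | ⟨m, hm', h4⟩
    · rfl
    · exact absurd h4.symm (hne _)
    · exact absurd h4 (hne _)
    · have h5 := hsi _ _ (ZFSet.pair_mem_prod.1 (h1 hn)).2 (ZFSet.pair_mem_prod.1 (h1 hm')).2 h4
      subst h5
      exact h3 _ _ _ hn hm'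

/-- The third chain condition implies the second one. -/
theorem ccc2_of_ccc3 {P L : ZFSet.{0}} (hP : IsForcing N P L) (h : CCC3 N P L) :
    CCC2 N P L := by
  intro A hA hAa
  have hB := hN.base
  have hd : Dfn N N fun w : Fin 1 → ZFSet.{0} => w 0 ∈ A ∨ ∀ a ∈ A, ¬ Cmp P L (w 0) a := by
    refine (Dfn.mem (DfnF.proj 0) (DfnF.const hA)).or ?_
    refine hB.ball (Q := fun a w => ¬ Cmp P L (w 0) a) (DfnF.const hA) ?_
    refine Dfn.not ?_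
    refine hB.bex (Q := fun r w => pair r (w 1) ∈ L ∧ pair r (w 0) ∈ L) (DfnF.const hP.mem) ?_
    exact (Dfn.mem (hB.pair' (DfnF.proj 0) (DfnF.proj 2)) (DfnF.const hP.le_mem)).and
      (Dfn.mem (hB.pair' (DfnF.proj 0) (DfnF.proj 1)) (DfnF.const hP.le_mem))
  have hsym : ∀ p q, Cmp P L p q → Cmp P L q p := by
    rintro p q ⟨r, hr, h1, h2⟩
    exact ⟨r, hr, h2, h1⟩
  obtain ⟨C, hC, h1, h2, h3⟩ := h (ZFSet.sep (fun p => p ∈ A ∨ ∀ a ∈ A, ¬ Cmp P L p a) P)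
    (hN.sep_mem (Q := fun p => p ∈ A ∨ ∀ a ∈ A, ¬ Cmp P L p a) hd hP.mem)
    ⟨fun z hz => (ZFSet.mem_sep.1 hz).1, fun p hp => by
      by_cases h4 : ∀ a ∈ A, ¬ Cmp P L p a
      · exact ⟨p, ZFSet.mem_sep.2 ⟨hp, Or.inr h4⟩, p, hp, hP.refl p hp, hP.refl p hp⟩
      · push Not at h4
        obtain ⟨a, ha, h5⟩ := h4
        exact ⟨a, ZFSet.mem_sep.2 ⟨hAa.1 ha, Or.inl ha⟩, h5⟩⟩
  refine IsCtble.mono' hN h3 hA fun a ha => ?_
  obtain ⟨c, hc, h4⟩ := h2.2 a (hAa.1 ha)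
  rcases (ZFSet.mem_sep.1 (h1 hc)).2 with h5 | h5
  · by_cases h6 : a = c
    · exact h6 ▸ hc
    · exact absurd h4 (hAa.2 a ha c h5 h6)
  · exact absurd (hsym _ _ h4) (h5 a ha)

end

/-! ### Finite sequences -/

/-- The function with domain `n` and the values `F 0, …, F (n - 1)`. -/
noncomputable def fnn (n : ℕ) (F : ℕ → ZFSet.{0}) : ZFSet.{0} :=
  ZFSet.range fun i : Fin n => pair (nat i) (F i)

theorem mem_fnn {n : ℕ} {F : ℕ → ZFSet.{0}} {z : ZFSet.{0}} :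
    z ∈ fnn n F ↔ ∃ i < n, z = pair (nat i) (F i) := by
  rw [fnn, ZFSet.mem_range]
  constructor
  · rintro ⟨i, rfl⟩
    exact ⟨i, i.2, rfl⟩
  · rintro ⟨i, hi, rfl⟩
    exact ⟨⟨i, hi⟩, rfl⟩

theorem pair_mem_fnn {n : ℕ} {F : ℕ → ZFSet.{0}} {i : ℕ} {y : ZFSet.{0}} :
    pair (nat i) y ∈ fnn n F ↔ i < n ∧ y = F i := by
  rw [mem_fnn]
  constructor
  · rintro ⟨j, hj, h⟩
    obtain ⟨h1, rfl⟩ := ZFSet.pair_inj.1 h
    rw [nat_injective h1]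
    exact ⟨hj, rfl⟩
  · rintro ⟨h, rfl⟩
    exact ⟨i, h, rfl⟩

theorem isFn_fnn {n : ℕ} {F : ℕ → ZFSet.{0}} : IsFn (nat n) (fnn n F) := by
  refine ⟨fun u hu => ?_, fun x hx => ?_⟩
  · obtain ⟨i, hi, rfl⟩ := mem_fnn.1 hu
    exact ⟨_, H158_HM.nat_mem_iff.2 hi, _, rfl⟩
  · obtain ⟨i, hi, rfl⟩ := H158_HM.mem_nat.1 hx
    exact ⟨F i, pair_mem_fnn.2 ⟨hi, rfl⟩, fun y hy => (pair_mem_fnn.1 hy).2⟩

theorem ap_fnn {n : ℕ} {F : ℕ → ZFSet.{0}} {i : ℕ} (h : i < n) :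
    ap (fnn n F) (nat i) = F i := isFn_fnn.ap_eq (pair_mem_fnn.2 ⟨h, rfl⟩)

theorem rst_fnn {n m : ℕ} {F : ℕ → ZFSet.{0}} (h : m ≤ n) : rst (fnn n F) (nat m) = fnn m F := by
  ext z
  rw [mem_rst, mem_fnn, mem_fnn]
  constructor
  · rintro ⟨⟨i, hi, rfl⟩, h1⟩
    rw [fs_pair, H158_HM.nat_mem_iff] at h1
    exact ⟨i, h1, rfl⟩
  · rintro ⟨i, hi, rfl⟩
    refine ⟨⟨i, by omega, rfl⟩, ?_⟩
    rw [fs_pair, H158_HM.nat_mem_iff]
    exact hi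

theorem eq_fnn {n : ℕ} {f : ZFSet.{0}} (h : IsFn (nat n) f) :
    f = fnn n fun i => ap f (nat i) := by
  refine h.ext isFn_fnn fun x hx => ?_
  obtain ⟨i, hi, rfl⟩ := H158_HM.mem_nat.1 hx
  rw [ap_fnn hi]

theorem fnn_congr {n : ℕ} {F F' : ℕ → ZFSet.{0}} (h : ∀ i < n, F i = F' i) :
    fnn n F = fnn n F' := by
  ext z
  rw [mem_fnn, mem_fnn]
  constructor
  · rintro ⟨i, hi, rfl⟩
    exact ⟨i, hi, by rw [h i hi]⟩
  · rintro ⟨i, hi, rfl⟩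
    exact ⟨i, hi, by rw [h i hi]⟩

theorem fnn_zero {F : ℕ → ZFSet.{0}} : fnn 0 F = ∅ := by
  refine (ZFSet.eq_empty _).2 fun z hz => ?_
  obtain ⟨i, hi, -⟩ := mem_fnn.1 hz
  exact absurd hi (Nat.not_lt_zero _)

theorem fnn_succ {n : ℕ} {F : ℕ → ZFSet.{0}} : fnn (n + 1) F = insert (pair (nat n) (F n))
    (fnn n F) := by
  ext z
  rw [ZFSet.mem_insert_iff, mem_fnn, mem_fnn]
  constructor
  · rintro ⟨i, hi, rfl⟩
    rcases Nat.lt_succ_iff_lt_or_eq.1 hi with h | h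
    · exact Or.inr ⟨i, h, rfl⟩
    · exact Or.inl (by rw [h])
  · rintro (rfl | ⟨i, hi, rfl⟩)
    · exact ⟨n, Nat.lt_succ_self n, rfl⟩
    · exact ⟨i, by omega, rfl⟩

theorem fnn_mem {N : Set ZFSet.{0}} (hN : IsZF N) {n : ℕ} {F : ℕ → ZFSet.{0}}
    (h : ∀ i < n, F i ∈ N) : fnn n F ∈ N := by
  induction n with
  | zero =>
    rw [fnn_zero]
    exact hN.empty_mem
  | succ n ih =>
    rw [fnn_succ]
    exact hN.insert_mem (hN.pair_mem (hN.nat_mem n) (h n (Nat.lt_succ_self n)))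
      (ih fun i hi => h i (by omega))

/-- Three values. -/
def sq (a b c : ZFSet.{0}) : ℕ → ZFSet.{0}
  | 0 => a
  | 1 => b
  | _ => c

end Pool.Agent.H158_IT
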