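import Pool.Agent.H158_IT.Two

/-!
# An iteration of length two: the definition
-/

set_option autoImplicit false
set_option linter.all false

namespace Pool.Agent.H158_IT

open Pool.Agent.W868 Pool.Agent.W868.GM Pool.Agent.Y588
open ZFSet (pair)

/-! ### The trivial notion of forcing -/

section

variable {N : Set ZFSet.{0}} (hN : IsZF N)

omit hN in
theorem gen0 {G : ZFSet.{0}} : IsGeneric N {∅} {pair ∅ ∅} G ↔ G = {∅} := by
  constructor
  · intro h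
    obtain ⟨p, hp⟩ := h.nonempty
    ext z
    constructor
    · exact fun hz => h.sub hz
    · intro hz
      rw [ZFSet.mem_singleton] at hz
      subst hz
      have h1 := h.sub hp
      rw [ZFSet.mem_singleton] at h1
      exact h1 ▸ hp
  · rintro rfl
    refine ⟨fun _ h => h, ⟨∅, by simp⟩, fun q _ p hp _ => hp, fun p hp q hq => ?_,
      fun D _ hD hd => ?_⟩
    · rw [ZFSet.mem_singleton] at hp hq
      subst hp
      subst hq
      exact ⟨∅, by simp, by simp, by simp⟩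
    · obtain ⟨q, hq, -⟩ := hd ∅ (by simp)
      exact ⟨q, hq, hD hq⟩

include hN

theorem forcing0 : IsForcing N {∅} {pair ∅ ∅} where
  mem := hN.single_mem hN.empty_mem
  le_mem := hN.single_mem (hN.pair_mem hN.empty_mem hN.empty_mem)
  refl p hp := by
    rw [ZFSet.mem_singleton] at hp
    subst hp
    simp
  trans p hp q hq r hr _ _ := by
    rw [ZFSet.mem_singleton] at hp hr
    subst hp
    subst hr
    simp
  top := ⟨∅, by simp, fun p hp => by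
    rw [ZFSet.mem_singleton] at hp
    subst hp
    simp⟩

theorem ext0 : ext N {∅} = N :=
  Set.Subset.antisymm (ext_sub hN (fun _ h => h) (hN.single_mem hN.empty_mem))
    (sub_ext' hN (forcing0 hN) (gen0.2 rfl))

theorem names0 {E : ZFSet.{0}} (hE : E ∈ N) :
    IsNames N {∅} {pair ∅ ∅} (chk ∅ E) (im (chk ∅) E) where
  name σ hσ G hG := by
    rw [gen0] at hG
    subst hG
    obtain ⟨e, he, rfl⟩ := mem_im.1 hσ
    rwa [ev_chk (by simp), ev_chk (by simp)]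
  full τ hτ p hp h := by
    rw [ZFSet.mem_singleton] at hp
    subst hp
    have h1 := h {∅} (gen0.2 rfl) (by simp)
    rw [ev_chk (by simp)] at h1
    refine ⟨chk ∅ (ev {∅} τ), mem_im.2 ⟨_, h1, rfl⟩, fun G hG _ => ?_⟩
    rw [gen0] at hG
    subst hG
    rw [ev_chk (by simp)]

end

/-! ### The second notion of forcing -/

/-- The condition of `P 1` that is given by `e`. -/
noncomputable def jj (e : ZFSet.{0}) : ZFSet.{0} := fnn 1 fun _ => chk ∅ e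

theorem chk_inj {a b : ZFSet.{0}} : chk ∅ a = chk ∅ b ↔ a = b := by
  constructor
  · intro h
    have h1 := ev_chk (G := {∅}) (t := ∅) (by simp) a
    rw [h, ev_chk (by simp)] at h1
    exact h1.symm
  · rintro rfl
    rfl

theorem jj_inj {a b : ZFSet.{0}} : jj a = jj b ↔ a = b := by
  constructor
  · intro h
    have h1 : ap (jj a) (nat 0) = ap (jj b) (nat 0) := by rw [h]
    rw [jj, jj, ap_fnn Nat.one_pos, ap_fnn Nat.one_pos] at h1
    exact chk_inj.1 h1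
  · rintro rfl
    rfl

/-- The conditions. -/
noncomputable def P1 (E : ZFSet.{0}) : ZFSet.{0} := im jj E

/-- The order. -/
noncomputable def L1 (LE : ZFSet.{0}) : ZFSet.{0} := im (fun u => pair (jj (fs u)) (jj (sn u))) LE

theorem mem_P1 {E p : ZFSet.{0}} : p ∈ P1 E ↔ ∃ e ∈ E, p = jj e := mem_im

/-- A notion of forcing in `N`, with a greatest element. -/
structure Fo (N : Set ZFSet.{0}) (E LE tE : ZFSet.{0}) : Prop where
  fo : IsForcing N E LE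
  sub : ∀ u ∈ LE, ∃ a ∈ E, ∃ b ∈ E, u = pair a b
  top : tE ∈ E
  le : ∀ e ∈ E, pair e tE ∈ LE

section

variable {N : Set ZFSet.{0}} (hN : IsZF N) {E LE tE : ZFSet.{0}} (hE : Fo N E LE tE)

include hE

theorem mem_L1 {p q : ZFSet.{0}} : pair q p ∈ L1 LE ↔ ∃ a b, pair a b ∈ LE ∧ q = jj a ∧
    p = jj b := by
  rw [L1, mem_im]
  constructor
  · rintro ⟨u, hu, h⟩
    obtain ⟨a, ha, b, hb, rfl⟩ := hE.sub u hu
    rw [fs_pair, sn_pair, ZFSet.pair_inj] at h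
    exact ⟨a, b, hu, h.1, h.2⟩
  · rintro ⟨a, b, h, rfl, rfl⟩
    exact ⟨_, h, by rw [fs_pair, sn_pair]⟩

theorem jj_L1 {a b : ZFSet.{0}} : pair (jj a) (jj b) ∈ L1 LE ↔ pair a b ∈ LE := by
  rw [mem_L1 hE]
  constructor
  · rintro ⟨c, d, h, h1, h2⟩
    rw [jj_inj.1 h1, jj_inj.1 h2]
    exact h
  · exact fun h => ⟨a, b, h, rfl, rfl⟩

include hN

omit hE in
theorem dfn_jj : DfnF N N fun w : Fin 1 → ZFSet.{0} => jj (w 0) := by
  have h1 : ∀ e : ZFSet.{0}, jj e = {pair (nat 0) (chk ∅ e)} := by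
    intro e
    rw [jj, fnn_succ, fnn_zero]
    rfl
  have hB := hN.base
  have h2 : DfnF N N fun w : Fin 1 → ZFSet.{0} => ({pair (nat 0) (chk ∅ (w 0))} : ZFSet.{0}) :=
    hB.single' (hB.pair' (DfnF.const (hN.nat_mem 0)) (dfn_chk hN hN.empty_mem))
  have h3 : (fun w : Fin 1 → ZFSet.{0} => jj (w 0)) =
      fun w => ({pair (nat 0) (chk ∅ (w 0))} : ZFSet.{0}) := by
    funext w
    exact h1 _
  rw [h3]
  exact h2

theorem forcing1 : IsForcing N (P1 E) (L1 LE) where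
  mem := hN.im_mem hE.fo.mem (dfn_jj hN)
  le_mem := hN.im_mem hE.fo.le_mem (hN.base.pair' (DfnF.comp1 (f := jj) (dfn_jj hN)
    (hN.fs' (DfnF.proj 0))) (DfnF.comp1 (f := jj) (dfn_jj hN) (hN.sn' (DfnF.proj 0))))
  refl p hp := by
    obtain ⟨e, he, rfl⟩ := mem_P1.1 hp
    exact (jj_L1 hE).2 (hE.fo.refl e he)
  trans p hp q hq r hr h1 h2 := by
    obtain ⟨a, ha, rfl⟩ := mem_P1.1 hp
    obtain ⟨b, hb, rfl⟩ := mem_P1.1 hq
    obtain ⟨c, hc, rfl⟩ := mem_P1.1 hr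
    rw [jj_L1 hE] at h1 h2 ⊢
    exact hE.fo.trans a ha b hb c hc h1 h2
  top := ⟨jj tE, mem_P1.2 ⟨tE, hE.top, rfl⟩, fun p hp => by
    obtain ⟨e, he, rfl⟩ := mem_P1.1 hp
    exact (jj_L1 hE).2 (hE.le e he)⟩

omit hE in
theorem jj_mem {e : ZFSet.{0}} (he : e ∈ N) : jj e ∈ N := (dfn_jj hN).1 (fun _ => e) fun _ => he

theorem tE_mem : tE ∈ N := hN.trans _ hE.fo.mem _ hE.top

theorem t1_mem {G : ZFSet.{0}} (hG : IsGeneric N (P1 E) (L1 LE) G) : jj tE ∈ G := by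
  obtain ⟨p, hp⟩ := hG.nonempty
  obtain ⟨e, he, rfl⟩ := mem_P1.1 (hG.sub hp)
  exact hG.up _ hp _ (mem_P1.2 ⟨tE, hE.top, rfl⟩) ((jj_L1 hE).2 (hE.le e he))

theorem ev_chk1 {G : ZFSet.{0}} (hG : IsGeneric N (P1 E) (L1 LE) G) (x : ZFSet.{0}) :
    ev G (chk (jj tE) x) = x := ev_chk (t1_mem hN hE hG) x

theorem gen1 {G : ZFSet.{0}} (hG : IsGeneric N (P1 E) (L1 LE) G) :
    IsGeneric N E LE (ZFSet.sep (fun e => jj e ∈ G) E) where
  sub e he := (ZFSet.mem_sep.1 he).1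
  nonempty := ⟨tE, ZFSet.mem_sep.2 ⟨hE.top, t1_mem hN hE hG⟩⟩
  up q hq p hp h := by
    obtain ⟨h1, h2⟩ := ZFSet.mem_sep.1 hq
    exact ZFSet.mem_sep.2 ⟨hp, hG.up _ h2 _ (mem_P1.2 ⟨p, hp, rfl⟩) ((jj_L1 hE).2 h)⟩
  dir p hp q hq := by
    obtain ⟨h1, h2⟩ := ZFSet.mem_sep.1 hp
    obtain ⟨h3, h4⟩ := ZFSet.mem_sep.1 hq
    obtain ⟨r, hr, h5, h6⟩ := hG.dir _ h2 _ h4
    obtain ⟨r, hr', rfl⟩ := mem_P1.1 (hG.sub hr)
    exact ⟨r, ZFSet.mem_sep.2 ⟨hr', hr⟩, (jj_L1 hE).1 h5, (jj_L1 hE).1 h6⟩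
  meet D hD hDE hd := by
    obtain ⟨q, hq, hqG⟩ := hG.meet (im jj D) (hN.im_mem hD (dfn_jj hN)) (fun z hz => by
        obtain ⟨e, he, rfl⟩ := mem_im.1 hz
        exact mem_P1.2 ⟨e, hDE he, rfl⟩) (fun p hp => by
        obtain ⟨e, he, rfl⟩ := mem_P1.1 hp
        obtain ⟨d, hd, h⟩ := hd e he
        exact ⟨_, mem_im.2 ⟨d, hd, rfl⟩, (jj_L1 hE).2 h⟩)
    obtain ⟨e, he, rfl⟩ := mem_im.1 hq
    exact ⟨e, he, ZFSet.mem_sep.2 ⟨hDE he, hqG⟩⟩

end

/-! ### Names for elements of a set of the ground model -/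

/-- The set of the names. -/
noncomputable def T1 (N : Set ZFSet.{0}) (E LE tE B : ZFSet.{0}) : ZFSet.{0} :=
  ZFSet.sep (fun σ => ∀ G, IsGeneric N (P1 E) (L1 LE) G → ev G σ ∈ B)
    (pwM N (ZFSet.prod (im (chk (jj tE)) (ZFSet.sUnion B)) (P1 E)))

section

variable {N : Set ZFSet.{0}} (hN : IsZF N) (hct : N.Countable) {E LE tE : ZFSet.{0}}
  (hE : Fo N E LE tE) {B LB : ZFSet.{0}} (hB : B ∈ N) (hLB : LB ∈ N) (h0 : ∅ ∈ B)

include hN hE hB

theorem bn_mem : im (chk (jj tE)) (ZFSet.sUnion B) ∈ N :=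
  hN.im_mem (hN.union _ hB) (dfn_chk hN (jj_mem hN (tE_mem hN hE)))

theorem chk_T1 {x : ZFSet.{0}} (hx : x ∈ B) : chk (jj tE) x ∈ T1 N E LE tE B := by
  refine ZFSet.mem_sep.2 ⟨mem_pwM.2 ⟨chk_mem hN (jj_mem hN (tE_mem hN hE)) (hN.trans _ hB _ hx),
    fun u hu => ?_⟩, fun G hG => ?_⟩
  · obtain ⟨y, hy, rfl⟩ := mem_chk.1 hu
    exact ZFSet.pair_mem_prod.2 ⟨mem_im.2 ⟨y, ZFSet.mem_sUnion.2 ⟨x, hx, hy⟩, rfl⟩,
      mem_P1.2 ⟨tE, hE.top, rfl⟩⟩
  · rwa [ev_chk1 hN hE hG]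

theorem T1_mem (hct : N.Countable) : T1 N E LE tE B ∈ N := by
  have htM := jj_mem hN (tE_mem hN hE)
  have hP := forcing1 hN hE
  have hd := fd hN hP hct (n := 2) (m := 1) (R := fun v : Fin 2 → ZFSet.{0} => v 0 ∈ v 1)
    (D0.mem (D0v.proj 0) (D0v.proj 1)) (F := ![fun w => w 0, fun _ => chk (jj tE) B]) (by
      intro i
      fin_cases i
      · exact DfnF.proj 0
      · exact DfnF.const (chk_mem hN htM hB)) (H := fun _ => jj tE) (DfnF.const htM)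
  refine hN.sep_mem (Q := fun σ => ∀ G, IsGeneric N (P1 E) (L1 LE) G → ev G σ ∈ B)
    (hd.congr fun w hw => ?_) (pwM_mem hN (hN.prod_mem (bn_mem hN hE hB) hP.mem))
  constructor
  · rintro ⟨-, h⟩ G hG
    have h1 := h G hG (t1_mem hN hE hG)
    replace h1 : ev G (w 0) ∈ ev G (chk (jj tE) B) := h1
    rwa [ev_chk1 hN hE hG] at h1
  · intro h
    refine ⟨mem_P1.2 ⟨tE, hE.top, rfl⟩, fun G hG _ => ?_⟩
    show ev G (w 0) ∈ ev G (chk (jj tE) B)
    rw [ev_chk1 hN hE hG]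
    exact h G hG

include h0

theorem names1 (hct : N.Countable) :
    IsNames N (P1 E) (L1 LE) (chk (jj tE) B) (T1 N E LE tE B) where
  name σ hσ G hG := by
    rw [ev_chk1 hN hE hG]
    exact (ZFSet.mem_sep.1 hσ).2 G hG
  full τ hτ p hp h := by
    have hb := hN.base
    have htM := jj_mem hN (tE_mem hN hE)
    have hP := forcing1 hN hE
    have hpN := hN.trans _ hP.mem _ hp
    have hd := fd hN hP hct (n := 2) (m := 1) (R := fun v : Fin 2 → ZFSet.{0} => v 0 ∈ v 1)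
      (D0.mem (D0v.proj 0) (D0v.proj 1)) (F := ![fun w => fs (w 0), fun _ => τ]) (by
        intro i
        fin_cases i
        · exact hN.fs' (DfnF.proj 0)
        · exact DfnF.const hτ) (H := fun w => sn (w 0)) (hN.sn' (DfnF.proj 0))
    have hd' : Dfn N N fun w : Fin 1 → ZFSet.{0} => pair (sn (w 0)) p ∈ L1 LE ∧
        (sn (w 0) ∈ P1 E ∧ ∀ G, IsGeneric N (P1 E) (L1 LE) G → sn (w 0) ∈ G →
          ev G (fs (w 0)) ∈ ev G τ) :=
      (Dfn.mem (hb.pair' (hN.sn' (DfnF.proj 0)) (DfnF.const hpN)) (DfnF.const hP.le_mem)).and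
        (hd.congr fun w hw => Iff.rfl)
    obtain ⟨σ, hσ⟩ : ∃ σ, σ = ZFSet.sep (fun u => pair (sn u) p ∈ L1 LE ∧
        (sn u ∈ P1 E ∧ ∀ G, IsGeneric N (P1 E) (L1 LE) G → sn u ∈ G →
          ev G (fs u) ∈ ev G τ)) (ZFSet.prod (im (chk (jj tE)) (ZFSet.sUnion B)) (P1 E)) :=
      ⟨_, rfl⟩
    have hσN : σ ∈ N := by
      rw [hσ]
      exact hN.sep_mem (Q := fun u => pair (sn u) p ∈ L1 LE ∧
        (sn u ∈ P1 E ∧ ∀ G, IsGeneric N (P1 E) (L1 LE) G → sn u ∈ G →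
          ev G (fs u) ∈ ev G τ)) hd' (hN.prod_mem (bn_mem hN hE hB) hP.mem)
    have hm : ∀ y r, pair y r ∈ σ ↔ (∃ z ∈ ZFSet.sUnion B, y = chk (jj tE) z) ∧ r ∈ P1 E ∧
        pair r p ∈ L1 LE ∧ ∀ G, IsGeneric N (P1 E) (L1 LE) G → r ∈ G → ev G y ∈ ev G τ := by
      intro y r
      rw [hσ, ZFSet.mem_sep, ZFSet.pair_mem_prod, fs_pair, sn_pair, mem_im]
      constructor
      · rintro ⟨⟨h1, h2⟩, h3, -, h4⟩
        exact ⟨h1, h2, h3, h4⟩
      · rintro ⟨h1, h2, h3, h4⟩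
        exact ⟨⟨h1, h2⟩, h3, h2, h4⟩
    have h1 : ∀ G, IsGeneric N (P1 E) (L1 LE) G → p ∈ G → ev G σ = ev G τ := by
      intro G hG hpG
      ext z
      rw [mem_ev]
      constructor
      · rintro ⟨y, r, h2, h3, rfl⟩
        exact ((hm y r).1 h2).2.2.2 G hG h3
      · intro hz
        have hzB : z ∈ ZFSet.sUnion B := by
          have h2 := h G hG hpG
          rw [ev_chk1 hN hE hG] at h2
          exact ZFSet.mem_sUnion.2 ⟨_, h2, hz⟩
        have hzN : z ∈ N := hN.trans _ (hN.union _ hB) _ hzB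
        have hcz := chk_mem hN htM hzN
        obtain ⟨r, hr, h2⟩ := ft hN hP (n := 2) (R := fun v : Fin 2 → ZFSet.{0} => v 0 ∈ v 1)
          (D0.mem (D0v.proj 0) (D0v.proj 1)) (v := ![chk (jj tE) z, τ]) (by
            intro i
            fin_cases i
            · exact hcz
            · exact hτ) hG (by
            show ev G (chk (jj tE) z) ∈ ev G τ
            rwa [ev_chk1 hN hE hG])
        obtain ⟨s, hs, h3, h4⟩ := hG.dir r hr p hpG
        refine ⟨chk (jj tE) z, s, (hm _ _).2 ⟨⟨z, hzB, rfl⟩, hG.sub hs, h4, fun G' hG' hs' => ?_⟩,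
          hs, ev_chk1 hN hE hG z⟩
        exact h2 G' hG' (hG'.up _ hs' _ (hG.sub hr) h3)
    have h2 : ∀ G, IsGeneric N (P1 E) (L1 LE) G → p ∉ G → ev G σ = ∅ := by
      intro G hG hpG
      refine (ZFSet.eq_empty _).2 fun z hz => ?_
      obtain ⟨y, r, h3, h4, -⟩ := mem_ev.1 hz
      exact hpG (hG.up _ h4 _ hp ((hm y r).1 h3).2.2.1)
    refine ⟨σ, ZFSet.mem_sep.2 ⟨mem_pwM.2 ⟨hσN, ?_⟩, fun G hG => ?_⟩, h1⟩
    · intro u hu
      rw [hσ] at hu
      exact (ZFSet.mem_sep.1 hu).1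
    · by_cases hpG : p ∈ G
      · rw [h1 G hG hpG]
        have h3 := h G hG hpG
        rwa [ev_chk1 hN hE hG] at h3
      · rw [h2 G hG hpG]
        exact h0

end

end Pool.Agent.H158_IT
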