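import Pool.Agent.H158_IT.TwoI

/-!
# An iteration of length two: the iteration
-/

set_option autoImplicit false
set_option linter.all false

namespace Pool.Agent.H158_IT

open Pool.Agent.W868 Pool.Agent.W868.GM Pool.Agent.Y588
open ZFSet (pair)

/-- A function with two values. -/
noncomputable def kk (x σ : ZFSet.{0}) : ZFSet.{0} := fnn 2 (sq x σ σ)

theorem ap_kk0 {x σ : ZFSet.{0}} : ap (kk x σ) (nat 0) = x := ap_fnn (by omega)

theorem ap_kk1 {x σ : ZFSet.{0}} : ap (kk x σ) (nat 1) = σ := ap_fnn (by omega)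

theorem ap_jj {e : ZFSet.{0}} : ap (jj e) (nat 0) = chk ∅ e := ap_fnn (by omega)

theorem rst_kk {e σ : ZFSet.{0}} : rst (kk (chk ∅ e) σ) (nat 1) = jj e := by
  rw [kk, rst_fnn (by omega), jj]
  refine fnn_congr fun i hi => ?_
  have : i = 0 := by omega
  subst this
  rfl

theorem rst_kk0 {x σ : ZFSet.{0}} : rst (kk x σ) (nat 0) = ∅ := by
  rw [kk, rst_fnn (by omega), fnn_zero]

theorem rst_jj0 {e : ZFSet.{0}} : rst (jj e) (nat 0) = ∅ := by
  rw [jj, rst_fnn (by omega), fnn_zero]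

theorem kk_inj {x σ x' σ' : ZFSet.{0}} : kk x σ = kk x' σ' ↔ x = x' ∧ σ = σ' := by
  constructor
  · intro h
    have h1 : ap (kk x σ) (nat 0) = ap (kk x' σ') (nat 0) := by rw [h]
    have h2 : ap (kk x σ) (nat 1) = ap (kk x' σ') (nat 1) := by rw [h]
    rw [ap_kk0, ap_kk0] at h1
    rw [ap_kk1, ap_kk1] at h2
    exact ⟨h1, h2⟩
  · rintro ⟨rfl, rfl⟩
    rfl

theorem eq_kk {p x σ : ZFSet.{0}} (h : IsFn (nat 2) p) (h0 : ap p (nat 0) = x)
    (h1 : ap p (nat 1) = σ) : p = kk x σ := by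
  rw [eq_fnn h, kk]
  refine fnn_congr fun i hi => ?_
  have h2 : i = 0 ∨ i = 1 := by omega
  rcases h2 with rfl | rfl
  · exact h0
  · exact h1

theorem eq_jj {p e : ZFSet.{0}} (h : IsFn (nat 1) p) (h0 : ap p (nat 0) = chk ∅ e) :
    p = jj e := by
  rw [eq_fnn h, jj]
  refine fnn_congr fun i hi => ?_
  have h2 : i = 0 := by omega
  subst h2
  exact h0

/-- The conditions of the iteration. -/
noncomputable def P2 (N : Set ZFSet.{0}) (E LE tE B : ZFSet.{0}) : ZFSet.{0} :=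
  im (fun u => kk (fs u) (sn u)) (ZFSet.prod (im (chk ∅) E) (T1 N E LE tE B))

/-- The order of the iteration. -/
noncomputable def L2 (N : Set ZFSet.{0}) (E LE tE B LB : ZFSet.{0}) : ZFSet.{0} :=
  ZFSet.sep (fun u => pair (rst (fs u) (nat 1)) (rst (sn u) (nat 1)) ∈ L1 LE ∧
    ∀ G, IsGeneric N (P1 E) (L1 LE) G → rst (fs u) (nat 1) ∈ G →
      pair (ev G (ap (fs u) (nat 1))) (ev G (ap (sn u) (nat 1))) ∈ LB)
    (ZFSet.prod (P2 N E LE tE B) (P2 N E LE tE B))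

theorem mem_P2 {N : Set ZFSet.{0}} {E LE tE B p : ZFSet.{0}} : p ∈ P2 N E LE tE B ↔
    ∃ e ∈ E, ∃ σ ∈ T1 N E LE tE B, p = kk (chk ∅ e) σ := by
  rw [P2, mem_im]
  constructor
  · rintro ⟨u, hu, rfl⟩
    obtain ⟨x, hx, σ, hσ, rfl⟩ := ZFSet.mem_prod.1 hu
    obtain ⟨e, he, rfl⟩ := mem_im.1 hx
    exact ⟨e, he, σ, hσ, by rw [fs_pair, sn_pair]⟩
  · rintro ⟨e, he, σ, hσ, rfl⟩
    exact ⟨pair (chk ∅ e) σ, ZFSet.pair_mem_prod.2 ⟨mem_im.2 ⟨e, he, rfl⟩, hσ⟩, by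
      rw [fs_pair, sn_pair]⟩

section

variable {N : Set ZFSet.{0}} (hN : IsZF N) (hct : N.Countable) {E LE tE : ZFSet.{0}}
  (hE : Fo N E LE tE) {B LB : ZFSet.{0}} (hB : B ∈ N) (hLB : LB ∈ N) (hpre : IsPre B LB ∅)

include hE

theorem kk_L2 {e e' σ σ' : ZFSet.{0}} : pair (kk (chk ∅ e) σ) (kk (chk ∅ e') σ') ∈
    L2 N E LE tE B LB ↔ kk (chk ∅ e) σ ∈ P2 N E LE tE B ∧ kk (chk ∅ e') σ' ∈ P2 N E LE tE B ∧
      pair e e' ∈ LE ∧ ∀ G, IsGeneric N (P1 E) (L1 LE) G → jj e ∈ G →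
        pair (ev G σ) (ev G σ') ∈ LB := by
  rw [L2, ZFSet.mem_sep, ZFSet.pair_mem_prod, fs_pair, sn_pair, rst_kk, rst_kk, ap_kk1, ap_kk1,
    jj_L1 hE, and_assoc]

include hN

omit hE in
theorem dfn_kk : DfnF N N fun w : Fin 2 → ZFSet.{0} => kk (w 0) (w 1) := by
  have hb := hN.base
  have h1 : ∀ x σ : ZFSet.{0}, kk x σ = insert (pair (nat 1) σ) {pair (nat 0) x} := by
    intro x σ
    rw [kk, fnn_succ, fnn_succ, fnn_zero]
    rfl
  have h3 : (fun w : Fin 2 → ZFSet.{0} => kk (w 0) (w 1)) =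
      fun w => (insert (pair (nat 1) (w 1)) {pair (nat 0) (w 0)} : ZFSet.{0}) := by
    funext w
    exact h1 _ _
  rw [h3]
  exact hb.insert' (hb.pair' (DfnF.const (hN.nat_mem 1)) (DfnF.proj 1))
    (hb.single' (hb.pair' (DfnF.const (hN.nat_mem 0)) (DfnF.proj 0)))

include hct hB

theorem P2_mem : P2 N E LE tE B ∈ N :=
  hN.im_mem (hN.prod_mem (hN.im_mem hE.fo.mem (dfn_chk hN hN.empty_mem))
    (T1_mem hN hE hB hct)) (DfnF.comp2 (f := kk) (dfn_kk hN) (hN.fs' (DfnF.proj 0))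
      (hN.sn' (DfnF.proj 0)))

include hLB

theorem L2_mem : L2 N E LE tE B LB ∈ N := by
  have hb := hN.base
  have htM := jj_mem hN (tE_mem hN hE)
  have hP := forcing1 hN hE
  have hr : DfnF N N fun w : Fin 1 → ZFSet.{0} => rst (w 0) (nat 1) :=
    hN.sep' (Q := fun u w => fs u ∈ nat 1) (DfnF.proj 0)
      (Dfn.mem (hN.fs' (DfnF.proj 0)) (DfnF.const (hN.nat_mem 1)))
  have hd := fd hN hP hct (n := 3) (m := 1)
    (R := fun v : Fin 3 → ZFSet.{0} => pair (v 0) (v 1) ∈ v 2)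
    (D0.pairMem (D0v.proj 0) (D0v.proj 1) (D0v.proj 2))
    (F := ![fun w => ap (fs (w 0)) (nat 1), fun w => ap (sn (w 0)) (nat 1),
      fun _ => chk (jj tE) LB]) (by
      intro i
      fin_cases i
      · exact hN.ap' (hN.fs' (DfnF.proj 0)) (DfnF.const (hN.nat_mem 1))
      · exact hN.ap' (hN.sn' (DfnF.proj 0)) (DfnF.const (hN.nat_mem 1))
      · exact DfnF.const (chk_mem hN htM hLB)) (H := fun w => rst (fs (w 0)) (nat 1))
      (DfnF.comp1 (f := fun z => rst z (nat 1)) hr (hN.fs' (DfnF.proj 0)))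
  refine hN.sep_mem (Q := fun u => pair (rst (fs u) (nat 1)) (rst (sn u) (nat 1)) ∈ L1 LE ∧
    ∀ G, IsGeneric N (P1 E) (L1 LE) G → rst (fs u) (nat 1) ∈ G →
      pair (ev G (ap (fs u) (nat 1))) (ev G (ap (sn u) (nat 1))) ∈ LB) ?_
    (hN.prod_mem (P2_mem hN hct hE hB) (P2_mem hN hct hE hB))
  have h1 : Dfn N N fun w : Fin 1 → ZFSet.{0} =>
      pair (rst (fs (w 0)) (nat 1)) (rst (sn (w 0)) (nat 1)) ∈ L1 LE :=
    Dfn.mem (hb.pair' (DfnF.comp1 (f := fun z => rst z (nat 1)) hr (hN.fs' (DfnF.proj 0)))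
      (DfnF.comp1 (f := fun z => rst z (nat 1)) hr (hN.sn' (DfnF.proj 0))))
      (DfnF.const hP.le_mem)
  refine (h1.and hd).congr fun w hw => ?_
  constructor
  · rintro ⟨h2, -, h3⟩
    refine ⟨h2, fun G hG hr' => ?_⟩
    have h4 := h3 G hG hr'
    replace h4 : pair (ev G (ap (fs (w 0)) (nat 1))) (ev G (ap (sn (w 0)) (nat 1))) ∈
      ev G (chk (jj tE) LB) := h4
    rwa [ev_chk1 hN hE hG] at h4
  · rintro ⟨h2, h3⟩
    refine ⟨h2, ?_, fun G hG hr' => ?_⟩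
    · obtain ⟨a, b, hab, h4, -⟩ := (mem_L1 hE).1 h2
      obtain ⟨a', ha', b', hb', h5⟩ := hE.sub _ hab
      obtain ⟨rfl, rfl⟩ := ZFSet.pair_inj.1 h5
      show rst (fs (w 0)) (nat 1) ∈ P1 E
      rw [h4]
      exact mem_P1.2 ⟨_, ha', rfl⟩
    · show pair (ev G (ap (fs (w 0)) (nat 1))) (ev G (ap (sn (w 0)) (nat 1))) ∈
        ev G (chk (jj tE) LB)
      rw [ev_chk1 hN hE hG]
      exact h3 G hG hr'

end

/-! ### The iteration -/

/-- The notions of forcing. -/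
noncomputable def Pf (N : Set ZFSet.{0}) (E LE tE B : ZFSet.{0}) : ZFSet.{0} :=
  fnn 3 (sq {∅} (P1 E) (P2 N E LE tE B))

/-- The orders. -/
noncomputable def Lf2 (N : Set ZFSet.{0}) (E LE tE B LB : ZFSet.{0}) : ZFSet.{0} :=
  fnn 3 (sq {pair ∅ ∅} (L1 LE) (L2 N E LE tE B LB))

/-- The names of the iterands. -/
noncomputable def Qf (E tE B : ZFSet.{0}) : ZFSet.{0} :=
  fnn 2 (sq (chk ∅ E) (chk (jj tE) B) ∅)

/-- The names of the greatest elements. -/
noncomputable def Of (tE : ZFSet.{0}) : ZFSet.{0} := fnn 2 (sq (chk ∅ tE) ∅ ∅)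

/-- The sets of names. -/
noncomputable def Tf (N : Set ZFSet.{0}) (E LE tE B : ZFSet.{0}) : ZFSet.{0} :=
  fnn 2 (sq (im (chk ∅) E) (T1 N E LE tE B) ∅)

section

variable {N : Set ZFSet.{0}} {E LE tE B LB : ZFSet.{0}}

theorem Pf0 : ap (Pf N E LE tE B) (nat 0) = {∅} := ap_fnn (by omega)
theorem Pf1 : ap (Pf N E LE tE B) (nat 1) = P1 E := ap_fnn (by omega)
theorem Pf2 : ap (Pf N E LE tE B) (nat 2) = P2 N E LE tE B := ap_fnn (by omega)
theorem Lf0 : ap (Lf2 N E LE tE B LB) (nat 0) = {pair ∅ ∅} := ap_fnn (by omega)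
theorem Lf1 : ap (Lf2 N E LE tE B LB) (nat 1) = L1 LE := ap_fnn (by omega)
theorem Lf22 : ap (Lf2 N E LE tE B LB) (nat 2) = L2 N E LE tE B LB := ap_fnn (by omega)
theorem Qf0 : ap (Qf E tE B) (nat 0) = chk ∅ E := ap_fnn (by omega)
theorem Qf1 : ap (Qf E tE B) (nat 1) = chk (jj tE) B := ap_fnn (by omega)
theorem Of0 : ap (Of tE) (nat 0) = chk ∅ tE := ap_fnn (by omega)
theorem Of1 : ap (Of tE) (nat 1) = ∅ := ap_fnn (by omega)
theorem Tf0 : ap (Tf N E LE tE B) (nat 0) = im (chk ∅) E := ap_fnn (by omega)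
theorem Tf1 : ap (Tf N E LE tE B) (nat 1) = T1 N E LE tE B := ap_fnn (by omega)

theorem ord_nat (n : ℕ) : (nat n).IsOrdinal := by
  induction n with
  | zero => exact ZFSet.isOrdinal_empty
  | succ n ih => exact ZFSet.isOrdinal_succ ih

theorem mem3 {α : ZFSet.{0}} (h : α ∈ (insert (nat 2) (nat 2) : ZFSet.{0})) :
    α = nat 0 ∨ α = nat 1 ∨ α = nat 2 := by
  obtain ⟨i, hi, rfl⟩ := H158_HM.mem_nat.1 (show α ∈ nat 3 from h)
  have : i = 0 ∨ i = 1 ∨ i = 2 := by omega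
  rcases this with rfl | rfl | rfl
  · exact Or.inl rfl
  · exact Or.inr (Or.inl rfl)
  · exact Or.inr (Or.inr rfl)

theorem mem2 {α : ZFSet.{0}} (h : α ∈ nat 2) : α = nat 0 ∨ α = nat 1 := by
  obtain ⟨i, hi, rfl⟩ := H158_HM.mem_nat.1 h
  have : i = 0 ∨ i = 1 := by omega
  rcases this with rfl | rfl
  · exact Or.inl rfl
  · exact Or.inr rfl

theorem mem1 {α : ZFSet.{0}} (h : α ∈ nat 1) : α = nat 0 := by
  obtain ⟨i, hi, rfl⟩ := H158_HM.mem_nat.1 h
  have : i = 0 := by omega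
  rw [this]

theorem fin_sub {n : ℕ} (p o : ZFSet.{0}) :
    {β | β ∈ nat n ∧ ap p β ≠ ap o β}.Finite := by
  refine Set.Finite.subset ((Set.finite_lt_nat n).image nat) ?_
  rintro β ⟨hβ, -⟩
  obtain ⟨i, hi, rfl⟩ := H158_HM.mem_nat.1 hβ
  exact ⟨i, hi, rfl⟩

theorem nm {i n : ℕ} (h : i < n) : nat i ∈ nat n := H158_HM.nat_mem_iff.2 h

/-- The order on the first coordinate. -/
theorem lev0 {p q a b : ZFSet.{0}} (h1 : rst q (nat 0) = ∅) (h2 : ap q (nat 0) = chk ∅ a)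
    (h3 : ap p (nat 0) = chk ∅ b) :
    (∀ G, IsGeneric N (ap (Pf N E LE tE B) (nat 0)) (ap (Lf2 N E LE tE B LB) (nat 0)) G →
      rst q (nat 0) ∈ G → pair (ev G (ap q (nat 0))) (ev G (ap p (nat 0))) ∈
        ev G (ap (Qf LE tE LB) (nat 0))) ↔ pair a b ∈ LE := by
  rw [Pf0, Lf0, Qf0, h1, h2, h3]
  constructor
  · intro h
    have h4 := h {∅} (gen0.2 rfl) (by simp)
    rwa [ev_chk (by simp), ev_chk (by simp), ev_chk (by simp)] at h4
  · intro h G hG _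
    rw [gen0] at hG
    subst hG
    rwa [ev_chk (by simp), ev_chk (by simp), ev_chk (by simp)]

end

section

variable {N : Set ZFSet.{0}} (hN : IsZF N) (hct : N.Countable) {E LE tE : ZFSet.{0}}
  (hE : Fo N E LE tE) {B LB : ZFSet.{0}} (hB : B ∈ N) (hLB : LB ∈ N) (hpre : IsPre B LB ∅)

include hN hct hE hB hLB hpre

theorem iter2 : IsIteration N (nat 2) (Pf N E LE tE B) (Lf2 N E LE tE B LB) (Qf E tE B)
    (Qf LE tE LB) (Of tE) (Tf N E LE tE B) where
  ord := ord_nat 2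
  mem := by
    have h0 := hN.empty_mem
    have htN := tE_mem hN hE
    have htM := jj_mem hN htN
    have hP := forcing1 hN hE
    refine ⟨hN.nat_mem 2, fnn_mem hN fun i hi => ?_, fnn_mem hN fun i hi => ?_,
      fnn_mem hN fun i hi => ?_, fnn_mem hN fun i hi => ?_, fnn_mem hN fun i hi => ?_,
      fnn_mem hN fun i hi => ?_⟩
    · have : i = 0 ∨ i = 1 ∨ i = 2 := by omega
      rcases this with rfl | rfl | rfl
      · exact hN.single_mem h0
      · exact hP.mem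
      · exact P2_mem hN hct hE hB
    · have : i = 0 ∨ i = 1 ∨ i = 2 := by omega
      rcases this with rfl | rfl | rfl
      · exact hN.single_mem (hN.pair_mem h0 h0)
      · exact hP.le_mem
      · exact L2_mem hN hct hE hB hLB
    · have : i = 0 ∨ i = 1 := by omega
      rcases this with rfl | rfl
      · exact chk_mem hN h0 hE.fo.mem
      · exact chk_mem hN htM hB
    · have : i = 0 ∨ i = 1 := by omega
      rcases this with rfl | rfl
      · exact chk_mem hN h0 hE.fo.le_mem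
      · exact chk_mem hN htM hLB
    · have : i = 0 ∨ i = 1 := by omega
      rcases this with rfl | rfl
      · exact chk_mem hN h0 htN
      · exact h0
    · have : i = 0 ∨ i = 1 := by omega
      rcases this with rfl | rfl
      · exact hN.im_mem hE.fo.mem (dfn_chk hN h0)
      · exact T1_mem hN hE hB hct
  dom := ⟨isFn_fnn, isFn_fnn, isFn_fnn, isFn_fnn, isFn_fnn, isFn_fnn⟩
  pre := by
    intro β hβ G hG
    rcases mem2 hβ with rfl | rfl
    · rw [Pf0, Lf0, gen0] at hG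
      subst hG
      rw [Qf0, Qf0, Of0, ev_chk (by simp), ev_chk (by simp), ev_chk (by simp)]
      exact ⟨hE.fo.refl, fun x hx y hy z hz h1 h2 => hE.fo.trans z hz y hy x hx h1 h2, hE.top,
        hE.le⟩
    · rw [Pf1, Lf1] at hG
      rw [Qf1, Qf1, Of1, ev_chk1 hN hE hG, ev_chk1 hN hE hG]
      have h1 : ev G ∅ = ∅ := by
        refine (ZFSet.eq_empty _).2 fun z hz => ?_
        obtain ⟨y, p, h, -, -⟩ := mem_ev.1 hz
        exact ZFSet.notMem_empty _ h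
      rw [h1]
      exact hpre
  names := by
    intro β hβ
    rcases mem2 hβ with rfl | rfl
    · rw [Pf0, Lf0, Qf0, Tf0]
      exact names0 hN hE.fo.mem
    · rw [Pf1, Lf1, Qf1, Tf1]
      exact names1 hN hE hB hpre.top_mem hct
  top := by
    intro β hβ
    rcases mem2 hβ with rfl | rfl
    · rw [Of0, Tf0]
      exact mem_im.2 ⟨tE, hE.top, rfl⟩
    · rw [Of1, Tf1]
      have h1 : chk (jj tE) ∅ = ∅ := by
        refine (ZFSet.eq_empty _).2 fun z hz => ?_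
        obtain ⟨y, h, -⟩ := mem_chk.1 hz
        exact ZFSet.notMem_empty _ h
      have h2 := chk_T1 hN hE hB hpre.top_mem
      rwa [h1] at h2
  cond := by
    intro α hα p
    have h0 := hN.empty_mem
    rcases mem3 hα with rfl | rfl | rfl
    · rw [Pf0, ZFSet.mem_singleton]
      constructor
      · rintro rfl
        refine ⟨h0, ?_, fun β hβ => absurd hβ (ZFSet.notMem_empty _), fin_sub _ _⟩
        have h1 : IsFn (nat 0) (fnn 0 fun _ => ∅) := isFn_fnn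
        rwa [fnn_zero] at h1
      · rintro ⟨-, h1, -⟩
        rw [eq_fnn h1, fnn_zero]
    · rw [Pf1, mem_P1]
      constructor
      · rintro ⟨e, he, rfl⟩
        refine ⟨jj_mem hN (hN.trans _ hE.fo.mem _ he), isFn_fnn, fun β hβ => ?_, fin_sub _ _⟩
        rw [mem1 hβ, ap_jj, Tf0]
        exact mem_im.2 ⟨e, he, rfl⟩
      · rintro ⟨-, h1, h2, -⟩
        have h3 := h2 (nat 0) (nm (by omega))
        rw [Tf0] at h3
        obtain ⟨e, he, h4⟩ := mem_im.1 h3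
        exact ⟨e, he, eq_jj h1 h4⟩
    · rw [Pf2]
      constructor
      · intro hp
        have hpN := hN.trans _ (P2_mem hN hct hE hB) _ hp
        obtain ⟨e, he, σ, hσ, rfl⟩ := mem_P2.1 hp
        refine ⟨hpN, isFn_fnn, fun β hβ => ?_, fin_sub _ _⟩
        rcases mem2 hβ with rfl | rfl
        · rw [ap_kk0, Tf0]
          exact mem_im.2 ⟨e, he, rfl⟩
        · rw [ap_kk1, Tf1]
          exact hσ
      · rintro ⟨-, h1, h2, -⟩
        have h3 := h2 (nat 0) (nm (by omega))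
        have h4 := h2 (nat 1) (nm (by omega))
        rw [Tf0] at h3
        rw [Tf1] at h4
        obtain ⟨e, he, h5⟩ := mem_im.1 h3
        exact mem_P2.2 ⟨e, he, _, h4, eq_kk h1 h5 rfl⟩
  order := by
    intro α hα p q
    rcases mem3 hα with rfl | rfl | rfl
    · rw [Pf0, Lf0, ZFSet.mem_singleton, ZFSet.mem_singleton, ZFSet.mem_singleton,
        ZFSet.pair_inj]
      exact ⟨fun h => ⟨h.1, h.2, fun β hβ => absurd hβ (ZFSet.notMem_empty _)⟩,
        fun h => ⟨h.1, h.2.1⟩⟩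
    · rw [Pf1, Lf1]
      constructor
      · intro h
        obtain ⟨a, b, h1, rfl, rfl⟩ := (mem_L1 hE).1 h
        obtain ⟨a', ha', b', hb', h5⟩ := hE.sub _ h1
        obtain ⟨rfl, rfl⟩ := ZFSet.pair_inj.1 h5
        refine ⟨mem_P1.2 ⟨_, ha', rfl⟩, mem_P1.2 ⟨_, hb', rfl⟩, fun β hβ => ?_⟩
        rw [mem1 hβ]
        exact (lev0 rst_jj0 ap_jj ap_jj).2 h1
      · rintro ⟨hq, hp, h⟩
        obtain ⟨a, ha, rfl⟩ := mem_P1.1 hq
        obtain ⟨b, hb, rfl⟩ := mem_P1.1 hp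
        exact (jj_L1 hE).2 ((lev0 rst_jj0 ap_jj ap_jj).1 (h (nat 0) (nm (by omega))))
    · rw [Pf2, Lf22]
      constructor
      · intro h
        have h1 := (ZFSet.pair_mem_prod.1 (ZFSet.mem_sep.1 h).1)
        obtain ⟨a, ha, σ, hσ, rfl⟩ := mem_P2.1 h1.1
        obtain ⟨b, hb, τ, hτ, rfl⟩ := mem_P2.1 h1.2
        obtain ⟨h2, h3, h4, h5⟩ := (kk_L2 hE).1 h
        refine ⟨h2, h3, fun β hβ => ?_⟩
        rcases mem2 hβ with rfl | rfl
        · exact (lev0 rst_kk0 ap_kk0 ap_kk0).2 h4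
        · intro G hG hG'
          rw [Pf1, Lf1] at hG
          rw [rst_kk] at hG'
          rw [ap_kk1, ap_kk1, Qf1, ev_chk1 hN hE hG]
          exact h5 G hG hG'
      · rintro ⟨hq, hp, h⟩
        obtain ⟨a, ha, σ, hσ, rfl⟩ := mem_P2.1 hq
        obtain ⟨b, hb, τ, hτ, rfl⟩ := mem_P2.1 hp
        refine (kk_L2 hE).2 ⟨hq, hp, (lev0 rst_kk0 ap_kk0 ap_kk0).1 (h (nat 0) (nm (by omega))),
          fun G hG hG' => ?_⟩
        have h1 := h (nat 1) (nm (by omega)) G (by rwa [Pf1, Lf1]) (by rwa [rst_kk])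
        rwa [ap_kk1, ap_kk1, Qf1, ev_chk1 hN hE hG] at h1

end

end Pool.Agent.H158_IT
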