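import Pool.Agent.H158_AM.Zf
import Pool.Agent.H158_IT.Gx

/-!
# Generic extensions of transitive models of ZF are models of ZF
-/

set_option autoImplicit false
set_option linter.all false

namespace Pool.Agent.H158_IT

open Pool.Agent.W868 Pool.Agent.W868.GM Pool.Agent.Y588
open Pool.Agent.H158_AM (SymSys Sy HS act mem_act Sn Nm act_mul hs_iff isZF_nm nm_sub sub_nm
  mem_dm')
open ZFSet (pair)

section

variable {N : Set ZFSet.{0}} (hN : IsZF N) {P L : ZFSet.{0}} (hP : IsForcing N P L)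

/-- The trivial action. -/
def iac (_ p : ZFSet.{0}) : ZFSet.{0} := p

/-- The trivial filter. -/
noncomputable def ifl : ZFSet.{0} := {{∅}}

theorem act_act (x : ZFSet.{0}) : act P iac ∅ (act P iac ∅ x) = act P iac ∅ x :=
  act_mul (fun _ h => h) (fun _ _ => rfl) x

theorem hs_act' (x : ZFSet.{0}) : HS P iac ifl (act P iac ∅ x) := by
  induction x using dm_ind with
  | _ x ih =>
    refine hs_iff.2 ⟨⟨{∅}, by simp [ifl], fun g hg => ?_⟩, fun y hy => ?_⟩
    · rw [ZFSet.mem_singleton] at hg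
      subst hg
      exact act_act x
    · obtain ⟨u, hu, rfl⟩ := mem_dm'.1 hy
      obtain ⟨y, c, h1, -, rfl⟩ := mem_act.1 hu
      rw [fs_pair]
      exact ih y (mem_dm h1)

theorem ev_act' {G : ZFSet.{0}} (hG : G ⊆ P) (x : ZFSet.{0}) :
    ev G (act P iac ∅ x) = ev G x := by
  induction x using dm_ind with
  | _ x ih =>
    ext z
    rw [mem_ev, mem_ev]
    constructor
    · rintro ⟨y, p, h1, h2, rfl⟩
      obtain ⟨y', c, h3, h4, h5⟩ := mem_act.1 h1
      obtain ⟨rfl, rfl⟩ := ZFSet.pair_inj.1 h5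
      exact ⟨y', _, h3, h2, (ih y' (mem_dm h3)).symm⟩
    · rintro ⟨y, p, h1, h2, rfl⟩
      exact ⟨_, p, mem_act.2 ⟨y, p, h1, hG h2, rfl⟩, h2, ih y (mem_dm h1)⟩

include hN hP

theorem symSys_triv : SymSys N P L iac {∅} ifl where
  gr := hN.single_mem hN.empty_mem
  fl := hN.single_mem (hN.single_mem hN.empty_mem)
  dac := DfnF.proj 1
  maps := fun _ _ _ h => h
  mono := fun _ _ _ _ _ _ h => h
  inv := fun g hg => ⟨g, hg, fun _ _ => ⟨rfl, rfl⟩⟩
  mul := fun g hg _ _ => ⟨g, hg, fun _ _ => rfl⟩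
  ne := ⟨{∅}, by simp [ifl]⟩
  sub := fun H hH => by
    rw [ifl, ZFSet.mem_singleton] at hH
    subst hH
    exact fun _ h => h
  hone := fun H hH => by
    rw [ifl, ZFSet.mem_singleton] at hH
    subst hH
    exact ⟨∅, by simp, fun _ _ => rfl⟩
  hinv := fun H hH g hg => ⟨g, hg, fun _ _ => ⟨rfl, rfl⟩⟩
  dir := fun H hH K hK => by
    rw [ifl, ZFSet.mem_singleton] at hH hK
    subst hH hK
    exact ⟨{∅}, by simp [ifl], fun _ h => h, fun _ h => h⟩
  conj := fun H hH g hg => by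
    rw [ifl, ZFSet.mem_singleton] at hH
    subst hH
    exact ⟨{∅}, by simp [ifl], fun k hk => ⟨k, hk, fun _ _ => rfl⟩⟩
  top := by
    obtain ⟨t, h1, h2⟩ := hP.top
    exact ⟨t, h1, h2, fun _ _ => rfl⟩

theorem ext_eq {G : ZFSet.{0}} (hG : IsGeneric N P L G) : ext N G = Nm N P iac ifl G := by
  refine Set.Subset.antisymm ?_ nm_sub
  rintro _ ⟨x, hx, rfl⟩
  refine ⟨act P iac ∅ x, ⟨?_, hs_act' x⟩, ev_act' hG.sub x⟩
  exact Pool.Agent.H158_AM.act_mem hN hP.mem (DfnF.proj 1) hN.empty_mem hx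

/-- Generic extensions of transitive models of ZF are models of ZF. -/
theorem zf_ext {G : ZFSet.{0}} (hG : IsGeneric N P L G) : IsZF (ext N G) := by
  rw [ext_eq hN hP hG]
  exact isZF_nm hN hP (symSys_triv hN hP) hG

theorem sub_ext' {G : ZFSet.{0}} (hG : IsGeneric N P L G) : N ⊆ ext N G := by
  rw [ext_eq hN hP hG]
  exact sub_nm hN hP (symSys_triv hN hP) hG

end

end Pool.Agent.H158_IT
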